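import Pool.Agent.Helper51.RC.M_RAMP
import Pool.Agent.Helper44.RC.StFar

/-!
# Project RC, SHARP, far lemma: module (R)
-/

open MeasureTheory Set Filter Topology

namespace Pool.Agent.Helper51.RC

open Helper49.LT hiding sg
open Helper49.RC Helper87.RC Helper44.GQ
open Helper56.RC (fc)
open Helper44.RCG (AQQG G1 G2 G1_meas G2_meas G1_le G2_le)
open Helper44.Far
open Pool.Agent.Helper20.RC (wR al mom wR_wgt al_meas)

theorem w1_eq (t : ℝ) : w1 t = 1 := by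
  unfold w1 wR
  simp

theorem w1_wgt : Wgt w1 := wR_wgt (by norm_num)

/-- the sum of the diagonals in the frame rotated by `ee t` -/
noncomputable def gm (b : ℝ → ℂ) (t : ℝ) : ℂ :=
  (Real.sqrt 3 * Complex.I) * 1 + (-(Real.sqrt 3 * Complex.I)) * ((b t).re : ℂ)
    + (2 * Real.sqrt 3) * ((b t).im : ℂ)

theorem gm_form (b : ℝ → ℂ) (t : ℝ) : AAQ w1 2 b t + BBQ w1 2 b t = ee t * gm b t := by
  unfold AAQ BBQ gm cQ
  rw [w1_eq]
  push_cast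
  ring

theorem bm_re {b z : ℝ → ℂ} (h : AdmQ 2 b z) : BM (fun t => ((b t).re : ℂ)) 1 := by
  obtain ⟨δ, hδ, hb⟩ := h.bdb
  refine ⟨Complex.measurable_ofReal.comp (Complex.measurable_re.comp h.mb), fun t => ?_⟩
  rw [Complex.norm_real, Real.norm_eq_abs]
  exact (Complex.abs_re_le_norm _).trans (by linarith [hb t])

theorem bm_im {b z : ℝ → ℂ} (h : AdmQ 2 b z) : BM (fun t => ((b t).im : ℂ)) 1 := by
  obtain ⟨δ, hδ, hb⟩ := h.bdb
  refine ⟨Complex.measurable_ofReal.comp (Complex.measurable_im.comp h.mb), fun t => ?_⟩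
  rw [Complex.norm_real, Real.norm_eq_abs]
  exact (Complex.abs_im_le_norm _).trans (by linarith [hb t])

theorem fc_one1 (m : ℤ) : fc (fun _ => (1 : ℂ)) m = if m = 0 then 1 else 0 := by
  have hpi := Real.pi_pos
  have hpc : (Real.pi : ℂ) ≠ 0 := by exact_mod_cast hpi.ne'
  rw [fc_eq]
  by_cases hm : m = 0
  · subst hm
    rw [if_pos rfl]
    simp only [Int.cast_zero, neg_zero, zero_mul, ee_zero,
      intervalIntegral.integral_const, sub_zero, Complex.real_smul, mul_one]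
    push_cast
    field_simp
  · rw [if_neg hm]
    have hmc : (m : ℂ) ≠ 0 := by exact_mod_cast hm
    have h : ∀ t ∈ uIcc (0 : ℝ) (2 * Real.pi), HasDerivAt
        (fun τ : ℝ => ee (((-m : ℤ) : ℝ) * τ) / (-(m : ℂ) * Complex.I)) (1 * ee (-(m : ℝ) * t)) t := by
      intro t _
      refine ((hasDerivAt_ee (((-m : ℤ)) : ℝ) t).div_const _).congr_deriv ?_
      push_cast
      field_simp
    rw [intervalIntegral.integral_eq_sub_of_hasDerivAt h]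
    · have h1 := ee_int (-m) 0
      rw [zero_add] at h1
      rw [h1, sub_self, mul_zero]
    · exact (continuous_const.mul (continuous_ee.comp (continuous_const.mul continuous_id))).intervalIntegrable _ _

theorem nat_split1 {g : ℤ → ℝ} {S : ℝ} (h : HasSum g S) :
    HasSum (fun k : ℕ => g ((k : ℤ) + 1) + g (-((k : ℤ) + 1))) (S - g 0) := by
  have h1 := h.nat_add_neg
  have h2 := (hasSum_nat_add_iff' 1).2 h1
  simp only [Finset.range_one, Finset.sum_singleton, Nat.cast_zero, neg_zero, Nat.cast_add,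
    Nat.cast_one] at h2
  have e : S + g 0 - (g 0 + g 0) = S - g 0 := by ring
  rw [e] at h2
  exact h2

theorem fc_gm {b z : ℝ → ℂ} (h : AdmQ 2 b z) (m : ℤ) : fc (gm b) m =
    (Real.sqrt 3 * Complex.I) * (if m = 0 then 1 else 0) + (-(Real.sqrt 3 * Complex.I)) * be b m
      + (2 * Real.sqrt 3) * ga b m := by
  have h1 : BM (fun _ : ℝ => (1 : ℂ)) 1 := ⟨measurable_const, fun t => by simp⟩
  have h2 := bm_re h
  have h3 := bm_im h
  have e : gm b = fun t => ((Real.sqrt 3 * Complex.I) * 1 + (-(Real.sqrt 3 * Complex.I)) * ((b t).re : ℂ))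
    + (2 * Real.sqrt 3) * ((b t).im : ℂ) := rfl
  rw [e, fc_add ((h1.cmul _).add (h2.cmul _)) (h3.cmul _), fc_add (h1.cmul _) (h2.cmul _), fc_cmul, fc_cmul, fc_cmul,
    fc_one1]
  rfl

theorem nu_mu {g1 g2 : ℝ → ℂ} {D1 D2 : ℝ} (h1 : BM g1 D1) (h2 : BM g2 D2) (l : ℤ) :
    nu g1 g2 l = (starRingEnd ℂ) (mu g1 l + mu g2 l) := by
  rw [map_add, ← mu_conj, ← mu_conj]
  unfold nu mu
  rw [← mul_add]
  congr 1
  have key : ∀ {g : ℝ → ℂ} {D : ℝ}, BM g D →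
      IntervalIntegrable (fun θ => (‖g θ‖ : ℂ) * ee (-(l : ℝ) * al g θ)) volume 0 (2 * Real.pi) := by
    intro g D hg
    refine intg_of_bddC (C := D) ?_ (fun t => ?_) _ _
    · exact (Complex.measurable_ofReal.comp hg.m.norm).mul
        (continuous_ee.measurable.comp ((al_meas hg.m).const_mul _))
    · rw [norm_mul, norm_ee, mul_one, Complex.norm_real, Real.norm_eq_abs, abs_of_nonneg (norm_nonneg _)]
      exact hg.b t
  rw [intervalIntegral.integral_add (key h1) (key h2)]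
  congr 1
  · refine intervalIntegral.integral_congr fun θ _ => ?_
    show (‖g1 θ‖ : ℂ) * ee (-(l : ℝ) * al g1 θ) = (‖g1 θ‖ : ℂ) * ee (((-l : ℤ) : ℝ) * al g1 θ)
    push_cast
    rfl
  · refine intervalIntegral.integral_congr fun θ _ => ?_
    show (‖g2 θ‖ : ℂ) * ee (-(l : ℝ) * al g2 θ) = (‖g2 θ‖ : ℂ) * ee (((-l : ℤ) : ℝ) * al g2 θ)
    push_cast
    rfl

theorem nu_neg {g1 g2 : ℝ → ℂ} {D1 D2 : ℝ} (h1 : BM g1 D1) (h2 : BM g2 D2) (l : ℤ) :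
    nu g1 g2 (-l) = (starRingEnd ℂ) (nu g1 g2 l) := by
  rw [nu_mu h1 h2, nu_mu h1 h2, mu_conj, mu_conj]
  simp only [map_add]

theorem ee_mhalf (j : ℤ) : ee (((2 * j + 1 : ℤ) : ℝ) * (-(Real.pi / 2))) = -Complex.I * (-1) ^ j := by
  have h1 : ee (-(Real.pi / 2)) = -Complex.I := by
    rw [ee_neg, ee_eq, Real.cos_pi_div_two, Real.sin_pi_div_two]
    simp
  rw [ee_int_mul, h1, zpow_add₀ (by simp), zpow_mul, zpow_one]
  have h2 : (-Complex.I) ^ (2 : ℤ) = -1 := by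
    rw [show (2 : ℤ) = ((2 : ℕ) : ℤ) by norm_num, zpow_natCast]
    rw [neg_sq, Complex.I_sq]
  rw [h2]
  ring

/-- the terms of the ramp for the families of the gauge -/
theorem ramp_nu {b z : ℝ → ℂ} (h : AdmQ 2 b z) {D : ℝ} (hD : 0 < D) :
    ∃ R : ℝ, R ≤ AQQG (AAQ w1 2 b) (BBQ w1 2 b) (vvS w1 z) ∧
    HasSum (fun j : ℤ => ((sk D (2 * j + 1) : ℂ) * (fc (gm b) (2 * j) / (2 * (j : ℂ) + 1))
      * (-Complex.I * (-1) ^ j) * (starRingEnd ℂ) (nu (F1Q w1 2 b z) (F2Q w1 2 b z) (2 * j))).re) R := by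
  obtain ⟨C, hC⟩ := hexQ (by norm_num : (0 : ℝ) < 2) h w1_wgt
  have hq := qqQ (by norm_num : (0 : ℝ) < 2) h w1_wgt
  have m1 : Measurable (G1 (AAQ w1 2 b) (vvS w1 z)) := G1_meas hC.q
  have m2 : Measurable (G2 (BBQ w1 2 b) (vvS w1 z)) := G2_meas hC.q
  have b1 : BM (G1 (AAQ w1 2 b) (vvS w1 z)) (2 * C) := ⟨m1, G1_le hC.q⟩
  have b2 : BM (G2 (BBQ w1 2 b) (vvS w1 z)) (2 * C) := ⟨m2, G2_le hC.q⟩
  obtain ⟨R, hR, hs⟩ := ramp_odd hC.q hq (gm_form b)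
    (φ1 := fun θ => al (G1 (AAQ w1 2 b) (vvS w1 z)) θ + (-(Real.pi / 2)))
    (φ2 := fun θ => al (G2 (BBQ w1 2 b) (vvS w1 z)) θ + (-(Real.pi / 2)))
    ((al_meas m1).add_const _) ((al_meas m2).add_const _) hD
  refine ⟨R, hR, ?_⟩
  refine hs.congr_fun ?_
  intro j
  rw [mom_shift, mom_shift, mom_al, mom_al, ee_mhalf]
  have e : (starRingEnd ℂ) (nu (F1Q w1 2 b z) (F2Q w1 2 b z) (2 * j)) =
      mu (G1 (AAQ w1 2 b) (vvS w1 z)) (2 * j) + mu (G2 (BBQ w1 2 b) (vvS w1 z)) (2 * j) := by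
    unfold F1Q F2Q
    rw [nu_mu b1 b2, Complex.conj_conj]
  rw [e]
  congr 1
  ring

theorem be_neg (b : ℝ → ℂ) (n : ℤ) : be b (-n) = (starRingEnd ℂ) (be b n) := Helper95.RC.fc_real_neg _ n
theorem ga_neg (b : ℝ → ℂ) (n : ℤ) : ga b (-n) = (starRingEnd ℂ) (ga b n) := Helper95.RC.fc_real_neg _ n

theorem sk_pd (n : ℕ) : sk (1 / 4) (2 * ((n : ℤ) + 1) + 1) / (2 * (n : ℝ) + 3) = PD n := by
  unfold sk PD
  push_cast
  have e : (2 * ((n : ℝ) + 1) + 1) = 2 * (n : ℝ) + 3 := by ring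
  rw [e]
  have h : (2 * (n : ℝ) + 3) ≠ 0 := by positivity
  have e2 : (2 * (n : ℝ) + 3) * (1 / 4) = (2 * (n : ℝ) + 3) / 4 := by ring
  rw [e2]
  field_simp

theorem sk_rd (n : ℕ) : sk (1 / 4) (2 * (-((n : ℤ) + 1)) + 1) / (2 * (n : ℝ) + 1) = RD n := by
  unfold sk RD
  push_cast
  have h : (2 * (n : ℝ) + 1) ≠ 0 := by positivity
  have e3 : (2 * (-((n : ℝ) + 1)) + 1) * (1 / 4) = -((2 * (n : ℝ) + 1) / 4) := by ring
  rw [e3, Real.sin_neg]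
  field_simp

/-- one pair of frequencies -/
theorem pair_term (b g1 g2 : ℝ → ℂ) {D1 D2 : ℝ} (h1 : BM g1 D1) (h2 : BM g2 D2) {z : ℝ → ℂ}
    (h : AdmQ 2 b z) (n : ℕ) :
    ((sk (1 / 4) (2 * ((n : ℤ) + 1) + 1) : ℂ) * (fc (gm b) (2 * ((n : ℤ) + 1)) / (2 * (((n : ℤ) + 1 : ℤ) : ℂ) + 1))
      * (-Complex.I * (-1) ^ ((n : ℤ) + 1)) * (starRingEnd ℂ) (nu g1 g2 (2 * ((n : ℤ) + 1)))).re
    + ((sk (1 / 4) (2 * (-((n : ℤ) + 1)) + 1) : ℂ)
      * (fc (gm b) (2 * (-((n : ℤ) + 1))) / (2 * ((-((n : ℤ) + 1) : ℤ) : ℂ) + 1))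
      * (-Complex.I * (-1) ^ (-((n : ℤ) + 1))) * (starRingEnd ℂ) (nu g1 g2 (2 * (-((n : ℤ) + 1))))).re
    = 2 * (XR n (be b (fm n)) (ga b (fm n)) * (starRingEnd ℂ) (nu g1 g2 (fm n))).re := by
  have h0 : (2 * ((n : ℤ) + 1)) ≠ 0 := by omega
  have h0' : (2 * (-((n : ℤ) + 1))) ≠ 0 := by omega
  rw [fc_gm h, fc_gm h, if_neg h0, if_neg h0']
  have em : (2 * (-((n : ℤ) + 1)) : ℤ) = -(2 * ((n : ℤ) + 1)) := by ring
  rw [← sub_eq_zero]
  have ebe : be b (2 * (-((n : ℤ) + 1))) = (starRingEnd ℂ) (be b (2 * ((n : ℤ) + 1))) := by rw [em, be_neg]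
  have ega : ga b (2 * (-((n : ℤ) + 1))) = (starRingEnd ℂ) (ga b (2 * ((n : ℤ) + 1))) := by rw [em, ga_neg]
  have enu : nu g1 g2 (2 * (-((n : ℤ) + 1))) = (starRingEnd ℂ) (nu g1 g2 (2 * ((n : ℤ) + 1))) := by
    rw [em, nu_neg h1 h2]
  rw [ebe, ega, enu]
  have hfm : fm n = 2 * ((n : ℤ) + 1) := rfl
  rw [hfm]
  set β := be b (2 * ((n : ℤ) + 1))
  set γ := ga b (2 * ((n : ℤ) + 1))
  set ν := nu g1 g2 (2 * ((n : ℤ) + 1))
  have p1 : (-1 : ℂ) ^ ((n : ℤ) + 1) = (((-1 : ℝ) ^ (n + 1) : ℝ) : ℂ) := by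
    have : ((n : ℤ) + 1) = ((n + 1 : ℕ) : ℤ) := by push_cast; rfl
    rw [this, zpow_natCast]
    push_cast
    rfl
  have p2 : (-1 : ℂ) ^ (-((n : ℤ) + 1)) = (((-1 : ℝ) ^ (n + 1) : ℝ) : ℂ) := by
    rw [zpow_neg, p1]
    rcases neg_one_pow_eq_or ℝ (n + 1) with e | e <;> rw [e] <;> norm_num
  rw [p1, p2]
  unfold XR
  have p3 : (-1 : ℂ) ^ (n + 1) = (((-1 : ℝ) ^ (n + 1) : ℝ) : ℂ) := by push_cast; rfl
  rw [p3]
  set ε := (-1 : ℝ) ^ (n + 1)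
  rw [← sk_pd, ← sk_rd]
  set s1 := sk (1 / 4) (2 * ((n : ℤ) + 1) + 1)
  set s2 := sk (1 / 4) (2 * (-((n : ℤ) + 1)) + 1)
  have hp1 : (2 * (n : ℝ) + 3) ≠ 0 := by positivity
  have hp2 : (2 * (n : ℝ) + 1) ≠ 0 := by positivity
  have ea : ((s1 : ℂ) * ((Real.sqrt 3 * Complex.I * 0 + -(Real.sqrt 3 * Complex.I) * β + 2 * Real.sqrt 3 * γ) /
      (2 * (((n : ℤ) + 1 : ℤ) : ℂ) + 1)) * (-Complex.I * (ε : ℂ)) * (starRingEnd ℂ) ν) =
      ((s1 / (2 * (n : ℝ) + 3) * Real.sqrt 3 * ε : ℝ) : ℂ) * ((-β - 2 * Complex.I * γ) * (starRingEnd ℂ) ν) := by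
    have hpc : (2 * (n : ℂ) + 3) ≠ 0 := by exact_mod_cast hp1
    have hpc' : (2 * (((n : ℤ) + 1 : ℤ) : ℂ) + 1) = 2 * (n : ℂ) + 3 := by push_cast; ring
    rw [hpc']
    push_cast
    field_simp
    linear_combination (s1 : ℂ) * (ε : ℂ) * β * (starRingEnd ℂ) ν * Complex.I_sq
  have eb : ((s2 : ℂ) * ((Real.sqrt 3 * Complex.I * 0 + -(Real.sqrt 3 * Complex.I) * (starRingEnd ℂ) β
      + 2 * Real.sqrt 3 * (starRingEnd ℂ) γ) /
      (2 * ((-((n : ℤ) + 1) : ℤ) : ℂ) + 1)) * (-Complex.I * (ε : ℂ)) * (starRingEnd ℂ) ((starRingEnd ℂ) ν)) =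
      ((s2 / (2 * (n : ℝ) + 1) * Real.sqrt 3 * ε : ℝ) : ℂ) *
        ((starRingEnd ℂ) ((β - 2 * Complex.I * γ) * (starRingEnd ℂ) ν)) := by
    have hpc : (2 * (n : ℂ) + 1) ≠ 0 := by exact_mod_cast hp2
    have hpc' : (2 * ((-((n : ℤ) + 1) : ℤ) : ℂ) + 1) = -(2 * (n : ℂ) + 1) := by push_cast; ring
    rw [hpc']
    simp only [map_mul, map_sub, Complex.conj_I, Complex.conj_conj, map_ofNat]
    push_cast
    field_simp
    linear_combination (-(s2 : ℂ) * (ε : ℂ) * (starRingEnd ℂ) β * ν) * Complex.I_sq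
  rw [ea, eb, Complex.re_ofReal_mul, Complex.re_ofReal_mul, Complex.conj_re]
  have ec : ((Real.sqrt 3 / 2 : ℂ) * (ε : ℂ) *
      (((s2 / (2 * (n : ℝ) + 1) - s1 / (2 * (n : ℝ) + 3) : ℝ) : ℂ) * β -
      2 * Complex.I * ((s1 / (2 * (n : ℝ) + 3) + s2 / (2 * (n : ℝ) + 1) : ℝ) : ℂ) * γ) * (starRingEnd ℂ) ν) =
      ((s1 / (2 * (n : ℝ) + 3) * Real.sqrt 3 * ε / 2 : ℝ) : ℂ) * ((-β - 2 * Complex.I * γ) * (starRingEnd ℂ) ν)
      + ((s2 / (2 * (n : ℝ) + 1) * Real.sqrt 3 * ε / 2 : ℝ) : ℂ) *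
        ((β - 2 * Complex.I * γ) * (starRingEnd ℂ) ν) := by
    push_cast
    ring
  rw [ec, Complex.add_re, Complex.re_ofReal_mul, Complex.re_ofReal_mul]
  ring

/-- MODULE (R) -/
theorem hR : StR := by
  intro b z h
  obtain ⟨C, hC⟩ := hexQ (by norm_num : (0 : ℝ) < 2) h w1_wgt
  have b1 : BM (F1Q w1 2 b z) (2 * C) := ⟨G1_meas hC.q, G1_le hC.q⟩
  have b2 : BM (F2Q w1 2 b z) (2 * C) := ⟨G2_meas hC.q, G2_le hC.q⟩
  obtain ⟨R, hR, hs⟩ := ramp_nu h (by norm_num : (0 : ℝ) < 1 / 4)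
  refine ⟨R, hR, ?_⟩
  have h1 := nat_split1 hs
  have h2 := h1.congr_fun (fun n => (pair_term b _ _ b1 b2 h n).symm)
  have h3 := h2.tendsto_sum_nat
  have h4 := h3.const_add (Real.sqrt 3 * kD * (1 - (be b 0).re) * (nu (F1Q w1 2 b z) (F2Q w1 2 b z) 0).re)
  have e0 : ((sk (1 / 4) (2 * 0 + 1) : ℂ) * (fc (gm b) (2 * 0) / (2 * ((0 : ℤ) : ℂ) + 1))
      * (-Complex.I * (-1) ^ (0 : ℤ)) * (starRingEnd ℂ) (nu (F1Q w1 2 b z) (F2Q w1 2 b z) (2 * 0))).re =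
      Real.sqrt 3 * kD * (1 - (be b 0).re) * (nu (F1Q w1 2 b z) (F2Q w1 2 b z) 0).re := by
    have hsk : sk (1 / 4) (2 * 0 + 1) = kD := by
      unfold sk kD
      norm_num
    rw [hsk]
    rw [mul_zero, fc_gm h, if_pos rfl]
    have hb : (be b 0) = (((be b 0).re : ℝ) : ℂ) := by
      have h5 := be_neg b 0
      rw [neg_zero] at h5
      exact (Complex.conj_eq_iff_re.1 h5.symm).symm
    have hg : (ga b 0) = (((ga b 0).re : ℝ) : ℂ) := by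
      have h5 := ga_neg b 0
      rw [neg_zero] at h5
      exact (Complex.conj_eq_iff_re.1 h5.symm).symm
    have hn : (nu (F1Q w1 2 b z) (F2Q w1 2 b z) 0) = (((nu (F1Q w1 2 b z) (F2Q w1 2 b z) 0).re : ℝ) : ℂ) := by
      have h5 := nu_neg b1 b2 0
      rw [neg_zero] at h5
      exact (Complex.conj_eq_iff_re.1 h5.symm).symm
    rw [hb, hg, hn, Complex.conj_ofReal]
    simp only [Int.cast_zero, mul_zero, zero_add, div_one, zpow_zero, mul_one]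
    set x := (be b 0).re
    set y := (ga b 0).re
    set v := (nu (F1Q w1 2 b z) (F2Q w1 2 b z) 0).re
    have e : (kD : ℂ) * ((Real.sqrt 3 : ℂ) * Complex.I + -((Real.sqrt 3 : ℂ) * Complex.I) * (x : ℂ)
        + 2 * (Real.sqrt 3 : ℂ) * (y : ℂ)) * -Complex.I * (v : ℂ) =
        ((Real.sqrt 3 * kD * (1 - x) * v : ℝ) : ℂ) + ((-(2 * Real.sqrt 3 * kD * y * v) : ℝ) : ℂ) * Complex.I := by
      push_cast
      linear_combination (-(kD : ℂ) * (Real.sqrt 3 : ℂ) * (v : ℂ) * (1 - (x : ℂ))) * Complex.I_sq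
    rw [e, Complex.add_re, Complex.re_ofReal_mul, Complex.I_re, mul_zero, add_zero]
    simp only [Complex.ofReal_re]
  rw [e0] at h4
  rw [add_sub_cancel] at h4
  exact h4

end Pool.Agent.Helper51.RC
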