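import Pool.Agent.Helper44.RC.StFar

/-!
# Project RC, SHARP, far lemma: module (T), `m ≥ 4`
-/

open MeasureTheory Set Filter Topology

namespace Pool.Agent.Helper51.RC

open Helper49.LT hiding sg
open Helper44.Far

/-! ### the quadratic form -/

theorem quad_core {p q r a c ι : ℝ} (hp : 0 ≤ p) (hq : 0 ≤ q) (hr : r ^ 2 ≤ p * q)
    (hι : |ι| ≤ a * c) : 0 ≤ p * a ^ 2 + q * c ^ 2 + 2 * r * ι := by
  have h1 : |r * ι| ≤ Real.sqrt (p * q) * (a * c) := by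
    rw [abs_mul]
    exact mul_le_mul (Real.abs_le_sqrt hr) hι (abs_nonneg _) (Real.sqrt_nonneg _)
  have h2 : Real.sqrt (p * q) = Real.sqrt p * Real.sqrt q := Real.sqrt_mul hp q
  have h3 := Real.sq_sqrt hp
  have h4 := Real.sq_sqrt hq
  have h5 := abs_le.1 h1
  rw [h2] at h5
  nlinarith [sq_nonneg (Real.sqrt p * a - Real.sqrt q * c)]

theorem norm_form (X Y : ℝ) (β γ : ℂ) :
    ‖(X : ℂ) * β + Complex.I * (Y : ℂ) * γ‖ ^ 2 =
      X ^ 2 * ‖β‖ ^ 2 + Y ^ 2 * ‖γ‖ ^ 2 + 2 * (X * Y) * (β * (starRingEnd ℂ) γ).im := by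
  rw [← Complex.normSq_eq_norm_sq, ← Complex.normSq_eq_norm_sq, ← Complex.normSq_eq_norm_sq]
  simp only [Complex.normSq_apply, Complex.add_re, Complex.add_im, Complex.mul_re, Complex.mul_im,
    Complex.ofReal_re, Complex.ofReal_im, Complex.I_re, Complex.I_im, Complex.conj_re, Complex.conj_im]
  ring

theorem im_bd (β γ : ℂ) : |(β * (starRingEnd ℂ) γ).im| ≤ ‖β‖ * ‖γ‖ := by
  refine (Complex.abs_im_le_norm _).trans (le_of_eq ?_)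
  rw [norm_mul, Complex.norm_conj]

/-- the precise criterion -/
theorem crit {M m X Y : ℝ} (hM : 0 < M) (hp : 0 ≤ 82 / 5 * M - 2 - 2 * X ^ 2) (hq : 0 ≤ 82 / 5 * M - 1 / 2 - 2 * Y ^ 2)
    (hr : (m - 2 * (X * Y)) ^ 2 ≤ (82 / 5 * M - 2 - 2 * X ^ 2) * (82 / 5 * M - 1 / 2 - 2 * Y ^ 2)) (β γ : ℂ) :
    2 * M * ‖((X / M : ℝ) : ℂ) * β + Complex.I * ((Y / M : ℝ) : ℂ) * γ‖ ^ 2 ≤
      82 / 5 * (‖β‖ ^ 2 + ‖γ‖ ^ 2) + (-2 * (‖β‖ ^ 2 + ‖γ‖ ^ 2 / 4) + 2 * m * (β * (starRingEnd ℂ) γ).im) / M := by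
  have h := quad_core hp hq hr (im_bd β γ)
  rw [norm_form]
  set a := ‖β‖
  set c := ‖γ‖
  set ι := (β * (starRingEnd ℂ) γ).im
  have e : 82 / 5 * (a ^ 2 + c ^ 2) + (-2 * (a ^ 2 + c ^ 2 / 4) + 2 * m * ι) / M
      - 2 * M * ((X / M) ^ 2 * a ^ 2 + (Y / M) ^ 2 * c ^ 2 + 2 * (X / M * (Y / M)) * ι) =
      ((82 / 5 * M - 2 - 2 * X ^ 2) * a ^ 2 + (82 / 5 * M - 1 / 2 - 2 * Y ^ 2) * c ^ 2
        + 2 * (m - 2 * (X * Y)) * ι) / M := by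
    field_simp
    ring
  have h2 : 0 ≤ ((82 / 5 * M - 2 - 2 * X ^ 2) * a ^ 2 + (82 / 5 * M - 1 / 2 - 2 * Y ^ 2) * c ^ 2
        + 2 * (m - 2 * (X * Y)) * ι) / M := div_nonneg h hM.le
  linarith

/-- the crude criterion -/
theorem crit2 {M m X Y : ℝ} (hM : 0 < M) (hm : 0 ≤ m) (h : 2 * (X ^ 2 + Y ^ 2) + (m + 2) ≤ 82 / 5 * M) (β γ : ℂ) :
    2 * M * ‖((X / M : ℝ) : ℂ) * β + Complex.I * ((Y / M : ℝ) : ℂ) * γ‖ ^ 2 ≤
      82 / 5 * (‖β‖ ^ 2 + ‖γ‖ ^ 2) + (-2 * (‖β‖ ^ 2 + ‖γ‖ ^ 2 / 4) + 2 * m * (β * (starRingEnd ℂ) γ).im) / M := by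
  refine crit hM (by nlinarith [sq_nonneg X, sq_nonneg Y]) (by nlinarith [sq_nonneg X, sq_nonneg Y]) ?_ β γ
  have h1 : 2 * Y ^ 2 + m ≤ 82 / 5 * M - 2 - 2 * X ^ 2 := by linarith
  have h2 : 2 * X ^ 2 + m ≤ 82 / 5 * M - 1 / 2 - 2 * Y ^ 2 := by linarith
  have h3 : (2 * Y ^ 2 + m) * (2 * X ^ 2 + m) ≤
      (82 / 5 * M - 2 - 2 * X ^ 2) * (82 / 5 * M - 1 / 2 - 2 * Y ^ 2) :=
    mul_le_mul h1 h2 (by positivity) (by linarith [sq_nonneg Y])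
  refine le_trans ?_ h3
  nlinarith [mul_nonneg hm (sq_nonneg (X + Y))]

/-! ### the aligned moments -/

theorem ee_sh (x : ℝ) (k : ℤ) : ee (x + (k : ℝ) * (2 * Real.pi)) = ee x := by
  rw [ee_add, ee_int_mul, ee_two_pi, one_zpow, mul_one]

theorem cos23 : Real.cos (2 * Real.pi / 3) = -(1 / 2) := by
  have : 2 * Real.pi / 3 = Real.pi - Real.pi / 3 := by ring
  rw [this, Real.cos_pi_sub, Real.cos_pi_div_three]

theorem sin23 : Real.sin (2 * Real.pi / 3) = Real.sqrt 3 / 2 := by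
  have : 2 * Real.pi / 3 = Real.pi - Real.pi / 3 := by ring
  rw [this, Real.sin_pi_sub, Real.sin_pi_div_three]

theorem ee23 : ee (2 * Real.pi / 3) = -(1 / 2 : ℂ) + (Real.sqrt 3 / 2 : ℂ) * Complex.I := by
  rw [ee_eq, cos23, sin23]
  push_cast
  ring

theorem ee23m : ee (-(2 * Real.pi / 3)) = -(1 / 2 : ℂ) - (Real.sqrt 3 / 2 : ℂ) * Complex.I := by
  rw [ee_eq, Real.cos_neg, Real.sin_neg, cos23, sin23]
  push_cast
  ring

theorem s3sq : (Real.sqrt 3 : ℂ) ^ 2 = 3 := by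
  rw [← Complex.ofReal_pow, Real.sq_sqrt (by norm_num)]
  norm_num

theorem ebar0 (k : ℕ) (β γ : ℂ) : ebar (3 * k) β γ =
    (((1 + 3 * (2 * ((3 * k : ℕ) + 1))) / 2 : ℝ) : ℂ) * β
      + Complex.I * ((-(15 + 11 * (2 * ((3 * k : ℕ) + 1))) / 8 : ℝ) : ℂ) * γ := by
  unfold ebar
  have e1 : -(2 * (((3 * k : ℕ) : ℝ) + 1)) * (Real.pi / 3) = -(2 * Real.pi / 3) + ((-(k : ℤ) : ℤ) : ℝ) * (2 * Real.pi) := by
    push_cast; ring
  have e2 : -(2 * (((3 * k : ℕ) : ℝ) + 1)) * (2 * Real.pi / 3) =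
      2 * Real.pi / 3 + ((-(2 * (k : ℤ) + 1) : ℤ) : ℝ) * (2 * Real.pi) := by
    push_cast; ring
  rw [e1, e2, ee_sh, ee_sh, ee23, ee23m]
  push_cast
  have h3 := s3sq
  have hI := Complex.I_sq
  linear_combination (-(5 / 8) * Complex.I * γ - (3 * (k : ℂ) + 1) * β * Complex.I ^ 2) * h3
    - 3 * (3 * (k : ℂ) + 1) * β * hI

theorem ebar1 (k : ℕ) (β γ : ℂ) : ebar (3 * k + 1) β γ =
    (((1 - 3 * (2 * ((3 * k + 1 : ℕ) + 1))) / 2 : ℝ) : ℂ) * β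
      + Complex.I * (((15 - 11 * (2 * ((3 * k + 1 : ℕ) + 1))) / 8 : ℝ) : ℂ) * γ := by
  unfold ebar
  have e1 : -(2 * (((3 * k + 1 : ℕ) : ℝ) + 1)) * (Real.pi / 3) =
      2 * Real.pi / 3 + ((-((k : ℤ) + 1) : ℤ) : ℝ) * (2 * Real.pi) := by
    push_cast; ring
  have e2 : -(2 * (((3 * k + 1 : ℕ) : ℝ) + 1)) * (2 * Real.pi / 3) =
      -(2 * Real.pi / 3) + ((-(2 * (k : ℤ) + 1) : ℤ) : ℝ) * (2 * Real.pi) := by
    push_cast; ring
  rw [e1, e2, ee_sh, ee_sh, ee23, ee23m]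
  push_cast
  have h3 := s3sq
  have hI := Complex.I_sq
  linear_combination ((5 / 8) * Complex.I * γ + (3 * (k : ℂ) + 2) * β * Complex.I ^ 2) * h3
    + 3 * (3 * (k : ℂ) + 2) * β * hI

theorem ebar2 (k : ℕ) (β γ : ℂ) : ebar (3 * k + 2) β γ =
    ((-1 : ℝ) : ℂ) * β + Complex.I * (((11 * (2 * ((3 * k + 2 : ℕ) + 1))) / 4 : ℝ) : ℂ) * γ := by
  unfold ebar
  have e1 : -(2 * (((3 * k + 2 : ℕ) : ℝ) + 1)) * (Real.pi / 3) =
      0 + ((-((k : ℤ) + 1) : ℤ) : ℝ) * (2 * Real.pi) := by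
    push_cast; ring
  have e2 : -(2 * (((3 * k + 2 : ℕ) : ℝ) + 1)) * (2 * Real.pi / 3) =
      0 + ((-(2 * (k : ℤ) + 2) : ℤ) : ℝ) * (2 * Real.pi) := by
    push_cast; ring
  rw [e1, e2, ee_sh, ee_sh, ee_zero]
  push_cast
  ring

theorem MM_pos (n : ℕ) : 0 < MM n := by
  unfold MM
  have : (0 : ℝ) ≤ n := Nat.cast_nonneg n
  nlinarith

/-- the form of `XX` -/
theorem XX_form (n : ℕ) (β γ : ℂ) (ex ey : ℝ) (he : ebar n β γ = (ex : ℂ) * β + Complex.I * (ey : ℂ) * γ) :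
    XX n β γ = (((-2 - ex / 4 + Real.sqrt 3 / 2 * (-1) ^ (n + 1) * ((RD n - PD n) * MM n)) / MM n : ℝ) : ℂ) * β
      + Complex.I * (((2 * ((n : ℝ) + 1) - ey / 4 - Real.sqrt 3 * (-1) ^ (n + 1) * ((PD n + RD n) * MM n)) / MM n
        : ℝ) : ℂ) * γ := by
  have hM : (MM n : ℂ) ≠ 0 := by exact_mod_cast (MM_pos n).ne'
  unfold XX XC XR
  rw [he]
  push_cast
  field_simp
  ring

/-- the criterion for one frequency -/
theorem T4_of {n : ℕ} {β γ : ℂ} {ex ey : ℝ} (he : ebar n β γ = (ex : ℂ) * β + Complex.I * (ey : ℂ) * γ)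
    (h : 2 * ((-2 - ex / 4 + Real.sqrt 3 / 2 * (-1) ^ (n + 1) * ((RD n - PD n) * MM n)) ^ 2
      + (2 * ((n : ℝ) + 1) - ey / 4 - Real.sqrt 3 * (-1) ^ (n + 1) * ((PD n + RD n) * MM n)) ^ 2)
      + (2 * ((n : ℝ) + 1) + 2) ≤ 82 / 5 * MM n) :
    2 * MM n * ‖XX n β γ‖ ^ 2 ≤ 82 / 5 * (‖β‖ ^ 2 + ‖γ‖ ^ 2) + cA n β γ := by
  rw [XX_form n β γ ex ey he]
  exact crit2 (MM_pos n) (by positivity) h β γ

theorem s3lo : (1732 / 1000 : ℝ) ≤ Real.sqrt 3 := Real.le_sqrt_of_sq_le (by norm_num)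
theorem s3hi : Real.sqrt 3 ≤ 17321 / 10000 := by
  rw [Real.sqrt_le_left (by norm_num)]
  norm_num

theorem sin_nn {x : ℝ} (h0 : 0 ≤ x) (h3 : x ≤ 3) : 0 ≤ Real.sin x :=
  Real.sin_nonneg_of_nonneg_of_le_pi h0 (h3.trans Real.pi_gt_three.le)

theorem T4_1 (β γ : ℂ) : 2 * MM 1 * ‖XX 1 β γ‖ ^ 2 ≤ 82 / 5 * (‖β‖ ^ 2 + ‖γ‖ ^ 2) + cA 1 β γ := by
  have he : ebar 1 β γ = ((-11 / 2 : ℝ) : ℂ) * β + Complex.I * ((-29 / 8 : ℝ) : ℂ) * γ :=
    (ebar1 0 β γ).trans (by norm_num)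
  refine T4_of he ?_
  have hM : MM 1 = 15 := by unfold MM; norm_num
  have hP : PD 1 = 4 / 25 * Real.sin (5 / 4) := by unfold PD; norm_num; ring
  have hR : RD 1 = 4 / 9 * Real.sin (3 / 4) := by unfold RD; norm_num; ring
  have s0 := s3lo
  have s1 := s3hi
  have p0 := sin_nn (x := 5 / 4) (by norm_num) (by norm_num)
  have p1 := Real.sin_le_one (5 / 4)
  have r0 := sin_nn (x := 3 / 4) (by norm_num) (by norm_num)
  have r1 : Real.sin (3 / 4) ≤ 3 / 4 := Real.sin_le (by norm_num)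
  rw [hM, hP, hR]
  set s := Real.sqrt 3
  set p := Real.sin (5 / 4)
  set r := Real.sin (3 / 4)
  have u0 : 0 ≤ s * p := mul_nonneg (by linarith) p0
  have u1 : s * p ≤ 17321 / 10000 * 1 := mul_le_mul s1 p1 p0 (by norm_num)
  have v0 : 0 ≤ s * r := mul_nonneg (by linarith) r0
  have v1 : s * r ≤ 17321 / 10000 * (3 / 4) := mul_le_mul s1 r1 r0 (by norm_num)
  have eX : (-2 - (-11 / 2 : ℝ) / 4 + s / 2 * (-1) ^ (1 + 1) * ((4 / 9 * r - 4 / 25 * p) * 15)) =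
      -5 / 8 + 10 / 3 * (s * r) - 6 / 5 * (s * p) := by ring
  have eY : (2 * (((1 : ℕ) : ℝ) + 1) - (-29 / 8 : ℝ) / 4 - s * (-1) ^ (1 + 1) * ((4 / 25 * p + 4 / 9 * r) * 15)) =
      157 / 32 - 12 / 5 * (s * p) - 20 / 3 * (s * r) := by push_cast; ring
  rw [eX, eY]
  have hX : (-5 / 8 + 10 / 3 * (s * r) - 6 / 5 * (s * p)) ^ 2 ≤ 4 ^ 2 :=
    sq_le_sq' (by linarith) (by linarith)
  have hY : (157 / 32 - 12 / 5 * (s * p) - 20 / 3 * (s * r)) ^ 2 ≤ 8 ^ 2 :=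
    sq_le_sq' (by linarith) (by linarith)
  push_cast
  linarith

theorem T4_3 (β γ : ℂ) : 2 * MM 3 * ‖XX 3 β γ‖ ^ 2 ≤ 82 / 5 * (‖β‖ ^ 2 + ‖γ‖ ^ 2) + cA 3 β γ := by
  have he : ebar 3 β γ = ((25 / 2 : ℝ) : ℂ) * β + Complex.I * ((-103 / 8 : ℝ) : ℂ) * γ :=
    (ebar0 1 β γ).trans (by norm_num)
  refine T4_of he ?_
  have hM : MM 3 = 63 := by unfold MM; norm_num
  have hP : PD 3 = 4 / 81 * Real.sin (9 / 4) := by unfold PD; norm_num; ring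
  have hR : RD 3 = 4 / 49 * Real.sin (7 / 4) := by unfold RD; norm_num; ring
  have s0 := s3lo
  have s1 := s3hi
  have p0 := sin_nn (x := 9 / 4) (by norm_num) (by norm_num)
  have p1 := Real.sin_le_one (9 / 4)
  have r0 := sin_nn (x := 7 / 4) (by norm_num) (by norm_num)
  have r1 := Real.sin_le_one (7 / 4)
  rw [hM, hP, hR]
  set s := Real.sqrt 3
  set p := Real.sin (9 / 4)
  set r := Real.sin (7 / 4)
  have u0 : 0 ≤ s * p := mul_nonneg (by linarith) p0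
  have u1 : s * p ≤ 17321 / 10000 * 1 := mul_le_mul s1 p1 p0 (by norm_num)
  have v0 : 0 ≤ s * r := mul_nonneg (by linarith) r0
  have v1 : s * r ≤ 17321 / 10000 * 1 := mul_le_mul s1 r1 r0 (by norm_num)
  have eX : (-2 - (25 / 2 : ℝ) / 4 + s / 2 * (-1) ^ (3 + 1) * ((4 / 49 * r - 4 / 81 * p) * 63)) =
      -41 / 8 + 18 / 7 * (s * r) - 14 / 9 * (s * p) := by ring
  have eY : (2 * (((3 : ℕ) : ℝ) + 1) - (-103 / 8 : ℝ) / 4 - s * (-1) ^ (3 + 1) * ((4 / 81 * p + 4 / 49 * r) * 63)) =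
      359 / 32 - 28 / 9 * (s * p) - 36 / 7 * (s * r) := by push_cast; ring
  rw [eX, eY]
  have hX : (-41 / 8 + 18 / 7 * (s * r) - 14 / 9 * (s * p)) ^ 2 ≤ 8 ^ 2 :=
    sq_le_sq' (by linarith) (by linarith)
  have hY : (359 / 32 - 28 / 9 * (s * p) - 36 / 7 * (s * r)) ^ 2 ≤ 12 ^ 2 :=
    sq_le_sq' (by linarith) (by linarith)
  push_cast
  linarith

theorem T4_4 (β γ : ℂ) : 2 * MM 4 * ‖XX 4 β γ‖ ^ 2 ≤ 82 / 5 * (‖β‖ ^ 2 + ‖γ‖ ^ 2) + cA 4 β γ := by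
  have he : ebar 4 β γ = ((-29 / 2 : ℝ) : ℂ) * β + Complex.I * ((-95 / 8 : ℝ) : ℂ) * γ :=
    (ebar1 1 β γ).trans (by norm_num)
  refine T4_of he ?_
  have hM : MM 4 = 99 := by unfold MM; norm_num
  have hP : PD 4 = 4 / 121 * Real.sin (11 / 4) := by unfold PD; norm_num; ring
  have hR : RD 4 = 4 / 81 * Real.sin (9 / 4) := by unfold RD; norm_num; ring
  have s0 := s3lo
  have s1 := s3hi
  have p0 := sin_nn (x := 11 / 4) (by norm_num) (by norm_num)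
  have p1 := Real.sin_le_one (11 / 4)
  have r0 := sin_nn (x := 9 / 4) (by norm_num) (by norm_num)
  have r1 := Real.sin_le_one (9 / 4)
  rw [hM, hP, hR]
  set s := Real.sqrt 3
  set p := Real.sin (11 / 4)
  set r := Real.sin (9 / 4)
  have u0 : 0 ≤ s * p := mul_nonneg (by linarith) p0
  have u1 : s * p ≤ 17321 / 10000 * 1 := mul_le_mul s1 p1 p0 (by norm_num)
  have v0 : 0 ≤ s * r := mul_nonneg (by linarith) r0
  have v1 : s * r ≤ 17321 / 10000 * 1 := mul_le_mul s1 r1 r0 (by norm_num)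
  have eX : (-2 - (-29 / 2 : ℝ) / 4 + s / 2 * (-1) ^ (4 + 1) * ((4 / 81 * r - 4 / 121 * p) * 99)) =
      13 / 8 - 22 / 9 * (s * r) + 18 / 11 * (s * p) := by ring
  have eY : (2 * (((4 : ℕ) : ℝ) + 1) - (-95 / 8 : ℝ) / 4 - s * (-1) ^ (4 + 1) * ((4 / 121 * p + 4 / 81 * r) * 99)) =
      415 / 32 + 36 / 11 * (s * p) + 44 / 9 * (s * r) := by push_cast; ring
  rw [eX, eY]
  have hX : (13 / 8 - 22 / 9 * (s * r) + 18 / 11 * (s * p)) ^ 2 ≤ 5 ^ 2 :=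
    sq_le_sq' (by linarith) (by linarith)
  have hY : (415 / 32 + 36 / 11 * (s * p) + 44 / 9 * (s * r)) ^ 2 ≤ (2711 / 100) ^ 2 :=
    sq_le_sq' (by linarith) (by linarith)
  push_cast
  linarith

theorem sin54 : Real.sin (5 / 4) ≤ 95 / 100 := by
  have h := Real.cos_pi_div_two_sub (5 / 4)
  rw [← h]
  have p1 := Real.pi_gt_d6
  have p2 := Real.pi_lt_d6
  set y := Real.pi / 2 - 5 / 4 with hy
  have y0 : 3207 / 10000 ≤ y := by rw [hy]; linarith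
  have y1 : y ≤ 321 / 1000 := by rw [hy]; linarith
  have hb := Real.cos_bound (x := y) (by rw [abs_of_nonneg (by linarith)]; linarith)
  have h1 := (abs_le.1 hb).2
  rw [abs_of_nonneg (by linarith : (0 : ℝ) ≤ y)] at h1
  have h2 : y ^ 4 ≤ (321 / 1000) ^ 4 := pow_le_pow_left₀ (by linarith) y1 4
  have h3 : (3207 / 10000) ^ 2 ≤ y ^ 2 := pow_le_pow_left₀ (by norm_num) y0 2
  nlinarith

theorem sin74 : 9 / 10 ≤ Real.sin (7 / 4) := by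
  have h := Real.cos_pi_div_two_sub (7 / 4)
  rw [← h]
  have p1 := Real.pi_gt_d6
  have p2 := Real.pi_lt_d6
  have h1 := Real.one_sub_sq_div_two_le_cos (x := Real.pi / 2 - 7 / 4)
  have h2 : (Real.pi / 2 - 7 / 4) ^ 2 ≤ (1 / 5) ^ 2 := sq_le_sq' (by linarith) (by linarith)
  linarith

theorem T4_2 (β γ : ℂ) : 2 * MM 2 * ‖XX 2 β γ‖ ^ 2 ≤ 82 / 5 * (‖β‖ ^ 2 + ‖γ‖ ^ 2) + cA 2 β γ := by
  have he : ebar 2 β γ = ((-1 : ℝ) : ℂ) * β + Complex.I * ((33 / 2 : ℝ) : ℂ) * γ :=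
    (ebar2 0 β γ).trans (by norm_num)
  rw [XX_form 2 β γ _ _ he]
  have hM : MM 2 = 35 := by unfold MM; norm_num
  have hP : PD 2 = 4 / 49 * Real.sin (7 / 4) := by unfold PD; norm_num; ring
  have hR : RD 2 = 4 / 25 * Real.sin (5 / 4) := by unfold RD; norm_num; ring
  have s0 := s3lo
  have s1 := s3hi
  have p0 := sin74
  have p1 := Real.sin_le_one (7 / 4)
  have r0 := sin_nn (x := 5 / 4) (by norm_num) (by norm_num)
  have r1 := sin54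
  have eX : (-2 - (-1 : ℝ) / 4 + Real.sqrt 3 / 2 * (-1) ^ (2 + 1) * ((RD 2 - PD 2) * MM 2)) =
      -7 / 4 - 14 / 5 * (Real.sqrt 3 * Real.sin (5 / 4)) + 10 / 7 * (Real.sqrt 3 * Real.sin (7 / 4)) := by
    rw [hM, hP, hR]; ring
  have eY : (2 * (((2 : ℕ) : ℝ) + 1) - (33 / 2 : ℝ) / 4 - Real.sqrt 3 * (-1) ^ (2 + 1) * ((PD 2 + RD 2) * MM 2)) =
      15 / 8 + 20 / 7 * (Real.sqrt 3 * Real.sin (7 / 4)) + 28 / 5 * (Real.sqrt 3 * Real.sin (5 / 4)) := by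
    rw [hM, hP, hR]; push_cast; ring
  rw [eX, eY]
  set s := Real.sqrt 3
  set p := Real.sin (7 / 4)
  set r := Real.sin (5 / 4)
  have u0 : 1732 / 1000 * (9 / 10) ≤ s * p := mul_le_mul s0 p0 (by norm_num) (by linarith)
  have u1 : s * p ≤ 17321 / 10000 * 1 := mul_le_mul s1 p1 (by linarith) (by norm_num)
  have v0 : 0 ≤ s * r := mul_nonneg (by linarith) r0
  have v1 : s * r ≤ 17321 / 10000 * (95 / 100) := mul_le_mul s1 r1 r0 (by norm_num)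
  have x0 : -(414 / 100) ≤ -7 / 4 - 14 / 5 * (s * r) + 10 / 7 * (s * p) := by linarith
  have x1 : -7 / 4 - 14 / 5 * (s * r) + 10 / 7 * (s * p) ≤ 414 / 100 := by linarith
  have y0 : 0 ≤ 15 / 8 + 20 / 7 * (s * p) + 28 / 5 * (s * r) := by linarith
  have y1 : 15 / 8 + 20 / 7 * (s * p) + 28 / 5 * (s * r) ≤ 1605 / 100 := by linarith
  set X := -7 / 4 - 14 / 5 * (s * r) + 10 / 7 * (s * p)
  set Y := 15 / 8 + 20 / 7 * (s * p) + 28 / 5 * (s * r)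
  have hX : X ^ 2 ≤ (414 / 100) ^ 2 := sq_le_sq' x0 x1
  have hY : Y ^ 2 ≤ (1605 / 100) ^ 2 := sq_le_sq' (by linarith) y1
  have hXY : |X * Y| ≤ 414 / 100 * (1605 / 100) := by
    rw [abs_mul]
    exact mul_le_mul (abs_le.2 ⟨x0, x1⟩) (abs_le.2 ⟨by linarith, y1⟩) (abs_nonneg _) (by norm_num)
  have h1 := abs_le.1 hXY
  have h2 : (2 * (((2 : ℕ) : ℝ) + 1) - 2 * (X * Y)) ^ 2 ≤ 139 ^ 2 := by
    refine sq_le_sq' ?_ ?_
    · push_cast; linarith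
    · push_cast; linarith
  have h3 : (537 : ℝ) * 58 ≤ (82 / 5 * 35 - 2 - 2 * X ^ 2) * (82 / 5 * 35 - 1 / 2 - 2 * Y ^ 2) :=
    mul_le_mul (by linarith) (by linarith) (by norm_num) (by linarith)
  refine crit (M := MM 2) (m := 2 * (((2 : ℕ) : ℝ) + 1)) (MM_pos 2) ?_ ?_ ?_ β γ
  · rw [hM]; linarith
  · rw [hM]; linarith
  · rw [hM]; linarith

/-- the tail -/
theorem T4_tail {n : ℕ} (hn : 5 ≤ n) {β γ : ℂ} {ex ey : ℝ}
    (he : ebar n β γ = (ex : ℂ) * β + Complex.I * (ey : ℂ) * γ)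
    (h1 : |-2 - ex / 4| ≤ 2 + (1 + 3 * (2 * ((n : ℝ) + 1))) / 8)
    (h2 : |2 * ((n : ℝ) + 1) - ey / 4| ≤ 2 * ((n : ℝ) + 1) + (15 + 11 * (2 * ((n : ℝ) + 1))) / 32) :
    2 * MM n * ‖XX n β γ‖ ^ 2 ≤ 82 / 5 * (‖β‖ ^ 2 + ‖γ‖ ^ 2) + cA n β γ := by
  refine T4_of he ?_
  have hn' : (5 : ℝ) ≤ n := by exact_mod_cast hn
  have hx : MM n = (2 * ((n : ℝ) + 1) - 1) * (2 * ((n : ℝ) + 1) + 1) := by unfold MM; ring
  have eP : PD n * MM n = 4 * (2 * ((n : ℝ) + 1) - 1) / (2 * ((n : ℝ) + 1) + 1) * Real.sin ((2 * (n : ℝ) + 3) / 4) := by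
    rw [hx]
    unfold PD
    have : (2 * (n : ℝ) + 3) = 2 * ((n : ℝ) + 1) + 1 := by ring
    rw [this]
    have : 2 * ((n : ℝ) + 1) + 1 ≠ 0 := by positivity
    field_simp
  have eR : RD n * MM n = 4 * (2 * ((n : ℝ) + 1) + 1) / (2 * ((n : ℝ) + 1) - 1) * Real.sin ((2 * (n : ℝ) + 1) / 4) := by
    rw [hx]
    unfold RD
    have : (2 * (n : ℝ) + 1) = 2 * ((n : ℝ) + 1) - 1 := by ring
    rw [this]
    have : 2 * ((n : ℝ) + 1) - 1 ≠ 0 := by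
      have : 0 < 2 * ((n : ℝ) + 1) - 1 := by linarith
      exact this.ne'
    field_simp
  set x := 2 * ((n : ℝ) + 1) with hxd
  have x12 : 12 ≤ x := by rw [hxd]; linarith
  have hMx : MM n = x ^ 2 - 1 := by rw [hx]; ring
  have aP : |PD n * MM n| ≤ 4 * (x - 1) / (x + 1) := by
    rw [eP, abs_mul, abs_of_nonneg (div_nonneg (by linarith) (by linarith) : 0 ≤ 4 * (x - 1) / (x + 1))]
    exact mul_le_of_le_one_right (div_nonneg (by linarith) (by linarith)) (Real.abs_sin_le_one _)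
  have aR : |RD n * MM n| ≤ 4 * (x + 1) / (x - 1) := by
    rw [eR, abs_mul, abs_of_nonneg (div_nonneg (by linarith) (by linarith) : 0 ≤ 4 * (x + 1) / (x - 1))]
    exact mul_le_of_le_one_right (div_nonneg (by linarith) (by linarith)) (Real.abs_sin_le_one _)
  have hs : 4 * (x - 1) / (x + 1) + 4 * (x + 1) / (x - 1) ≤ 812 / 100 := by
    have q1 : 0 < x + 1 := by linarith
    have q2 : 0 < x - 1 := by linarith
    rw [div_add_div _ _ q1.ne' q2.ne', div_le_iff₀ (mul_pos q1 q2)]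
    nlinarith
  have s0 := s3lo
  have s1 := s3hi
  have bm := abs_le.1 aP
  have br := abs_le.1 aR
  set a := PD n * MM n
  set c := RD n * MM n
  set s := Real.sqrt 3
  have hε : |(-1 : ℝ) ^ (n + 1)| = 1 := by rw [abs_pow, abs_neg, abs_one, one_pow]
  have hX : |-2 - ex / 4 + s / 2 * (-1) ^ (n + 1) * ((RD n - PD n) * MM n)| ≤
      2 + (1 + 3 * x) / 8 + 7033 / 1000 := by
    have e1 : (RD n - PD n) * MM n = c - a := by ring
    rw [e1]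
    refine (abs_add_le _ _).trans (add_le_add h1 ?_)
    rw [abs_mul, abs_mul, hε, mul_one, abs_of_nonneg (by linarith : 0 ≤ s / 2)]
    have h3 : |c - a| ≤ 812 / 100 := abs_le.2 ⟨by linarith, by linarith⟩
    calc s / 2 * |c - a| ≤ 17321 / 10000 / 2 * (812 / 100) :=
          mul_le_mul (by linarith) h3 (abs_nonneg _) (by norm_num)
      _ ≤ 7033 / 1000 := by norm_num
  have hY : |x - ey / 4 - s * (-1) ^ (n + 1) * ((PD n + RD n) * MM n)| ≤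
      x + (15 + 11 * x) / 32 + 14066 / 1000 := by
    have e1 : (PD n + RD n) * MM n = a + c := by ring
    rw [e1]
    refine (abs_sub _ _).trans (add_le_add h2 ?_)
    rw [abs_mul, abs_mul, hε, mul_one, abs_of_nonneg (by linarith : 0 ≤ s)]
    have h3 : |a + c| ≤ 812 / 100 := abs_le.2 ⟨by linarith, by linarith⟩
    calc s * |a + c| ≤ 17321 / 10000 * (812 / 100) :=
          mul_le_mul s1 h3 (abs_nonneg _) (by norm_num)
      _ ≤ 14066 / 1000 := by norm_num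
  have hX2 := sq_le_sq' (abs_le.1 hX).1 (abs_le.1 hX).2
  have hY2 := sq_le_sq' (abs_le.1 hY).1 (abs_le.1 hY).2
  have hpoly : 2 * ((2 + (1 + 3 * x) / 8 + 7033 / 1000) ^ 2 + (x + (15 + 11 * x) / 32 + 14066 / 1000) ^ 2)
      + (x + 2) ≤ 82 / 5 * (x ^ 2 - 1) := by
    nlinarith [mul_nonneg (by linarith : 0 ≤ x - 12) (by linarith : 0 ≤ x - 12)]
  have hM2 : 82 / 5 * MM n = 82 / 5 * (x ^ 2 - 1) := by rw [hMx]
  rw [hM2]
  linarith

/-- MODULE (T), `m ≥ 4` -/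
theorem hT4 : StT4 := by
  intro n β γ hn
  rcases Nat.lt_or_ge n 5 with h5 | h5
  · interval_cases n
    · exact T4_1 β γ
    · exact T4_2 β γ
    · exact T4_3 β γ
    · exact T4_4 β γ
  · obtain ⟨k, hk | hk | hk⟩ : ∃ k, n = 3 * k ∨ n = 3 * k + 1 ∨ n = 3 * k + 2 := ⟨n / 3, by omega⟩
    · subst hk
      have h0 : (5 : ℝ) ≤ ((3 * k : ℕ) : ℝ) := by exact_mod_cast h5
      refine T4_tail h5 (ebar0 k β γ) ?_ ?_
      · rw [abs_le]; constructor <;> linarith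
      · rw [abs_le]; constructor <;> linarith
    · subst hk
      have h0 : (5 : ℝ) ≤ ((3 * k + 1 : ℕ) : ℝ) := by exact_mod_cast h5
      refine T4_tail h5 (ebar1 k β γ) ?_ ?_
      · rw [abs_le]; constructor <;> linarith
      · rw [abs_le]; constructor <;> linarith
    · subst hk
      have h0 : (5 : ℝ) ≤ ((3 * k + 2 : ℕ) : ℝ) := by exact_mod_cast h5
      refine T4_tail h5 (ebar2 k β γ) ?_ ?_
      · rw [abs_le]; constructor <;> linarith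
      · rw [abs_le]; constructor <;> linarith

end Pool.Agent.Helper51.RC
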