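import Pool.Agent.Helper44.RC.M_FARS
import Pool.Agent.Helper51.RC.M_FR
import Pool.Agent.Helper51.RC.M_FT

/-!
# Project RC, SHARP: the far lemma
-/

namespace Pool.Agent.Helper51.RC

/-- THE FAR PART of the skeleton -/
theorem farS : Helper49.Sharp.StFarS := Helper44.Far.hFARS hR hT4

end Pool.Agent.Helper51.RC
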