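import Pool.Agent.Helper49.RC.Comb4
import Pool.Agent.Helper20.RC.Link1w

/-!
# Project RC, SHARP: means of the monomials of `q = a + c`, `a = A e^{-3it}`, `c = C e^{-5it}`
-/

open MeasureTheory Set Filter Metric

namespace Pool.Agent.Helper51.RC

open Helper49.LT (ee norm_ee ee_add ee_neg)
open Helper44.GQ Helper49.Sharp
open Helper56.RC (fc)
open Helper87.RC (BM BM.eec BM.cmul fc_cmul fc_eq)
open Pool.Agent.Helper20.RC (fc_eek)

theorem ee_powN (x : ℝ) (n : ℕ) : ee x ^ n = ee ((n : ℝ) * x) := by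
  unfold ee
  rw [← Complex.exp_nat_mul]
  congr 1
  push_cast
  ring

theorem mean_fc0 {f : ℝ → ℂ} {C : ℝ} (h : BM f C) : mean (fun t => (f t).re) = (fc f 0).re := by
  rw [← mean_re h, fc_eq]
  congr 3
  funext t
  simp [ee]

/-- coefficient of a monomial -/
noncomputable def mc (A C : ℂ) (p : ℝ × ℕ × ℕ × ℕ × ℕ) : ℂ :=
  (p.1 : ℂ) * (A ^ p.2.1 * C ^ p.2.2.1 * (starRingEnd ℂ) A ^ p.2.2.2.1 * (starRingEnd ℂ) C ^ p.2.2.2.2)

/-- frequency of a monomial -/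
def mf (p : ℝ × ℕ × ℕ × ℕ × ℕ) : ℤ :=
  -3 * (p.2.1 : ℤ) - 5 * (p.2.2.1 : ℤ) + 3 * (p.2.2.2.1 : ℤ) + 5 * (p.2.2.2.2 : ℤ)

/-- sum of monomials -/
noncomputable def tq (A C : ℂ) (L : List (ℝ × ℕ × ℕ × ℕ × ℕ)) (t : ℝ) : ℝ :=
  (L.map fun p => (mc (A * ee (-3 * t)) (C * ee (-5 * t)) p).re).sum

theorem mc_eq (A C : ℂ) (p : ℝ × ℕ × ℕ × ℕ × ℕ) (t : ℝ) :
    mc (A * ee (-3 * t)) (C * ee (-5 * t)) p = mc A C p * ee ((mf p : ℝ) * t) := by
  have h3 : (starRingEnd ℂ) (ee (-3 * t)) = ee (3 * t) := by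
    rw [← ee_neg]; congr 1; ring
  have h5 : (starRingEnd ℂ) (ee (-5 * t)) = ee (5 * t) := by
    rw [← ee_neg]; congr 1; ring
  have h : ee ((mf p : ℝ) * t) = ee (-3 * t) ^ p.2.1 * ee (-5 * t) ^ p.2.2.1 * ee (3 * t) ^ p.2.2.2.1
      * ee (5 * t) ^ p.2.2.2.2 := by
    rw [ee_powN, ee_powN, ee_powN, ee_powN, ← ee_add, ← ee_add, ← ee_add]
    congr 1
    unfold mf
    push_cast
    ring
  rw [h]
  unfold mc
  rw [map_mul, map_mul, h3, h5]
  ring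

theorem tq_br (A C : ℂ) : ∀ L : List (ℝ × ℕ × ℕ × ℕ × ℕ), BR (tq A C L) := by
  intro L
  induction L with
  | nil => exact (BR.const 0)
  | cons p L ih =>
    have h : BM (fun t => mc A C p * ee ((mf p : ℝ) * t)) (‖mc A C p‖ * 1) := (BM.eec _).cmul _
    have h2 := (BR.re h).add ih
    have e : tq A C (p :: L) = fun t => (mc A C p * ee ((mf p : ℝ) * t)).re + tq A C L t := by
      funext t
      simp only [tq, List.map_cons, List.sum_cons, mc_eq]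
    rw [e]
    exact h2

theorem tq_mean (A C : ℂ) : ∀ L : List (ℝ × ℕ × ℕ × ℕ × ℕ), mean (tq A C L) =
    (L.map fun p => if mf p = 0 then (mc A C p).re else 0).sum := by
  intro L
  induction L with
  | nil => simp [tq, mean]
  | cons p L ih =>
    have h : BM (fun t => mc A C p * ee ((mf p : ℝ) * t)) (‖mc A C p‖ * 1) := (BM.eec _).cmul _
    have e : tq A C (p :: L) = fun t => (mc A C p * ee ((mf p : ℝ) * t)).re + tq A C L t := by
      funext t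
      simp only [tq, List.map_cons, List.sum_cons, mc_eq]
    rw [e, mean_add (BR.re h) (tq_br A C L), ih, mean_fc0 h, fc_cmul, fc_eek, List.map_cons, List.sum_cons]
    congr 1
    by_cases h0 : mf p = 0
    · rw [if_pos h0, if_pos h0.symm, mul_one]
    · rw [if_neg h0, if_neg (fun hh => h0 hh.symm), mul_zero, Complex.zero_re]

/-- the curve -/
noncomputable def qq (A C : ℂ) (t : ℝ) : ℂ := A * ee (-3 * t) + C * ee (-5 * t)

theorem nsq (A : ℂ) : A * (starRingEnd ℂ) A = ((‖A‖ ^ 2 : ℝ) : ℂ) := by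
  rw [Complex.mul_conj, Complex.normSq_eq_norm_sq]

theorem nsq_re (A : ℂ) : ‖A‖ ^ 2 = A.re * A.re + A.im * A.im := by
  rw [← Complex.normSq_eq_norm_sq, Complex.normSq_apply]

def LN : List (ℝ × ℕ × ℕ × ℕ × ℕ) := [(1, 1, 0, 1, 0), (1, 1, 0, 0, 1), (1, 0, 1, 1, 0), (1, 0, 1, 0, 1)]

def LR2 : List (ℝ × ℕ × ℕ × ℕ × ℕ) := [(1, 2, 0, 0, 0), (2, 1, 1, 0, 0), (1, 0, 2, 0, 0)]

def LNN : List (ℝ × ℕ × ℕ × ℕ × ℕ) := [(1, 2, 0, 2, 0), (2, 2, 0, 1, 1), (1, 2, 0, 0, 2), (2, 1, 1, 2, 0), (4, 1, 1, 1, 1), (2, 1, 1, 0,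
  2), (1, 0, 2, 2, 0), (2, 0, 2, 1, 1), (1, 0, 2, 0, 2)]

def LNR : List (ℝ × ℕ × ℕ × ℕ × ℕ) := [(1, 3, 0, 1, 0), (1, 3, 0, 0, 1), (3, 2, 1, 1, 0), (3, 2, 1, 0, 1), (3, 1, 2, 1, 0), (3, 1, 2, 0,
  1), (1, 0, 3, 1, 0), (1, 0, 3, 0, 1)]

def LR4 : List (ℝ × ℕ × ℕ × ℕ × ℕ) := [(1, 4, 0, 0, 0), (4, 3, 1, 0, 0), (6, 2, 2, 0, 0), (4, 1, 3, 0, 0), (1, 0, 4, 0, 0)]

theorem q_LN (A C : ℂ) (t : ℝ) : ‖qq A C t‖ ^ 2 = tq A C LN t := by
  have h : ‖qq A C t‖ ^ 2 = (qq A C t * (starRingEnd ℂ) (qq A C t)).re := by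
    rw [nsq, Complex.ofReal_re]
  rw [h]
  simp only [LN, tq, List.map_cons, List.map_nil, List.sum_cons, List.sum_nil, mc, qq, map_add, add_zero,
    ← Complex.add_re]
  congr 1
  push_cast
  ring

theorem q_LR2 (A C : ℂ) (t : ℝ) : (qq A C t ^ 2).re = tq A C LR2 t := by
  simp only [LR2, tq, List.map_cons, List.map_nil, List.sum_cons, List.sum_nil, mc, qq, map_add, add_zero,
    ← Complex.add_re]
  congr 1
  push_cast
  ring

theorem q_LNN (A C : ℂ) (t : ℝ) : (‖qq A C t‖ ^ 2) ^ 2 = tq A C LNN t := by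
  have h : (‖qq A C t‖ ^ 2) ^ 2 = (qq A C t ^ 2 * (starRingEnd ℂ) (qq A C t) ^ 2).re := by
    rw [← mul_pow, nsq, ← Complex.ofReal_pow, Complex.ofReal_re]
  rw [h]
  simp only [LNN, tq, List.map_cons, List.map_nil, List.sum_cons, List.sum_nil, mc, qq, map_add, add_zero,
    ← Complex.add_re]
  congr 1
  push_cast
  ring

theorem q_LNR (A C : ℂ) (t : ℝ) : ‖qq A C t‖ ^ 2 * (qq A C t ^ 2).re = tq A C LNR t := by
  have h : ‖qq A C t‖ ^ 2 * (qq A C t ^ 2).re = (qq A C t ^ 3 * (starRingEnd ℂ) (qq A C t)).re := by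
    have e : qq A C t ^ 3 * (starRingEnd ℂ) (qq A C t) = (qq A C t * (starRingEnd ℂ) (qq A C t)) * qq A C t ^ 2 := by
      ring
    rw [e, nsq, Complex.re_ofReal_mul]
  rw [h]
  simp only [LNR, tq, List.map_cons, List.map_nil, List.sum_cons, List.sum_nil, mc, qq, map_add, add_zero,
    ← Complex.add_re]
  congr 1
  push_cast
  ring

theorem q_LR4 (A C : ℂ) (t : ℝ) : (qq A C t ^ 4).re = tq A C LR4 t := by
  simp only [LR4, tq, List.map_cons, List.map_nil, List.sum_cons, List.sum_nil, mc, qq, map_add, add_zero,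
    ← Complex.add_re]
  congr 1
  push_cast
  ring

theorem m_LN (A C : ℂ) : mean (fun t => ‖qq A C t‖ ^ 2) = ‖A‖ ^ 2 + ‖C‖ ^ 2 := by
  have h : (fun t => ‖qq A C t‖ ^ 2) = tq A C LN := funext (q_LN A C)
  rw [h, tq_mean]
  simp only [LN, mf, mc, List.map_cons, List.map_nil, List.sum_cons, List.sum_nil]
  norm_num
  rw [nsq_re, nsq_re]

theorem m_LR2 (A C : ℂ) : mean (fun t => (qq A C t ^ 2).re) = 0 := by
  have h : (fun t => (qq A C t ^ 2).re) = tq A C LR2 := funext (q_LR2 A C)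
  rw [h, tq_mean]
  simp only [LR2, mf, mc, List.map_cons, List.map_nil, List.sum_cons, List.sum_nil]
  norm_num

theorem m_LNN (A C : ℂ) : mean (fun t => (‖qq A C t‖ ^ 2) ^ 2) = (‖A‖ ^ 2 + ‖C‖ ^ 2) ^ 2 + 2 * ‖A‖ ^ 2 * ‖C‖ ^ 2 := by
  have h : (fun t => (‖qq A C t‖ ^ 2) ^ 2) = tq A C LNN := funext (q_LNN A C)
  rw [h, tq_mean]
  simp only [LNN, mf, mc, List.map_cons, List.map_nil, List.sum_cons, List.sum_nil]
  norm_num
  rw [nsq_re, nsq_re]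
  simp [pow_two]
  ring

theorem m_LNR (A C : ℂ) : mean (fun t => ‖qq A C t‖ ^ 2 * (qq A C t ^ 2).re) = 0 := by
  have h : (fun t => ‖qq A C t‖ ^ 2 * (qq A C t ^ 2).re) = tq A C LNR := funext (q_LNR A C)
  rw [h, tq_mean]
  simp only [LNR, mf, mc, List.map_cons, List.map_nil, List.sum_cons, List.sum_nil]
  norm_num

theorem m_LR4 (A C : ℂ) : mean (fun t => (qq A C t ^ 4).re) = 0 := by
  have h : (fun t => (qq A C t ^ 4).re) = tq A C LR4 := funext (q_LR4 A C)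
  rw [h, tq_mean]
  simp only [LR4, mf, mc, List.map_cons, List.map_nil, List.sum_cons, List.sum_nil]
  norm_num

end Pool.Agent.Helper51.RC
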