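import Pool.Agent.Helper51.RC.M_REG1
import Pool.Agent.Helper51.RC.M_TRG
import Pool.Agent.Helper56.SH.Near

/-!
# Project RC, SHARP: THE REGION FACT

`AdmQ 2 b z`, `Near b z` imply `|fc z (-3)|² + |fc z (-5)|² < (73/100)²` (dual field `M_FLD`, `M_REG1`).
-/

open MeasureTheory Set Filter Metric

namespace Pool.Agent.Helper51.RC

open Helper49.LT (ee norm_ee ee_add ee_neg)
open Helper44.GQ Helper49.Sharp
open Helper56.RC (fc)
open Helper87.RC (BM BM.eec BM.cmul fc_cmul fc_eq fc_add)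

theorem KK_eq (X Y y : ℝ) (hy : y ^ 2 = Y ^ 2 / 3) : KK X y =
    (54767 / 4687500) + (8990279 / 28125000) * (X ^ 2 + Y ^ 2) + (-2295061 / 14062500) * (X ^ 2 - Y ^ 2)
    + (587563 / 600000000) * (X ^ 2 + Y ^ 2) ^ 2 + (20876719 / 1350000000) * ((X ^ 2 + Y ^ 2) * (X ^ 2 - Y ^ 2))
    + (-31417271 / 2700000000) * (X ^ 4 - 6 * X ^ 2 * Y ^ 2 + Y ^ 4) := by
  have hy4 : y ^ 4 = Y ^ 4 / 9 := by
    rw [show y ^ 4 = (y ^ 2) ^ 2 by ring, hy]; ring
  unfold KK Cee Cc2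
  linear_combination ((13580401 / 9375000) + (64597231 / 300000000) * X ^ 2) * hy + (-141053351 / 600000000) * hy4

/-- the price along the curve -/
theorem KK_curve (A C : ℂ) (t : ℝ) : KK (qq A C t).re ((qq A C t).im / Real.sqrt 3) =
    (54767 / 4687500) + (8990279 / 28125000) * ‖qq A C t‖ ^ 2 + (-2295061 / 14062500) * (qq A C t ^ 2).re
    + (587563 / 600000000) * (‖qq A C t‖ ^ 2) ^ 2 + (20876719 / 1350000000) * (‖qq A C t‖ ^ 2 * (qq A C t ^ 2).re)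
    + (-31417271 / 2700000000) * (qq A C t ^ 4).re := by
  have hs : Real.sqrt 3 ^ 2 = 3 := Real.sq_sqrt (by norm_num)
  rw [KK_eq (qq A C t).re (qq A C t).im _ (by rw [div_pow, hs])]
  set q := qq A C t
  have e1 : ‖q‖ ^ 2 = q.re ^ 2 + q.im ^ 2 := by rw [nsq_re]; ring
  have e2 : (q ^ 2).re = q.re ^ 2 - q.im ^ 2 := by
    rw [pow_two, Complex.mul_re]; ring
  have e4 : (q ^ 4).re = q.re ^ 4 - 6 * q.re ^ 2 * q.im ^ 2 + q.im ^ 4 := by
    rw [show q ^ 4 = (q * q) * (q * q) by ring, Complex.mul_re, Complex.mul_re, Complex.mul_im]; ring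
  rw [e1, e2, e4]

theorem BR.ofCont {f : ℝ → ℝ} (h : ∃ L A C, f = tq A C L) : BR f := by
  obtain ⟨L, A, C, e⟩ := h
  rw [e]; exact tq_br A C L

theorem b_LN (A C : ℂ) : BR (fun t => ‖qq A C t‖ ^ 2) := BR.ofCont ⟨LN, A, C, funext (q_LN A C)⟩
theorem b_LR2 (A C : ℂ) : BR (fun t => (qq A C t ^ 2).re) := BR.ofCont ⟨LR2, A, C, funext (q_LR2 A C)⟩
theorem b_LNN (A C : ℂ) : BR (fun t => (‖qq A C t‖ ^ 2) ^ 2) := BR.ofCont ⟨LNN, A, C, funext (q_LNN A C)⟩
theorem b_LNR (A C : ℂ) : BR (fun t => ‖qq A C t‖ ^ 2 * (qq A C t ^ 2).re) :=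
  BR.ofCont ⟨LNR, A, C, funext (q_LNR A C)⟩
theorem b_LR4 (A C : ℂ) : BR (fun t => (qq A C t ^ 4).re) := BR.ofCont ⟨LR4, A, C, funext (q_LR4 A C)⟩

theorem KK_br (A C : ℂ) : BR (fun t => KK (qq A C t).re ((qq A C t).im / Real.sqrt 3)) := by
  have h := (((((BR.const (54767 / 4687500)).add ((b_LN A C).cmul (8990279 / 28125000))).add ((b_LR2 A C).cmul (-2295061 / 14062500))).add
    ((b_LNN A C).cmul (587563 / 600000000))).add ((b_LNR A C).cmul (20876719 / 1350000000))).add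
    ((b_LR4 A C).cmul (-31417271 / 2700000000))
  have e : (fun t => KK (qq A C t).re ((qq A C t).im / Real.sqrt 3)) = _ := funext (KK_curve A C)
  rw [e]
  exact h

theorem mean_const (c : ℝ) : mean (fun _ => c) = c := by
  unfold mean
  rw [intervalIntegral.integral_const]
  have := Real.pi_ne_zero
  rw [sub_zero, smul_eq_mul]
  field_simp

theorem KK_mean (A C : ℂ) : mean (fun t => KK (qq A C t).re ((qq A C t).im / Real.sqrt 3)) =
    (54767 / 4687500) + (8990279 / 28125000) * (‖A‖ ^ 2 + ‖C‖ ^ 2) + (587563 / 600000000) * ((‖A‖ ^ 2 + ‖C‖ ^ 2) ^ 2 + 2 * ‖A‖ ^ 2 * ‖C‖ ^ 2) := by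
  rw [mean_congr (KK_curve A C)]
  rw [mean_add (((((BR.const _).add ((b_LN A C).cmul _)).add ((b_LR2 A C).cmul _)).add
    ((b_LNN A C).cmul _)).add ((b_LNR A C).cmul _)) ((b_LR4 A C).cmul _),
    mean_add ((((BR.const _).add ((b_LN A C).cmul _)).add ((b_LR2 A C).cmul _)).add
    ((b_LNN A C).cmul _)) ((b_LNR A C).cmul _),
    mean_add (((BR.const _).add ((b_LN A C).cmul _)).add ((b_LR2 A C).cmul _)) ((b_LNN A C).cmul _),
    mean_add ((BR.const _).add ((b_LN A C).cmul _)) ((b_LR2 A C).cmul _),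
    mean_add (BR.const _) ((b_LN A C).cmul _), mean_cmul, mean_cmul, mean_cmul, mean_cmul, mean_cmul,
    m_LN, m_LR2, m_LNN, m_LNR, m_LR4, mean_const]
  ring

/-- mean of `Re (conj q z)` -/
theorem mean_qz (A C : ℂ) {z : ℝ → ℂ} {D : ℝ} (hz : BM z D) :
    mean (fun t => ((starRingEnd ℂ) (qq A C t) * z t).re) =
    ((starRingEnd ℂ) A * fc z (-3) + (starRingEnd ℂ) C * fc z (-5)).re := by
  have h1 : BM (fun t => (starRingEnd ℂ) A * (z t * ee (-((-3 : ℤ) : ℝ) * t))) (‖(starRingEnd ℂ) A‖ * (D * 1)) :=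
    (hz.mul (BM.eec _)).cmul _
  have h2 : BM (fun t => (starRingEnd ℂ) C * (z t * ee (-((-5 : ℤ) : ℝ) * t))) (‖(starRingEnd ℂ) C‖ * (D * 1)) :=
    (hz.mul (BM.eec _)).cmul _
  have e : ∀ t, ((starRingEnd ℂ) (qq A C t) * z t).re =
      ((starRingEnd ℂ) A * (z t * ee (-((-3 : ℤ) : ℝ) * t))).re
      + ((starRingEnd ℂ) C * (z t * ee (-((-5 : ℤ) : ℝ) * t))).re := by
    intro t
    have h3 : (starRingEnd ℂ) (ee (-3 * t)) = ee (-((-3 : ℤ) : ℝ) * t) := by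
      rw [← ee_neg]; congr 1; push_cast; ring
    have h5 : (starRingEnd ℂ) (ee (-5 * t)) = ee (-((-5 : ℤ) : ℝ) * t) := by
      rw [← ee_neg]; congr 1; push_cast; ring
    rw [← Complex.add_re]
    congr 1
    unfold qq
    rw [map_add, map_mul, map_mul, h3, h5]
    ring
  rw [mean_congr e, mean_add (BR.re h1) (BR.re h2), mean_fc0 h1, mean_fc0 h2, fc_cmul, fc_cmul, ← Complex.add_re]
  have g : ∀ (f : ℝ → ℂ) (n : ℤ), fc (fun t => f t * ee (-(n : ℝ) * t)) 0 = fc f n := by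
    intro f n
    rw [fc_eq, fc_eq]
    congr 2
    funext t
    simp [ee]
  rw [g, g]

/-- THE REGION FACT -/
theorem region : Helper56.SH.StRegion := by
  intro b z h hn
  by_contra hc
  rw [not_lt] at hc
  obtain ⟨D, k1, k2, kz⟩ := g_bm h
  set A := fc z (-3) with hA
  set B := fc z (-5) with hB
  set r := Real.sqrt (‖A‖ ^ 2 + ‖B‖ ^ 2) with hr
  have hr2 : r ^ 2 = ‖A‖ ^ 2 + ‖B‖ ^ 2 := Real.sq_sqrt (by positivity)
  have hr1 : 73 / 100 ≤ r := Real.le_sqrt_of_sq_le hc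
  have hr0 : 0 < r := by linarith
  set κ : ℝ := 11 / 10 / r with hκ
  have hκ2 : κ * r = 11 / 10 := by rw [hκ]; field_simp
  have hκ0 : 0 < κ := by positivity
  set A' : ℂ := (κ : ℂ) * A with hA'
  set C' : ℂ := (κ : ℂ) * B with hC'
  have nA : ‖A'‖ = κ * ‖A‖ := by
    rw [hA', norm_mul, Complex.norm_real, Real.norm_of_nonneg hκ0.le]
  have nC : ‖C'‖ = κ * ‖B‖ := by
    rw [hC', norm_mul, Complex.norm_real, Real.norm_of_nonneg hκ0.le]
  have hS : ‖A'‖ ^ 2 + ‖C'‖ ^ 2 = 121 / 100 := by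
    rw [nA, nC]
    have : (κ * r) ^ 2 = (11 / 10) ^ 2 := by rw [hκ2]
    rw [mul_pow, hr2] at this
    linarith
  have hq : ∀ t, ‖qq A' C' t‖ ^ 2 ≤ 121 / 50 := by
    intro t
    have h1 : ‖qq A' C' t‖ ≤ ‖A'‖ + ‖C'‖ := by
      unfold qq
      refine (norm_add_le _ _).trans (le_of_eq ?_)
      rw [norm_mul A', norm_mul C', norm_ee, norm_ee, mul_one, mul_one]
    have h2 : ‖qq A' C' t‖ ^ 2 ≤ (‖A'‖ + ‖C'‖) ^ 2 := pow_le_pow_left₀ (norm_nonneg _) h1 2
    nlinarith [sq_nonneg (‖A'‖ - ‖C'‖)]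
  have hs : Real.sqrt 3 ^ 2 = 3 := Real.sq_sqrt (by norm_num)
  have hs0 : Real.sqrt 3 ≠ 0 := by positivity
  have hpt : ∀ t, ((starRingEnd ℂ) (qq A' C' t) * z t).re - KK (qq A' C' t).re ((qq A' C' t).im / Real.sqrt 3)
      ≤ S4 (b t) (z t) - 4 + 2 * (b t).re + 3 / 2 * (b t).re ^ 2 := by
    intro t
    have h1 := S4_KK (x := (qq A' C' t).re) (y := (qq A' C' t).im / Real.sqrt 3) (by
      rw [div_pow, hs]
      have := hq t
      rw [nsq_re] at this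
      linarith) (b t) (z t)
    have e : Real.sqrt 3 * ((qq A' C' t).im / Real.sqrt 3) = (qq A' C' t).im := by
      field_simp
    rw [e] at h1
    have e2 : ((starRingEnd ℂ) (qq A' C' t) * z t).re = (qq A' C' t).re * (z t).re + (qq A' C' t).im * (z t).im := by
      rw [Complex.mul_re, Complex.conj_re, Complex.conj_im]; ring
    rw [e2]
    exact h1
  -- the means
  have hb1 : BM b 1 := b_bm h
  have hzp : ∀ t, z (t + 2 * Real.pi) = z t := fun t => by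
    rw [show t + 2 * Real.pi = t + Real.pi + Real.pi by ring, h.perz, h.perz, neg_neg]
  have hbp : ∀ t, b (t + 2 * Real.pi) = b t := fun t => by
    rw [show t + 2 * Real.pi = t + Real.pi + Real.pi by ring, h.perb, h.perb]
  have hG : BR (fun t => ‖g1 (b t) (z t)‖ + ‖g2 (b t) (z t)‖) := (BR.nrm k1).add (BR.nrm k2)
  have hGp := mean_pair hG (fun t => by rw [hzp, hbp])
  have hS4 : BR (fun t => S4 (b t) (z t)) := by
    have := hG.add (hG.sh Real.pi)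
    have e : (fun t => S4 (b t) (z t)) = fun t => ‖g1 (b t) (z t)‖ + ‖g2 (b t) (z t)‖
      + (‖g1 (b (t + Real.pi)) (z (t + Real.pi))‖ + ‖g2 (b (t + Real.pi)) (z (t + Real.pi))‖) := by
      funext t
      rw [h.perb, h.perz]
      unfold S4
      ring
    rw [e]; exact this
  have hm4 : mean (fun t => S4 (b t) (z t)) = 2 * mean (fun t => ‖g1 (b t) (z t)‖ + ‖g2 (b t) (z t)‖) := by
    rw [hGp, ← mul_assoc, show (2 : ℝ) * (1 / 2) = 1 by norm_num, one_mul]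
    refine mean_congr fun t => ?_
    rw [h.perb, h.perz]
    unfold S4
    ring
  have hbr : BR (fun t => (b t).re) := BR.re hb1
  have hbs : BR (fun t => (b t).re ^ 2) := hbr.sq
  have hK := KK_br A' C'
  have hqb : BR (fun t => ((starRingEnd ℂ) (qq A' C' t) * z t).re) := by
    have hq1 : BM (qq A' C') (‖A'‖ * 1 + ‖C'‖ * 1) := ((BM.eec (-3)).cmul A').add ((BM.eec (-5)).cmul C')
    exact BR.re (hq1.conj.mul kz)
  have hmain := mean_mono (hqb.sub hK) (((hS4.sub (BR.const 4)).add (hbr.cmul 2)).add (hbs.cmul (3 / 2))) hpt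
  rw [mean_sub hqb hK, mean_add ((hS4.sub (BR.const 4)).add (hbr.cmul 2)) (hbs.cmul (3 / 2)),
    mean_add (hS4.sub (BR.const 4)) (hbr.cmul 2), mean_sub hS4 (BR.const 4), mean_const, mean_cmul, mean_cmul,
    mean_qz A' C' kz, KK_mean, hm4, hS, mean_fc0 hb1] at hmain
  have hre : ((starRingEnd ℂ) A' * fc z (-3) + (starRingEnd ℂ) C' * fc z (-5)).re = 11 / 10 * r := by
    rw [← hA, ← hB, hA', hC', map_mul, map_mul, Complex.conj_ofReal]
    have e : (κ : ℂ) * (starRingEnd ℂ) A * A + (κ : ℂ) * (starRingEnd ℂ) B * B = ((κ * (‖A‖ ^ 2 + ‖B‖ ^ 2) : ℝ) : ℂ) := by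
      push_cast
      have h1 := nsq A
      have h2 := nsq B
      push_cast at h1 h2
      linear_combination (κ : ℂ) * h1 + (κ : ℂ) * h2
    rw [e, Complex.ofReal_re, ← hr2]
    calc κ * r ^ 2 = (κ * r) * r := by ring
      _ = 11 / 10 * r := by rw [hκ2]
  rw [hre] at hmain
  have hAC : 2 * ‖A'‖ ^ 2 * ‖C'‖ ^ 2 ≤ (121 / 100) ^ 2 / 2 := by
    nlinarith [sq_nonneg (‖A'‖ ^ 2 - ‖C'‖ ^ 2), hS]
  unfold Helper44.Far.Near Sp at hn
  nlinarith

end Pool.Agent.Helper51.RC
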