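import Pool.Agent.Helper51.RC.M_REG1

/-!
# Project RC, SHARP: the pointwise fact in `b`

`stP1`: `(9/10) b₂² + (27/10) b₃² ≤ S4 b z - 4 + 2 b₂` for `|b| < 1` and all `z`.
`x = b₂`, `s = b₃²`; `al`, `ga`: the product of the two norms at `z = 0` is `√(al² + 3 ga²)`.
-/

set_option maxRecDepth 100000

open MeasureTheory Set Filter Metric

namespace Pool.Agent.Helper51.RC

open Helper44.GQ Helper49.Sharp

noncomputable section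

def pe (x s : ℝ) : ℝ := 9 / 20 * x ^ 2 + 27 / 20 * s
def pal (x s : ℝ) : ℝ := 1 - x - 1 / 2 * x ^ 2 + 23 / 32 * s
def pga (x s : ℝ) : ℝ := x - 1 / 2 * x ^ 2 - 55 / 32 * s
def pep (x s : ℝ) : ℝ := (2 - x) * pe x s + 1 / 2 * pe x s ^ 2 - 121 / 32 * s

def p1a0 (x s : ℝ) : ℝ :=
    779221 * x - 265265 * x ^ 2 - 1566160 * s - 886911 * x ^ 3 - 1239263 * x * s + 209139 * x ^ 4 + 2757555 * x
    ^ 2 * s + 1804477 * s ^ 2
def p1a1 (x s : ℝ) : ℝ :=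
    -1043313 * x ^ 2 + 2970143 * s + 76992 * x ^ 3 - 633975 * x * s + 1158654 * x ^ 4 - 1420653 * x ^ 2 * s -
    3742732 * s ^ 2
def p1a2 (x s : ℝ) : ℝ :=
    780780 * x ^ 2 + 79761 * x ^ 3 - 1360866 * x * s - 746861 * x ^ 4 + 582091 * x ^ 2 * s - 244288 * s ^ 2
def p1a3 (x s : ℝ) : ℝ :=
    -69247 * x ^ 3 + 2180519 * x * s + 11204 * x ^ 4 - 2276316 * x ^ 2 * s - 273379 * s ^ 2
def p1a4 (x s : ℝ) : ℝ :=
    476537 * x ^ 3 + 382884 * x ^ 4 - 2723883 * x ^ 2 * s + 696652 * s ^ 2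
def p1a5 (x s : ℝ) : ℝ :=
    -277797 * x ^ 4 + 1321700 * x ^ 2 * s - 1548872 * s ^ 2
def p1a6 (x s : ℝ) : ℝ :=
    -213198 * x ^ 4 + 1456187 * s ^ 2
def p1a7 (x s : ℝ) : ℝ :=
    28283 * x ^ 4
def p1b0 (x s : ℝ) : ℝ :=
    1097047 - 1546416 * x - 1155372 * x ^ 2 - 1575052 * s + 1592490 * x ^ 3 + 2167606 * x * s
def p1b1 (x s : ℝ) : ℝ :=
    1251753 * x - 389195 * x ^ 2 - 296552 * s - 220698 * x ^ 3 - 2395477 * x * s
def p1b2 (x s : ℝ) : ℝ :=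
    1554024 * x ^ 2 - 807871 * s - 1180065 * x ^ 3 - 737269 * x * s
def p1b3 (x s : ℝ) : ℝ :=
    1634834 * s + 182973 * x ^ 3 - 2399203 * x * s
def p1b4 (x s : ℝ) : ℝ :=
    1318826 * x ^ 3 - 3434870 * x * s
def p1b5 (x s : ℝ) : ℝ :=
    71877 * x * s
def p1c0 (x s : ℝ) : ℝ :=
    709023 * x + 111703 * x ^ 2 - 1012170 * s - 774445 * x ^ 3 + 203945 * x * s
def p1c1 (x s : ℝ) : ℝ :=
    -141731 * x ^ 2 + 2270542 * s + 327683 * x ^ 3 - 3156260 * x * s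
def p1c2 (x s : ℝ) : ℝ :=
    953645 * x ^ 2 + 118723 * x ^ 3 - 3212598 * x * s
def p1c3 (x s : ℝ) : ℝ :=
    -1212708 * x ^ 3 + 3134522 * x * s
def p1c4 (x s : ℝ) : ℝ :=
    180347 * x ^ 3
def p1d0 (x s : ℝ) : ℝ :=
    1032963 - 1147642 * x + 933741 * x ^ 2 - 2709562 * s
def p1d1 (x s : ℝ) : ℝ :=
    2351723 * x - 2314442 * x ^ 2 - 1328567 * s
def p1d2 (x s : ℝ) : ℝ :=
    -1485799 * x ^ 2 + 3758586 * s
def p1d3 (x s : ℝ) : ℝ :=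
    287994 * x ^ 2

def P1A (x s : ℝ) : ℝ :=
    p1a0 x s ^ 2 + p1a1 x s ^ 2 + p1a2 x s ^ 2 + p1a3 x s ^ 2 + p1a4 x s ^ 2 + p1a5 x s ^ 2 + p1a6 x s ^ 2 +
    p1a7 x s ^ 2
theorem P1A_nn (x s : ℝ) : 0 ≤ P1A x s := by unfold P1A; positivity

def P1B (x s : ℝ) : ℝ :=
    p1b0 x s ^ 2 + p1b1 x s ^ 2 + p1b2 x s ^ 2 + p1b3 x s ^ 2 + p1b4 x s ^ 2 + p1b5 x s ^ 2
theorem P1B_nn (x s : ℝ) : 0 ≤ P1B x s := by unfold P1B; positivity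

def P1C (x s : ℝ) : ℝ :=
    p1c0 x s ^ 2 + p1c1 x s ^ 2 + p1c2 x s ^ 2 + p1c3 x s ^ 2 + p1c4 x s ^ 2
theorem P1C_nn (x s : ℝ) : 0 ≤ P1C x s := by unfold P1C; positivity

def P1D (x s : ℝ) : ℝ :=
    p1d0 x s ^ 2 + p1d1 x s ^ 2 + p1d2 x s ^ 2 + p1d3 x s ^ 2
theorem P1D_nn (x s : ℝ) : 0 ≤ P1D x s := by unfold P1D; positivity

def r1L : List (ℤ × ℕ × ℕ) := [
    (1018630, 0, 0), (-4022340, 0, 1), (8755227, 0, 2), (5264652, 0, 3), (124792, 1, 0), (8052344, 1, 1),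
    (4231416, 1, 2), (-2365528, 2, 0), (-199, 2, 1), (-3513389, 2, 2), (167448, 3, 0), (-7913712, 3, 1),
    (268959, 4, 0), (4633602, 4, 1), (-304022, 5, 0), (786484, 6, 0)]

def r2L : List (ℤ × ℕ × ℕ) := [
    (320422, 0, 0), (-1382044, 0, 1), (-6230090, 0, 2), (6829834, 0, 3), (-1343864, 1, 0), (-3465958, 1, 1),
    (4345096, 1, 2)]

theorem ident1 (x s : ℝ) : 3 * pga x s ^ 2 - pep x s * (2 * pal x s + pep x s + 1 / 10) =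
    1 / 10000 * (x ^ 2 + s) + P1A x s / 10 ^ 12 + s * P1B x s / 10 ^ 12 + (1 - x ^ 2 - s) * P1C x s / 10 ^ 12
      + s * (1 - x ^ 2 - s) * P1D x s / 10 ^ 12
      + (x ^ 2 * evL r1L x s + s * evL r2L x s) / 1000000000000 := by
  simp only [P1A, P1B, P1C, P1D, p1a0, p1a1, p1a2, p1a3, p1a4, p1a5, p1a6, p1a7, p1b0, p1b1, p1b2, p1b3, p1b4, p1b5, p1c0, p1c1, p1c2, p1c3, p1c4, p1d0, p1d1, p1d2, p1d3, pe, pal, pga, pep, r1L, r2L, evL]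
  push_cast
  ring

theorem ab1 : abL r1L ≤ 1000000000000 / 10000 := by decide +kernel
theorem ab2 : abL r2L ≤ 1000000000000 / 10000 := by decide +kernel

theorem poly1 {x s : ℝ} (hs : 0 ≤ s) (h : x ^ 2 + s ≤ 1) :
    pep x s * (2 * pal x s + pep x s + 1 / 10) ≤ 3 * pga x s ^ 2 := by
  have hX : |x| ≤ 1 := by
    rw [abs_le]; constructor <;> nlinarith
  have hY : |s| ≤ 1 := by
    rw [abs_of_nonneg hs]; nlinarith [sq_nonneg x]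
  have h1 := ident1 x s
  have k1 := evL_le hX hY r1L
  have k2 := evL_le hX hY r2L
  have a1 : (abL r1L : ℝ) ≤ ((1000000000000 / 10000 : ℤ) : ℝ) := by exact_mod_cast ab1
  have a2 : (abL r2L : ℝ) ≤ ((1000000000000 / 10000 : ℤ) : ℝ) := by exact_mod_cast ab2
  have c1 : ((1000000000000 / 10000 : ℤ) : ℝ) ≤ 1000000000000 / 10000 := by norm_num
  have e1 : -(1 / 10000 * x ^ 2) ≤ x ^ 2 * evL r1L x s / 1000000000000 := by
    rw [le_div_iff₀ (by norm_num)]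
    have := (abs_le.1 k1).1
    nlinarith [sq_nonneg x]
  have e2 : -(1 / 10000 * s) ≤ s * evL r2L x s / 1000000000000 := by
    rw [le_div_iff₀ (by norm_num)]
    have := (abs_le.1 k2).1
    nlinarith
  have n1 : 0 ≤ P1A x s / 10 ^ 12 := div_nonneg (P1A_nn x s) (by norm_num)
  have n2 : 0 ≤ s * P1B x s / 10 ^ 12 := div_nonneg (mul_nonneg hs (P1B_nn x s)) (by norm_num)
  have h0 : 0 ≤ 1 - x ^ 2 - s := by linarith
  have n3 : 0 ≤ (1 - x ^ 2 - s) * P1C x s / 10 ^ 12 := div_nonneg (mul_nonneg h0 (P1C_nn x s)) (by norm_num)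
  have n4 : 0 ≤ s * (1 - x ^ 2 - s) * P1D x s / 10 ^ 12 :=
    div_nonneg (mul_nonneg (mul_nonneg hs h0) (P1D_nn x s)) (by norm_num)
  rw [add_div] at h1
  linarith

/-- at `z = 0` -/
theorem two_norms {b : ℂ} (hb : ‖b‖ ≤ 1) :
    2 - b.re + 9 / 20 * b.re ^ 2 + 27 / 20 * b.im ^ 2 ≤ ‖g1 b 0‖ + ‖g2 b 0‖ := by
  have hs3 : Real.sqrt 3 ^ 2 = 3 := Real.sq_sqrt (by norm_num)
  have hd : b.re ^ 2 + b.im ^ 2 ≤ 1 := by
    have h1 : ‖b‖ ^ 2 ≤ 1 := by nlinarith [norm_nonneg b]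
    rw [← Complex.normSq_eq_norm_sq, Complex.normSq_apply] at h1
    linarith
  have hp := poly1 (sq_nonneg b.im) hd
  set x := b.re with hx
  set v := b.im with hv
  have N1 : ‖g1 b 0‖ ^ 2 = 1 - x + x ^ 2 + 49 / 16 * v ^ 2 + Real.sqrt 3 * v * (5 + 3 * x) / 4 := by
    rw [← Complex.normSq_eq_norm_sq, Complex.normSq_apply, g1_re, g1_im]
    simp only [Complex.zero_re, Complex.zero_im, ← hx, ← hv]
    linear_combination (v ^ 2 + (1 - x) ^ 2 / 4) * hs3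
  have N2 : ‖g2 b 0‖ ^ 2 = 1 - x + x ^ 2 + 49 / 16 * v ^ 2 - Real.sqrt 3 * v * (5 + 3 * x) / 4 := by
    rw [← Complex.normSq_eq_norm_sq, Complex.normSq_apply, g2_re, g2_im]
    simp only [Complex.zero_re, Complex.zero_im, ← hx, ← hv]
    linear_combination (v ^ 2 + (1 - x) ^ 2 / 4) * hs3
  have N12 : (‖g1 b 0‖ * ‖g2 b 0‖) ^ 2 = pal x (v ^ 2) ^ 2 + 3 * pga x (v ^ 2) ^ 2 := by
    rw [mul_pow, N1, N2]
    unfold pal pga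
    linear_combination (-(v * (5 + 3 * x) / 4) ^ 2) * hs3
  have hn := mul_nonneg (norm_nonneg (g1 b 0)) (norm_nonneg (g2 b 0))
  have key : pal x (v ^ 2) + pep x (v ^ 2) ≤ ‖g1 b 0‖ * ‖g2 b 0‖ := by
    by_cases hd0 : pal x (v ^ 2) + pep x (v ^ 2) ≤ 0
    · linarith
    · rw [not_le] at hd0
      refine (abs_le_of_sq_le_sq' ?_ hn).2
      rw [N12]
      by_cases he : pep x (v ^ 2) ≤ 0
      · nlinarith [sq_nonneg (pga x (v ^ 2))]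
      · rw [not_le] at he
        nlinarith
  have hR : (2 - x + 9 / 20 * x ^ 2 + 27 / 20 * v ^ 2) ^ 2 ≤ (‖g1 b 0‖ + ‖g2 b 0‖) ^ 2 := by
    have e : (‖g1 b 0‖ + ‖g2 b 0‖) ^ 2 = ‖g1 b 0‖ ^ 2 + ‖g2 b 0‖ ^ 2 + 2 * (‖g1 b 0‖ * ‖g2 b 0‖) := by ring
    rw [e, N1, N2]
    have e2 : (2 - x + 9 / 20 * x ^ 2 + 27 / 20 * v ^ 2) ^ 2 =
        2 * (1 - x + x ^ 2 + 49 / 16 * v ^ 2) + 2 * (pal x (v ^ 2) + pep x (v ^ 2)) := by
      unfold pal pep pe; ring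
    rw [e2]
    linarith
  exact (abs_le_of_sq_le_sq' hR (by positivity)).2

/-- **THE POINTWISE FACT IN `b`** -/
theorem stP1 {b : ℂ} (hb : ‖b‖ < 1) (z : ℂ) :
    9 / 10 * b.re ^ 2 + 27 / 10 * b.im ^ 2 ≤ S4 b z - 4 + 2 * b.re := by
  have h := two_norms hb.le
  have h1 : 2 * ‖g1 b 0‖ ≤ ‖g1 b z‖ + ‖g1 b (-z)‖ := by
    have e : g1 b z + g1 b (-z) = 2 * g1 b 0 := by unfold g1; ring
    calc 2 * ‖g1 b 0‖ = ‖g1 b z + g1 b (-z)‖ := by rw [e, norm_mul]; norm_num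
      _ ≤ _ := norm_add_le _ _
  have h2 : 2 * ‖g2 b 0‖ ≤ ‖g2 b z‖ + ‖g2 b (-z)‖ := by
    have e : g2 b z + g2 b (-z) = 2 * g2 b 0 := by unfold g2; ring
    calc 2 * ‖g2 b 0‖ = ‖g2 b z + g2 b (-z)‖ := by rw [e, norm_mul]; norm_num
      _ ≤ _ := norm_add_le _ _
  unfold S4
  linarith

end

end Pool.Agent.Helper51.RC
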