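import Mathlib

/-!
# Project RC, SHARP: the dual field of the region fact (polynomial inequality)

`x = q₁`, `y = q₂/√3`; `CC`, `TT` are the components of the field, `CC² + TT²/3 ≤ 1` for `x² + 3 y² ≤ 121/50`
(certificate by sums of squares).
-/

set_option maxRecDepth 100000

namespace Pool.Agent.Helper51.RC

noncomputable section

/-- even-even part -/
def Cee (x y : ℝ) : ℝ :=
    9971 / 10000 - 391 / 10000 * x ^ 2 - 3597 / 10000 * y ^ 2 - 3 / 2500 * x ^ 4 - 531 / 10000 * x ^ 2 * y ^ 2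
    + 651 / 5000 * y ^ 4

/-- the coefficient of b2 -/
def Cc2 (x y : ℝ) : ℝ :=
    14 / 625 + 67 / 10000 * x ^ 2 + 13093 / 10000 * y ^ 2

/-- even-odd part -/
def Ceo (x y : ℝ) : ℝ :=
    1291 / 5000 * x * y - 21 / 1250 * x ^ 3 * y + 171 / 10000 * x * y ^ 3

/-- odd-even part -/
def Coe (x y : ℝ) : ℝ :=
    11 / 2500 * x ^ 3 - 267 / 1250 * x * y ^ 2 + 3 / 2500 * x ^ 5 - 51 / 10000 * x ^ 3 * y ^ 2 - 61 / 5000 * x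
    * y ^ 4

/-- odd-odd part -/
def Coo (x y : ℝ) : ℝ :=
    393 / 10000 * x ^ 2 * y + 101 / 500 * y ^ 3 - 2 / 625 * x ^ 4 * y + 251 / 2000 * x ^ 2 * y ^ 3 + 169 /
    10000 * y ^ 5

/-- the first component -/
def CC (x y : ℝ) : ℝ := Cee x y + Ceo x y + Coe x y + Coo x y
/-- `√3` times the second component -/
def TT (x y : ℝ) : ℝ :=
  Coe x y - x / 2 + 3 / 2 * y - 3 * Coo x y + 15 / 11 * Ceo x y + (1 - Cee x y) - Cc2 x y / 2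

/-- the squares -/
def sa0 (X Y : ℝ) : ℝ :=
    47542 - 45322 * X + 36103 * Y - 127635 * X ^ 2 - 68564 * X * Y - 215445 * Y ^ 2 + 123107 * X ^ 3 - 34741 *
    X ^ 2 * Y + 192736 * X * Y ^ 2 - 89371 * Y ^ 3 + 87892 * X ^ 4 + 89662 * X ^ 3 * Y + 254574 * X ^ 2 * Y ^ 2
    + 61475 * X * Y ^ 3 + 174645 * Y ^ 4 - 83621 * X ^ 5 - 8551 * X ^ 4 * Y - 247065 * X ^ 3 * Y ^ 2 + 79200 *
    X ^ 2 * Y ^ 3 - 156926 * X * Y ^ 4 + 47385 * Y ^ 5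
def sa1 (X Y : ℝ) : ℝ :=
    113567 * X + 5778 * Y - 5055 * X ^ 2 + 78123 * X * Y + 35118 * Y ^ 2 - 268477 * X ^ 3 - 98670 * X ^ 2 * Y -
    667952 * X * Y ^ 2 - 100413 * Y ^ 3 + 8274 * X ^ 4 - 89068 * X ^ 3 * Y - 58591 * X ^ 2 * Y ^ 2 - 83227 * X
    * Y ^ 3 - 36318 * Y ^ 4 + 153552 * X ^ 5 + 113442 * X ^ 4 * Y + 772515 * X ^ 3 * Y ^ 2 + 185900 * X ^ 2 * Y
    ^ 3 + 563597 * X * Y ^ 4 + 97656 * Y ^ 5
def sa2 (X Y : ℝ) : ℝ :=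
    135394 * Y + 22703 * X ^ 2 - 105711 * X * Y - 46365 * Y ^ 2 - 22867 * X ^ 3 - 423093 * X ^ 2 * Y + 112273 *
    X * Y ^ 2 - 432694 * Y ^ 3 - 31555 * X ^ 4 + 138513 * X ^ 3 * Y + 61799 * X ^ 2 * Y ^ 2 + 97532 * X * Y ^ 3
    + 41268 * Y ^ 4 + 31747 * X ^ 5 + 319810 * X ^ 4 * Y - 140237 * X ^ 3 * Y ^ 2 + 561864 * X ^ 2 * Y ^ 3 -
    115431 * X * Y ^ 4 + 302744 * Y ^ 5
def sa3 (X Y : ℝ) : ℝ :=
    81827 * X ^ 2 - 112272 * X * Y - 89243 * Y ^ 2 - 63394 * X ^ 3 - 1475 * X ^ 2 * Y + 270638 * X * Y ^ 2 +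
    156913 * Y ^ 3 - 94526 * X ^ 4 + 128870 * X ^ 3 * Y - 25246 * X ^ 2 * Y ^ 2 + 177215 * X * Y ^ 3 + 130067 *
    Y ^ 4 + 80676 * X ^ 5 + 32857 * X ^ 4 * Y - 274520 * X ^ 3 * Y ^ 2 - 161696 * X ^ 2 * Y ^ 3 - 317898 * X *
    Y ^ 4 - 192769 * Y ^ 5
def sa4 (X Y : ℝ) : ℝ :=
    186410 * X * Y + 113874 * Y ^ 2 + 23529 * X ^ 3 - 60248 * X ^ 2 * Y - 340140 * X * Y ^ 2 - 184332 * Y ^ 3 -
    10914 * X ^ 4 - 243749 * X ^ 3 * Y - 49733 * X ^ 2 * Y ^ 2 - 231331 * X * Y ^ 3 - 147418 * Y ^ 4 - 11056 *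
    X ^ 5 + 50484 * X ^ 4 * Y + 338044 * X ^ 3 * Y ^ 2 + 237190 * X ^ 2 * Y ^ 3 + 391975 * X * Y ^ 4 + 220700 *
    Y ^ 5
def sa5 (X Y : ℝ) : ℝ :=
    107996 * Y ^ 2 + 5739 * X ^ 3 + 93713 * X ^ 2 * Y - 155998 * X * Y ^ 2 - 152238 * Y ^ 3 + 18126 * X ^ 4 +
    1095 * X ^ 3 * Y - 204970 * X ^ 2 * Y ^ 2 + 37191 * X * Y ^ 3 - 88559 * Y ^ 4 - 19644 * X ^ 5 - 69307 * X ^
    4 * Y + 222832 * X ^ 3 * Y ^ 2 + 23112 * X ^ 2 * Y ^ 3 + 163701 * X * Y ^ 4 + 143567 * Y ^ 5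
def sa6 (X Y : ℝ) : ℝ :=
    69452 * X ^ 3 - 60268 * X ^ 2 * Y - 25073 * X * Y ^ 2 + 9077 * Y ^ 3 - 7030 * X ^ 4 + 41521 * X ^ 3 * Y +
    68259 * X ^ 2 * Y ^ 2 - 18838 * X * Y ^ 3 - 10988 * Y ^ 4 - 55967 * X ^ 5 + 68366 * X ^ 4 * Y - 188174 * X
    ^ 3 * Y ^ 2 + 26970 * X ^ 2 * Y ^ 3 + 63443 * X * Y ^ 4 + 3770 * Y ^ 5
def sa7 (X Y : ℝ) : ℝ :=
    276072 * X ^ 2 * Y - 32804 * X * Y ^ 2 - 73403 * Y ^ 3 + 19916 * X ^ 4 - 29371 * X ^ 3 * Y - 114030 * X ^ 2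
    * Y ^ 2 - 7864 * X * Y ^ 3 + 5494 * Y ^ 4 - 20392 * X ^ 5 - 343478 * X ^ 4 * Y + 181037 * X ^ 3 * Y ^ 2 -
    127140 * X ^ 2 * Y ^ 3 + 45601 * X * Y ^ 4 + 70253 * Y ^ 5
def sa8 (X Y : ℝ) : ℝ :=
    282637 * X * Y ^ 2 + 69743 * Y ^ 3 + 4679 * X ^ 4 + 31299 * X ^ 3 * Y - 89129 * X ^ 2 * Y ^ 2 - 153667 * X
    * Y ^ 3 - 23418 * Y ^ 4 - 642 * X ^ 5 - 38222 * X ^ 4 * Y - 388547 * X ^ 3 * Y ^ 2 + 197857 * X ^ 2 * Y ^ 3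
    - 143005 * X * Y ^ 4 - 48188 * Y ^ 5
def sa9 (X Y : ℝ) : ℝ :=
    127035 * Y ^ 3 + 6133 * X ^ 4 - 10441 * X ^ 3 * Y + 35375 * X ^ 2 * Y ^ 2 - 29985 * X * Y ^ 3 - 37196 * Y ^
    4 - 5087 * X ^ 5 + 9575 * X ^ 4 * Y + 48980 * X ^ 3 * Y ^ 2 - 233318 * X ^ 2 * Y ^ 3 + 68961 * X * Y ^ 4 -
    79903 * Y ^ 5
def sa10 (X Y : ℝ) : ℝ :=
    48392 * X ^ 4 - 58351 * X ^ 3 * Y - 180818 * X ^ 2 * Y ^ 2 - 28237 * X * Y ^ 3 + 19812 * Y ^ 4 - 43976 * X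
    ^ 5 - 18144 * X ^ 4 * Y + 307095 * X ^ 3 * Y ^ 2 + 169803 * X ^ 2 * Y ^ 3 - 36731 * X * Y ^ 4 - 25454 * Y ^
    5
def sa11 (X Y : ℝ) : ℝ :=
    181192 * X ^ 3 * Y - 118825 * X ^ 2 * Y ^ 2 - 210427 * X * Y ^ 3 - 49379 * Y ^ 4 + 2420 * X ^ 5 + 94017 * X
    ^ 4 * Y - 241993 * X ^ 3 * Y ^ 2 + 156712 * X ^ 2 * Y ^ 3 + 235865 * X * Y ^ 4 + 51713 * Y ^ 5
def sa12 (X Y : ℝ) : ℝ :=
    293778 * X ^ 2 * Y ^ 2 + 53534 * X * Y ^ 3 - 38942 * Y ^ 4 + 5291 * X ^ 5 - 9215 * X ^ 4 * Y + 58693 * X ^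
    3 * Y ^ 2 - 337614 * X ^ 2 * Y ^ 3 - 83929 * X * Y ^ 4 + 39644 * Y ^ 5
def sa13 (X Y : ℝ) : ℝ :=
    278667 * X * Y ^ 3 + 121250 * Y ^ 4 + 1598 * X ^ 5 + 49334 * X ^ 4 * Y - 69659 * X ^ 3 * Y ^ 2 - 132017 * X
    ^ 2 * Y ^ 3 - 269047 * X * Y ^ 4 - 118422 * Y ^ 5
def sa14 (X Y : ℝ) : ℝ :=
    51728 * Y ^ 4 + 761 * X ^ 5 - 57723 * X ^ 4 * Y + 4628 * X ^ 3 * Y ^ 2 + 219957 * X ^ 2 * Y ^ 3 - 122320 *
    X * Y ^ 4 - 58118 * Y ^ 5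
def sa15 (X Y : ℝ) : ℝ :=
    19210 * X ^ 5 + 11426 * X ^ 4 * Y - 22035 * X ^ 3 * Y ^ 2 - 870 * X ^ 2 * Y ^ 3 + 17684 * X * Y ^ 4 + 1618
    * Y ^ 5
def sa16 (X Y : ℝ) : ℝ :=
    124447 * X ^ 4 * Y + 92329 * X ^ 3 * Y ^ 2 - 85807 * X ^ 2 * Y ^ 3 - 33486 * X * Y ^ 4 + 3226 * Y ^ 5
def sa17 (X Y : ℝ) : ℝ :=
    226492 * X ^ 3 * Y ^ 2 - 3728 * X ^ 2 * Y ^ 3 - 83519 * X * Y ^ 4 - 11614 * Y ^ 5
def sa18 (X Y : ℝ) : ℝ :=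
    117139 * X ^ 2 * Y ^ 3 - 17131 * X * Y ^ 4 - 13865 * Y ^ 5
def sa19 (X Y : ℝ) : ℝ :=
    62707 * X * Y ^ 4 + 13075 * Y ^ 5
def sa20 (X Y : ℝ) : ℝ :=
    22651 * Y ^ 5
def sb0 (X Y : ℝ) : ℝ :=
    36975 - 37 * X + 22559 * Y - 104857 * X ^ 2 - 56591 * X * Y - 193375 * Y ^ 2 - 4656 * X ^ 3 - 20969 * X ^ 2
    * Y + 4324 * X * Y ^ 2 - 31706 * Y ^ 3 + 78270 * X ^ 4 + 97201 * X ^ 3 * Y + 258559 * X ^ 2 * Y ^ 2 + 57194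
    * X * Y ^ 3 + 193155 * Y ^ 4
def sb1 (X Y : ℝ) : ℝ :=
    52670 * X + 1661 * Y - 36472 * X ^ 2 + 13491 * X * Y - 7416 * Y ^ 2 - 74089 * X ^ 3 - 21065 * X ^ 2 * Y -
    178629 * X * Y ^ 2 - 24988 * Y ^ 3 + 58163 * X ^ 4 + 39149 * X ^ 3 * Y + 40419 * X ^ 2 * Y ^ 2 + 7526 * X *
    Y ^ 3 + 52921 * Y ^ 4
def sb2 (X Y : ℝ) : ℝ :=
    63339 * Y + 13853 * X ^ 2 - 125248 * X * Y - 45610 * Y ^ 2 - 9374 * X ^ 3 - 100810 * X ^ 2 * Y + 37830 * X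
    * Y ^ 2 - 123365 * Y ^ 3 - 7197 * X ^ 4 + 133054 * X ^ 3 * Y + 65167 * X ^ 2 * Y ^ 2 + 241442 * X * Y ^ 3 +
    50510 * Y ^ 4
def sb3 (X Y : ℝ) : ℝ :=
    76180 * X ^ 2 - 35557 * X * Y - 6559 * Y ^ 2 - 4810 * X ^ 3 + 55851 * X ^ 2 * Y + 20343 * X * Y ^ 2 - 9838
    * Y ^ 3 - 73459 * X ^ 4 + 17274 * X ^ 3 * Y - 300946 * X ^ 2 * Y ^ 2 + 69988 * X * Y ^ 3 + 60580 * Y ^ 4
def sb4 (X Y : ℝ) : ℝ :=
    152652 * X * Y + 32422 * Y ^ 2 + 23058 * X ^ 3 - 91149 * X ^ 2 * Y - 78474 * X * Y ^ 2 - 7692 * Y ^ 3 -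
    24543 * X ^ 4 - 259030 * X ^ 3 * Y + 133197 * X ^ 2 * Y ^ 2 - 236233 * X * Y ^ 3 - 62540 * Y ^ 4
def sb5 (X Y : ℝ) : ℝ :=
    117634 * Y ^ 2 + 3403 * X ^ 3 + 39807 * X ^ 2 * Y - 137788 * X * Y ^ 2 - 104030 * Y ^ 3 + 1776 * X ^ 4 +
    10332 * X ^ 3 * Y - 184244 * X ^ 2 * Y ^ 2 + 220241 * X * Y ^ 3 - 88451 * Y ^ 4
def sb6 (X Y : ℝ) : ℝ :=
    48628 * X ^ 3 - 81664 * X ^ 2 * Y - 153420 * X * Y ^ 2 - 41797 * Y ^ 3 - 46119 * X ^ 4 - 8080 * X ^ 3 * Y +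
    341897 * X ^ 2 * Y ^ 2 + 221403 * X * Y ^ 3 + 28090 * Y ^ 4
def sb7 (X Y : ℝ) : ℝ :=
    140444 * X ^ 2 * Y - 27369 * X * Y ^ 2 - 56966 * Y ^ 3 + 2930 * X ^ 4 + 83722 * X ^ 3 * Y - 229212 * X ^ 2
    * Y ^ 2 - 29500 * X * Y ^ 3 + 57409 * Y ^ 4
def sb8 (X Y : ℝ) : ℝ :=
    205940 * X * Y ^ 2 + 101642 * Y ^ 3 + 9141 * X ^ 4 + 5551 * X ^ 3 * Y - 14688 * X ^ 2 * Y ^ 2 - 325913 * X
    * Y ^ 3 - 144271 * Y ^ 4
def sb9 (X Y : ℝ) : ℝ :=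
    66661 * Y ^ 3 - 1362 * X ^ 4 + 33430 * X ^ 3 * Y + 18188 * X ^ 2 * Y ^ 2 - 91794 * X * Y ^ 3 - 69920 * Y ^
    4
def sb10 (X Y : ℝ) : ℝ :=
    23944 * X ^ 4 + 7841 * X ^ 3 * Y - 5457 * X ^ 2 * Y ^ 2 + 11945 * X * Y ^ 3 + 20020 * Y ^ 4
def sb11 (X Y : ℝ) : ℝ :=
    154657 * X ^ 3 * Y + 68099 * X ^ 2 * Y ^ 2 - 156652 * X * Y ^ 3 - 41823 * Y ^ 4
def sb12 (X Y : ℝ) : ℝ :=
    225122 * X ^ 2 * Y ^ 2 + 47553 * X * Y ^ 3 - 17390 * Y ^ 4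
def sb13 (X Y : ℝ) : ℝ :=
    193174 * X * Y ^ 3 + 59304 * Y ^ 4
def sb14 (X Y : ℝ) : ℝ :=
    89122 * Y ^ 4

/-- evaluation of a list of monomials -/
def evL : List (ℤ × ℕ × ℕ) → ℝ → ℝ → ℝ
  | [], _, _ => 0
  | (c, a, b) :: l, X, Y => (c : ℝ) * X ^ a * Y ^ b + evL l X Y

/-- the sum of the absolute values of the coefficients -/
def abL : List (ℤ × ℕ × ℕ) → ℤ
  | [] => 0
  | (c, _, _) :: l => |c| + abL l

theorem evL_le {X Y : ℝ} (hX : |X| ≤ 1) (hY : |Y| ≤ 1) : ∀ l : List (ℤ × ℕ × ℕ), |evL l X Y| ≤ (abL l : ℝ)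
  | [] => by simp [evL, abL]
  | (c, a, b) :: l => by
    have h := evL_le hX hY l
    have h1 : |(c : ℝ) * X ^ a * Y ^ b| ≤ |(c : ℝ)| := by
      rw [abs_mul, abs_mul, abs_pow, abs_pow]
      have h2 := pow_le_one₀ (n := a) (abs_nonneg X) hX
      have h3 := pow_le_one₀ (n := b) (abs_nonneg Y) hY
      have h4 : |X| ^ a * |Y| ^ b ≤ 1 := mul_le_one₀ h2 (by positivity) h3
      calc |(c : ℝ)| * |X| ^ a * |Y| ^ b = |(c : ℝ)| * (|X| ^ a * |Y| ^ b) := by ring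
        _ ≤ |(c : ℝ)| * 1 := mul_le_mul_of_nonneg_left h4 (abs_nonneg _)
        _ = |(c : ℝ)| := mul_one _
    show |(c : ℝ) * X ^ a * Y ^ b + evL l X Y| ≤ ((|c| + abL l : ℤ) : ℝ)
    push_cast
    exact (abs_add_le _ _).trans (add_le_add h1 h)

/-- the residual -/
def resL : List (ℤ × ℕ × ℕ) := [
    (-106001878662109375000, 0, 0), (16422736816406250000, 1, 0), (41003225097656250000, 0, 1),
    (301648054833984375000, 2, 0), (-124591184179687500000, 1, 1), (620621073413085937500, 0, 2),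
    (113643637207031250000, 3, 0), (95014373437500000000, 2, 1), (-182317434814453125000, 1, 2),
    (-793270263134765625000, 0, 3), (-464470558406250000000, 4, 0), (401023353328125000000, 3, 1),
    (-540850205428710937500, 2, 2), (1702154946679687500000, 1, 3), (-456585334863281250000, 0, 4),
    (-654085481145937500000, 5, 0), (-1166006589335156250000, 4, 1), (-1007224637912109375000, 3, 2),
    (367703923511718750000, 2, 3), (-796859660888671875000, 1, 4), (2014513041943359375000, 0, 5),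
    (539624948076431250000, 6, 0), (-22665965085843750000, 5, 1), (545213953459687500000, 4, 2),
    (-2379298275285937500000, 3, 3), (-1559612846979492187500, 2, 4), (-1985702842792968750000, 1, 5),
    (-676442258056640625000, 0, 6), (907567009561055250000, 7, 0), (1963079562741907500000, 6, 1),
    (4089869710419075000000, 5, 2), (2321067008744859375000, 4, 3), (2847104987120625000000, 3, 4),
    (-601346141653125000000, 2, 5), (1764857268732421875000, 1, 6), (-1695978419421386718750, 0, 7),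
    (-144127106540868000000, 8, 0), (-1283197595086680900000, 7, 1), (-1725738468385879125000, 6, 2),
    (-3056963659690318125000, 5, 3), (193519513976910937500, 4, 4), (416060591738859375000, 3, 5),
    (3175801058042929687500, 2, 6), (229388978465625000000, 1, 7), (530245013750976562500, 0, 8),
    (-444202227776137010400, 9, 0), (-757145656711467408000, 8, 1), (-2476139669226552285000, 7, 2),
    (-1512412135497200850000, 6, 3), (-3253088307009745875000, 5, 4), (-2550968982588736875000, 4, 5),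
    (-1920458049452971875000, 3, 6), (142519168409062500000, 2, 7), (-531582629990156250000, 1, 8),
    (607207378587304687500, 0, 9), (-62080711240788763776, 10, 0), (1184772558750000000000, 9, 1),
    (606207548364893131800, 8, 2), (4444844001855468750000, 7, 3), (1296470179134884242500, 6, 4),
    (3523990766806640625000, 5, 5), (723223851782080687500, 4, 6), (469120160888671875000, 3, 7),
    (-1174285646336240625000, 2, 8), (-57854897460937500000, 1, 9), (-50670553045341796875, 0, 10)]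

def SA (X Y : ℝ) : ℝ :=
    sa0 X Y ^ 2 + sa1 X Y ^ 2 + sa2 X Y ^ 2 + sa3 X Y ^ 2 + sa4 X Y ^ 2 + sa5 X Y ^ 2 + sa6 X Y ^ 2 + sa7 X Y ^
    2 + sa8 X Y ^ 2 + sa9 X Y ^ 2 + sa10 X Y ^ 2 + sa11 X Y ^ 2 + sa12 X Y ^ 2 + sa13 X Y ^ 2 + sa14 X Y ^ 2 +
    sa15 X Y ^ 2 + sa16 X Y ^ 2 + sa17 X Y ^ 2 + sa18 X Y ^ 2 + sa19 X Y ^ 2 + sa20 X Y ^ 2

def SB (X Y : ℝ) : ℝ :=
    sb0 X Y ^ 2 + sb1 X Y ^ 2 + sb2 X Y ^ 2 + sb3 X Y ^ 2 + sb4 X Y ^ 2 + sb5 X Y ^ 2 + sb6 X Y ^ 2 + sb7 X Y ^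
    2 + sb8 X Y ^ 2 + sb9 X Y ^ 2 + sb10 X Y ^ 2 + sb11 X Y ^ 2 + sb12 X Y ^ 2 + sb13 X Y ^ 2 + sb14 X Y ^ 2

theorem SA_nn (X Y : ℝ) : 0 ≤ SA X Y := by unfold SA; positivity

theorem SB_nn (X Y : ℝ) : 0 ≤ SB X Y := by unfold SB; positivity

theorem ident (X Y : ℝ) : 1 - CC (39 / 25 * X) (9 / 10 * Y) ^ 2 - TT (39 / 25 * X) (9 / 10 * Y) ^ 2 / 3 =
    2 / 10000 + SA X Y / 10 ^ 12 + (121 / 50 - (39 / 25 * X) ^ 2 - 3 * (9 / 10 * Y) ^ 2) * SB X Y / 10 ^ 12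
      + evL resL X Y / 886230468750000000000000000 := by
  simp only [SA, SB, sa0, sa1, sa2, sa3, sa4, sa5, sa6, sa7, sa8, sa9, sa10, sa11, sa12, sa13, sa14, sa15, sa16, sa17, sa18, sa19, sa20, sb0, sb1, sb2, sb3, sb4, sb5, sb6, sb7, sb8, sb9, sb10, sb11, sb12, sb13, sb14, CC, TT, Cee, Cc2, Ceo, Coe, Coo, resL, evL]
  push_cast
  ring

theorem abL_res : abL resL ≤ 886230468750000000000000000 / 10000 := by decide +kernel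

/-- THE FIELD IS IN THE UNIT DISC -/
theorem field_le {x y : ℝ} (h : x ^ 2 + 3 * y ^ 2 ≤ 121 / 50) : CC x y ^ 2 + TT x y ^ 2 / 3 ≤ 1 := by
  have hX : |x * (25 / 39)| ≤ 1 := by
    rw [abs_le]; constructor <;> nlinarith [sq_nonneg y]
  have hY : |y * (10 / 9)| ≤ 1 := by
    rw [abs_le]; constructor <;> nlinarith [sq_nonneg x]
  have h1 := ident (x * (25 / 39)) (y * (10 / 9))
  have ex : 39 / 25 * (x * (25 / 39)) = x := by ring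
  have ey : 9 / 10 * (y * (10 / 9)) = y := by ring
  rw [ex, ey] at h1
  have h2 := evL_le hX hY resL
  have h3 : (abL resL : ℝ) ≤ ((886230468750000000000000000 / 10000 : ℤ) : ℝ) := by exact_mod_cast abL_res
  have h4 := SA_nn (x * (25 / 39)) (y * (10 / 9))
  have h5 := SB_nn (x * (25 / 39)) (y * (10 / 9))
  have h6 : 0 ≤ (121 / 50 - x ^ 2 - 3 * y ^ 2) * SB (x * (25 / 39)) (y * (10 / 9)) :=
    mul_nonneg (by linarith) h5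
  have h7 := (abs_le.1 h2).1
  have h8 : ((886230468750000000000000000 / 10000 : ℤ) : ℝ) ≤ 886230468750000000000000000 / 10000 := by
    norm_num
  have h9 : -(1 / 10000 : ℝ) ≤ evL resL (x * (25 / 39)) (y * (10 / 9)) / 886230468750000000000000000 := by
    rw [le_div_iff₀ (by norm_num)]
    linarith
  have h10 : 0 ≤ SA (x * (25 / 39)) (y * (10 / 9)) / 10 ^ 12 := by positivity
  have h11 : 0 ≤ (121 / 50 - x ^ 2 - 3 * y ^ 2) * SB (x * (25 / 39)) (y * (10 / 9)) / 10 ^ 12 := by positivity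
  linarith

end

end Pool.Agent.Helper51.RC
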