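import Pool.Agent.Helper51.RC.M_FR
import Pool.Agent.Helper51.RC.M_FT
import Pool.Agent.Helper20.RC.M_FT2
import Pool.Agent.Helper20.RC.M_FK

/-!
# Project RC, SHARP: the far lemma with a general half width of the ramp

Module (R) for every half width `D > 0` (statement `StR` is the case `D = 1/4`).
-/

open MeasureTheory Set Filter Topology

namespace Pool.Agent.Helper51.FY

open Helper49.LT hiding sg
open Helper49.RC Helper87.RC Helper44.GQ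
open Helper56.RC (fc)
open Helper44.RCG (AQQG G1 G2 G1_meas G2_meas G1_le G2_le)
open Helper44.Far
open Pool.Agent.Helper20.RC (wR al mom wR_wgt al_meas)
open Pool.Agent.Helper51.RC

/-- the constants of the ramp of half width `D` -/
noncomputable def PG (D : ℝ) (n : ℕ) : ℝ := Real.sin ((2 * (n : ℝ) + 3) * D) / ((2 * (n : ℝ) + 3) ^ 2 * D)
noncomputable def RG (D : ℝ) (n : ℕ) : ℝ := Real.sin ((2 * (n : ℝ) + 1) * D) / ((2 * (n : ℝ) + 1) ^ 2 * D)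
noncomputable def kG (D : ℝ) : ℝ := Real.sin D / D

/-- the coefficient of `conj ν` of `AQQ`, half width `D` -/
noncomputable def XRG (D : ℝ) (n : ℕ) (β γ : ℂ) : ℂ :=
  (Real.sqrt 3 / 2 : ℂ) * (-1) ^ (n + 1) *
    (((RG D n - PG D n : ℝ) : ℂ) * β - 2 * Complex.I * ((PG D n + RG D n : ℝ) : ℂ) * γ)

/-- the total coefficient of `conj ν` after the subtraction of `(1/4)` (I), half width `D` -/
noncomputable def XXG (D : ℝ) (n : ℕ) (β γ : ℂ) : ℂ :=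
  XC n β γ + XRG D n β γ - 1 / 4 * (ebar n β γ / (MM n : ℂ))

theorem sk_pg {D : ℝ} (hD : 0 < D) (n : ℕ) : sk D (2 * ((n : ℤ) + 1) + 1) / (2 * (n : ℝ) + 3) = PG D n := by
  unfold sk PG
  push_cast
  have e : (2 * ((n : ℝ) + 1) + 1) = 2 * (n : ℝ) + 3 := by ring
  rw [e]
  have h : (2 * (n : ℝ) + 3) ≠ 0 := by positivity
  have hD' := hD.ne'
  field_simp

theorem sk_rg {D : ℝ} (hD : 0 < D) (n : ℕ) : sk D (2 * (-((n : ℤ) + 1)) + 1) / (2 * (n : ℝ) + 1) = RG D n := by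
  unfold sk RG
  push_cast
  have h : (2 * (n : ℝ) + 1) ≠ 0 := by positivity
  have hD' := hD.ne'
  have e3 : (2 * (-((n : ℝ) + 1)) + 1) * D = -((2 * (n : ℝ) + 1) * D) := by ring
  rw [e3, Real.sin_neg]
  field_simp

/-- one pair of frequencies -/
theorem pair_termG {D : ℝ} (hD : 0 < D) (b g1 g2 : ℝ → ℂ) {D1 D2 : ℝ} (h1 : BM g1 D1) (h2 : BM g2 D2) {z : ℝ → ℂ}
    (h : AdmQ 2 b z) (n : ℕ) :
    ((sk D (2 * ((n : ℤ) + 1) + 1) : ℂ) * (fc (gm b) (2 * ((n : ℤ) + 1)) / (2 * (((n : ℤ) + 1 : ℤ) : ℂ) + 1))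
      * (-Complex.I * (-1) ^ ((n : ℤ) + 1)) * (starRingEnd ℂ) (nu g1 g2 (2 * ((n : ℤ) + 1)))).re
    + ((sk D (2 * (-((n : ℤ) + 1)) + 1) : ℂ)
      * (fc (gm b) (2 * (-((n : ℤ) + 1))) / (2 * ((-((n : ℤ) + 1) : ℤ) : ℂ) + 1))
      * (-Complex.I * (-1) ^ (-((n : ℤ) + 1))) * (starRingEnd ℂ) (nu g1 g2 (2 * (-((n : ℤ) + 1))))).re
    = 2 * (XRG D n (be b (fm n)) (ga b (fm n)) * (starRingEnd ℂ) (nu g1 g2 (fm n))).re := by
  have h0 : (2 * ((n : ℤ) + 1)) ≠ 0 := by omega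
  have h0' : (2 * (-((n : ℤ) + 1))) ≠ 0 := by omega
  rw [fc_gm h, fc_gm h, if_neg h0, if_neg h0']
  have em : (2 * (-((n : ℤ) + 1)) : ℤ) = -(2 * ((n : ℤ) + 1)) := by ring
  rw [← sub_eq_zero]
  have ebe : be b (2 * (-((n : ℤ) + 1))) = (starRingEnd ℂ) (be b (2 * ((n : ℤ) + 1))) := by rw [em, be_neg]
  have ega : ga b (2 * (-((n : ℤ) + 1))) = (starRingEnd ℂ) (ga b (2 * ((n : ℤ) + 1))) := by rw [em, ga_neg]
  have enu : nu g1 g2 (2 * (-((n : ℤ) + 1))) = (starRingEnd ℂ) (nu g1 g2 (2 * ((n : ℤ) + 1))) := by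
    rw [em, nu_neg h1 h2]
  rw [ebe, ega, enu]
  have hfm : fm n = 2 * ((n : ℤ) + 1) := rfl
  rw [hfm]
  set β := be b (2 * ((n : ℤ) + 1))
  set γ := ga b (2 * ((n : ℤ) + 1))
  set ν := nu g1 g2 (2 * ((n : ℤ) + 1))
  have p1 : (-1 : ℂ) ^ ((n : ℤ) + 1) = (((-1 : ℝ) ^ (n + 1) : ℝ) : ℂ) := by
    have : ((n : ℤ) + 1) = ((n + 1 : ℕ) : ℤ) := by push_cast; rfl
    rw [this, zpow_natCast]
    push_cast
    rfl
  have p2 : (-1 : ℂ) ^ (-((n : ℤ) + 1)) = (((-1 : ℝ) ^ (n + 1) : ℝ) : ℂ) := by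
    rw [zpow_neg, p1]
    rcases neg_one_pow_eq_or ℝ (n + 1) with e | e <;> rw [e] <;> norm_num
  rw [p1, p2]
  unfold XRG
  have p3 : (-1 : ℂ) ^ (n + 1) = (((-1 : ℝ) ^ (n + 1) : ℝ) : ℂ) := by push_cast; rfl
  rw [p3]
  set ε := (-1 : ℝ) ^ (n + 1)
  rw [← sk_pg hD, ← sk_rg hD]
  set s1 := sk D (2 * ((n : ℤ) + 1) + 1)
  set s2 := sk D (2 * (-((n : ℤ) + 1)) + 1)
  have hp1 : (2 * (n : ℝ) + 3) ≠ 0 := by positivity
  have hp2 : (2 * (n : ℝ) + 1) ≠ 0 := by positivity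
  have ea : ((s1 : ℂ) * ((Real.sqrt 3 * Complex.I * 0 + -(Real.sqrt 3 * Complex.I) * β + 2 * Real.sqrt 3 * γ) /
      (2 * (((n : ℤ) + 1 : ℤ) : ℂ) + 1)) * (-Complex.I * (ε : ℂ)) * (starRingEnd ℂ) ν) =
      ((s1 / (2 * (n : ℝ) + 3) * Real.sqrt 3 * ε : ℝ) : ℂ) * ((-β - 2 * Complex.I * γ) * (starRingEnd ℂ) ν) := by
    have hpc : (2 * (n : ℂ) + 3) ≠ 0 := by exact_mod_cast hp1
    have hpc' : (2 * (((n : ℤ) + 1 : ℤ) : ℂ) + 1) = 2 * (n : ℂ) + 3 := by push_cast; ring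
    rw [hpc']
    push_cast
    field_simp
    linear_combination (s1 : ℂ) * (ε : ℂ) * β * (starRingEnd ℂ) ν * Complex.I_sq
  have eb : ((s2 : ℂ) * ((Real.sqrt 3 * Complex.I * 0 + -(Real.sqrt 3 * Complex.I) * (starRingEnd ℂ) β
      + 2 * Real.sqrt 3 * (starRingEnd ℂ) γ) /
      (2 * ((-((n : ℤ) + 1) : ℤ) : ℂ) + 1)) * (-Complex.I * (ε : ℂ)) * (starRingEnd ℂ) ((starRingEnd ℂ) ν)) =
      ((s2 / (2 * (n : ℝ) + 1) * Real.sqrt 3 * ε : ℝ) : ℂ) *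
        ((starRingEnd ℂ) ((β - 2 * Complex.I * γ) * (starRingEnd ℂ) ν)) := by
    have hpc : (2 * (n : ℂ) + 1) ≠ 0 := by exact_mod_cast hp2
    have hpc' : (2 * ((-((n : ℤ) + 1) : ℤ) : ℂ) + 1) = -(2 * (n : ℂ) + 1) := by push_cast; ring
    rw [hpc']
    simp only [map_mul, map_sub, Complex.conj_I, Complex.conj_conj, map_ofNat]
    push_cast
    field_simp
    linear_combination (-(s2 : ℂ) * (ε : ℂ) * (starRingEnd ℂ) β * ν) * Complex.I_sq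
  rw [ea, eb, Complex.re_ofReal_mul, Complex.re_ofReal_mul, Complex.conj_re]
  have ec : ((Real.sqrt 3 / 2 : ℂ) * (ε : ℂ) *
      (((s2 / (2 * (n : ℝ) + 1) - s1 / (2 * (n : ℝ) + 3) : ℝ) : ℂ) * β -
      2 * Complex.I * ((s1 / (2 * (n : ℝ) + 3) + s2 / (2 * (n : ℝ) + 1) : ℝ) : ℂ) * γ) * (starRingEnd ℂ) ν) =
      ((s1 / (2 * (n : ℝ) + 3) * Real.sqrt 3 * ε / 2 : ℝ) : ℂ) * ((-β - 2 * Complex.I * γ) * (starRingEnd ℂ) ν)
      + ((s2 / (2 * (n : ℝ) + 1) * Real.sqrt 3 * ε / 2 : ℝ) : ℂ) *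
        ((β - 2 * Complex.I * γ) * (starRingEnd ℂ) ν) := by
    push_cast
    ring
  rw [ec, Complex.add_re, Complex.re_ofReal_mul, Complex.re_ofReal_mul]
  ring

/-- MODULE (R), half width `D` -/
theorem hRG {D : ℝ} (hD : 0 < D) {b z : ℝ → ℂ} (h : AdmQ 2 b z) :
    ∃ L : ℝ, L ≤ AQQG (AAQ w1 2 b) (BBQ w1 2 b) (vvS w1 z) ∧
    Tendsto (fun N : ℕ => Real.sqrt 3 * kG D * (1 - (be b 0).re) * (nu (F1Q w1 2 b z) (F2Q w1 2 b z) 0).re
      + ∑ n ∈ Finset.range N, 2 * (XRG D n (be b (fm n)) (ga b (fm n))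
        * (starRingEnd ℂ) (nu (F1Q w1 2 b z) (F2Q w1 2 b z) (fm n))).re) atTop (𝓝 L) := by
  obtain ⟨C, hC⟩ := hexQ (by norm_num : (0 : ℝ) < 2) h w1_wgt
  have b1 : BM (F1Q w1 2 b z) (2 * C) := ⟨G1_meas hC.q, G1_le hC.q⟩
  have b2 : BM (F2Q w1 2 b z) (2 * C) := ⟨G2_meas hC.q, G2_le hC.q⟩
  obtain ⟨R, hR, hs⟩ := ramp_nu h hD
  refine ⟨R, hR, ?_⟩
  have h1 := nat_split1 hs
  have h2 := h1.congr_fun (fun n => (pair_termG hD b _ _ b1 b2 h n).symm)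
  have h3 := h2.tendsto_sum_nat
  have h4 := h3.const_add (Real.sqrt 3 * kG D * (1 - (be b 0).re) * (nu (F1Q w1 2 b z) (F2Q w1 2 b z) 0).re)
  have e0 : ((sk D (2 * 0 + 1) : ℂ) * (fc (gm b) (2 * 0) / (2 * ((0 : ℤ) : ℂ) + 1))
      * (-Complex.I * (-1) ^ (0 : ℤ)) * (starRingEnd ℂ) (nu (F1Q w1 2 b z) (F2Q w1 2 b z) (2 * 0))).re =
      Real.sqrt 3 * kG D * (1 - (be b 0).re) * (nu (F1Q w1 2 b z) (F2Q w1 2 b z) 0).re := by
    have hsk : sk D (2 * 0 + 1) = kG D := by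
      unfold sk kG
      norm_num
    rw [hsk]
    rw [mul_zero, fc_gm h, if_pos rfl]
    have hb : (be b 0) = (((be b 0).re : ℝ) : ℂ) := by
      have h5 := be_neg b 0
      rw [neg_zero] at h5
      exact (Complex.conj_eq_iff_re.1 h5.symm).symm
    have hg : (ga b 0) = (((ga b 0).re : ℝ) : ℂ) := by
      have h5 := ga_neg b 0
      rw [neg_zero] at h5
      exact (Complex.conj_eq_iff_re.1 h5.symm).symm
    have hn : (nu (F1Q w1 2 b z) (F2Q w1 2 b z) 0) = (((nu (F1Q w1 2 b z) (F2Q w1 2 b z) 0).re : ℝ) : ℂ) := by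
      have h5 := nu_neg b1 b2 0
      rw [neg_zero] at h5
      exact (Complex.conj_eq_iff_re.1 h5.symm).symm
    rw [hb, hg, hn, Complex.conj_ofReal]
    simp only [Int.cast_zero, mul_zero, zero_add, div_one, zpow_zero, mul_one]
    set x := (be b 0).re
    set y := (ga b 0).re
    set v := (nu (F1Q w1 2 b z) (F2Q w1 2 b z) 0).re
    have e : (kG D : ℂ) * ((Real.sqrt 3 : ℂ) * Complex.I + -((Real.sqrt 3 : ℂ) * Complex.I) * (x : ℂ)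
        + 2 * (Real.sqrt 3 : ℂ) * (y : ℂ)) * -Complex.I * (v : ℂ) =
        ((Real.sqrt 3 * kG D * (1 - x) * v : ℝ) : ℂ) + ((-(2 * Real.sqrt 3 * kG D * y * v) : ℝ) : ℂ) * Complex.I := by
      push_cast
      linear_combination (-(kG D : ℂ) * (Real.sqrt 3 : ℂ) * (v : ℂ) * (1 - (x : ℂ))) * Complex.I_sq
    rw [e, Complex.add_re, Complex.re_ofReal_mul, Complex.I_re, mul_zero, add_zero]
    simp only [Complex.ofReal_re]
  rw [e0] at h4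
  rw [add_sub_cancel] at h4
  exact h4

end Pool.Agent.Helper51.FY
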