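import Pool.Agent.Helper51.RC.M_FY2
import Pool.Agent.Helper44.RC.M_FX3

/-!
# Project RC, SHARP: THE STRONGER FAR LEMMA

`1/5 ≤ S' + (3/4) ⟨b₂²⟩ + (1/2) ⟨b₃²⟩` implies `9 mQ² ≤ FMQ` (weight `1`). Half width `D = 3/10`.
-/

open MeasureTheory Set Filter Topology

namespace Pool.Agent.Helper51.FY

open Helper49.LT hiding sg
open Helper49.RC Helper87.RC Helper44.GQ
open Helper56.RC (fc)
open Helper44.RCG (Hex A00G A0QG AQQG G1 G2 sgG N0)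
open Helper44.Far
open Pool.Agent.Helper20.RC (ft2_ee1 ft2_ee2 sq3C)
open Pool.Agent.Helper51.RC (quad_core im_bd s3lo s3hi)

variable {b z : ℝ → ℂ}

/-- (T), `m = 2`, with the prices -/
def StT2Y : Prop := ∀ β γ ν : ℂ,
  99 / 20 * ‖β‖ ^ 2 + 33 / 10 * ‖γ‖ ^ 2 ≤ 82 / 5 * (‖β‖ ^ 2 + ‖γ‖ ^ 2) + cA 0 β γ
    + 2 * (XXG (3 / 10) 0 β γ * (starRingEnd ℂ) ν).re + 1 / 6 * ‖ν‖ ^ 2
    + 8 / 15 * ‖ν + β - Complex.I * γ‖ ^ 2

/-- the constant part, with the prices -/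
def StConstY : Prop := ∀ ν0 β0 γ0 X Y : ℝ, |β0| ≤ 1 → 0 ≤ ν0 - 2 + β0 → ν0 ≤ 13 → 0 ≤ X → 0 ≤ Y →
  1 / 5 ≤ ν0 - 2 + β0 + 3 / 4 * (β0 ^ 2 + X) + 1 / 2 * (γ0 ^ 2 + Y) →
  0 ≤ 2 * (1 + β0) * ν0 + Real.sqrt 3 * kG (3 / 10) * (1 - β0) * ν0 + (1 + β0) ^ 2 + γ0 ^ 2 / 4 - 9
    + 41 / 5 * (β0 ^ 2 + γ0 ^ 2) - 1 / 4 * (ν0 * (ν0 - (2 - β0))) + 99 / 40 * X + 33 / 20 * Y

theorem sin9b : 744 / 1000 ≤ Real.sin (9 / 10) ∧ Real.sin (9 / 10) ≤ 813 / 1000 := by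
  have h := Real.sin_bound (x := 9 / 10) (by rw [abs_of_nonneg (by norm_num)]; norm_num)
  have h1 := abs_le.1 h
  rw [abs_of_nonneg (by norm_num : (0 : ℝ) ≤ 9 / 10)] at h1
  norm_num at h1
  constructor <;> linarith [h1.1, h1.2]

theorem sin3b : 2955 / 10000 ≤ Real.sin (3 / 10) ∧ Real.sin (3 / 10) ≤ 29593 / 100000 := by
  have h := Real.sin_bound (x := 3 / 10) (by rw [abs_of_nonneg (by norm_num)]; norm_num)
  have h1 := abs_le.1 h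
  rw [abs_of_nonneg (by norm_num : (0 : ℝ) ≤ 3 / 10)] at h1
  have h2 := Real.sin_gt_sub_cube (x := 3 / 10) (by norm_num)
  norm_num at h1 h2
  constructor <;> linarith [h1.1, h1.2]

theorem PG0 : 275 / 1000 ≤ PG (3 / 10) 0 ∧ PG (3 / 10) 0 ≤ 3012 / 10000 := by
  obtain ⟨h1, h2⟩ := sin9b
  have e : PG (3 / 10) 0 = 10 / 27 * Real.sin (9 / 10) := by
    unfold PG
    norm_num
    ring
  rw [e]
  constructor <;> linarith

theorem RG0 : 985 / 1000 ≤ RG (3 / 10) 0 ∧ RG (3 / 10) 0 ≤ 9865 / 10000 := by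
  obtain ⟨h1, h2⟩ := sin3b
  have e : RG (3 / 10) 0 = 10 / 3 * Real.sin (3 / 10) := by
    unfold RG
    norm_num
    ring
  rw [e]
  constructor <;> linarith

/-- the constants of the first coefficient -/
noncomputable def fya : ℝ := 2 / 3 + Real.sqrt 3 / 2 * (RG (3 / 10) 0 - PG (3 / 10) 0) + 7 / 24
noncomputable def fyc : ℝ := 2 / 3 + Real.sqrt 3 * (PG (3 / 10) 0 + RG (3 / 10) 0) + 37 / 96

theorem XXG_0 (β γ : ℂ) : XXG (3 / 10) 0 β γ = -(fya : ℂ) * β + Complex.I * (fyc : ℂ) * γ := by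
  have h3 := sq3C
  have hM : MM 0 = 3 := by unfold MM; norm_num
  unfold XXG XC XRG ebar
  rw [ft2_ee1, ft2_ee2, hM]
  unfold fya fyc
  have hI : Complex.I ^ 2 = -1 := Complex.I_sq
  push_cast
  linear_combination ((1 / 12 : ℂ) * Complex.I ^ 2 * β) * h3 + (1 / 4 : ℂ) * β * hI + (5 / 96 : ℂ) * Complex.I * γ * h3

theorem fy_bounds : 155 / 100 ≤ fya ∧ fya ≤ 1575 / 1000 ∧ 3234 / 1000 ≤ fyc ∧ fyc ≤ 3283 / 1000 := by
  obtain ⟨p1, p2⟩ := PG0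
  obtain ⟨r1, r2⟩ := RG0
  have s1 := s3lo
  have s2 := s3hi
  unfold fya fyc
  set P := PG (3 / 10) 0
  set R := RG (3 / 10) 0
  set s := Real.sqrt 3
  refine ⟨?_, ?_, ?_, ?_⟩
  · nlinarith [mul_nonneg (by linarith : (0 : ℝ) ≤ s - 1732 / 1000) (by linarith : (0 : ℝ) ≤ R - P - 6838 / 10000)]
  · nlinarith [mul_nonneg (by linarith : (0 : ℝ) ≤ 17321 / 10000 - s) (by linarith : (0 : ℝ) ≤ R - P)]
  · nlinarith [mul_nonneg (by linarith : (0 : ℝ) ≤ s - 1732 / 1000) (by linarith : (0 : ℝ) ≤ P + R - 126 / 100)]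
  · nlinarith [mul_nonneg (by linarith : (0 : ℝ) ≤ 17321 / 10000 - s) (by linarith : (0 : ℝ) ≤ P + R)]

/-- MODULE (T2Y) -/
theorem hT2Y : StT2Y := by
  intro β γ ν
  obtain ⟨a1, a2, c1, c2⟩ := fy_bounds
  have hM : MM 0 = 3 := by unfold MM; norm_num
  rw [XXG_0]
  unfold cA
  rw [hM]
  set a := fya
  set c := fyc
  set u : ℝ := 8 / 15 - a with hu
  set v : ℝ := c - 8 / 15 with hv
  have hu0 : -(1042 / 1000) ≤ u := by rw [hu]; linarith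
  have hu0' : u ≤ -(1016 / 1000) := by rw [hu]; linarith
  have hv0 : 27 / 10 ≤ v := by rw [hv]; linarith
  have hv0' : v ≤ 275 / 100 := by rw [hv]; linarith
  have hu1 : u ^ 2 ≤ 1086 / 1000 := by nlinarith
  have hv1 : v ^ 2 ≤ 7563 / 1000 := by nlinarith
  have huv : 0 ≤ -(u * v) := by nlinarith
  have huv2 : -(u * v) ≤ 2866 / 1000 := by nlinarith
  -- the form in β, γ
  have hp : 0 ≤ 229 / 20 - 2 / 3 + 8 / 15 - 10 / 7 * u ^ 2 := by linarith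
  have hq : 0 ≤ 131 / 10 - 1 / 6 + 8 / 15 - 10 / 7 * v ^ 2 := by linarith
  have hr : (2 / 15 - 10 / 7 * (u * v)) ^ 2 ≤
      (229 / 20 - 2 / 3 + 8 / 15 - 10 / 7 * u ^ 2) * (131 / 10 - 1 / 6 + 8 / 15 - 10 / 7 * v ^ 2) := by
    have h1 : (2 / 15 - 10 / 7 * (u * v)) ^ 2 ≤ (423 / 100) ^ 2 := sq_le_sq' (by linarith) (by linarith)
    have h2 : (97 / 10 : ℝ) * (26 / 10) ≤
        (229 / 20 - 2 / 3 + 8 / 15 - 10 / 7 * u ^ 2) * (131 / 10 - 1 / 6 + 8 / 15 - 10 / 7 * v ^ 2) :=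
      mul_le_mul (by linarith) (by linarith) (by norm_num) hp
    norm_num at h1 h2 ⊢
    linarith
  have h := quad_core hp hq hr (im_bd β γ)
  have e : ∀ z : ℂ, ‖z‖ ^ 2 = z.re ^ 2 + z.im ^ 2 := fun z => by rw [Complex.sq_norm, Complex.normSq_apply]; ring
  simp only [e] at h ⊢
  simp only [Complex.mul_re, Complex.mul_im, Complex.add_re, Complex.add_im, Complex.sub_re, Complex.sub_im,
    Complex.neg_re, Complex.neg_im, Complex.ofReal_re, Complex.ofReal_im, Complex.I_re, Complex.I_im,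
    Complex.conj_re, Complex.conj_im, Nat.cast_zero] at h ⊢
  have k1 : 0 ≤ (ν.re + (u * β.re - v * γ.im) * (10 / 7)) ^ 2 := sq_nonneg _
  have k2 : 0 ≤ (ν.im + (u * β.im + v * γ.re) * (10 / 7)) ^ 2 := sq_nonneg _
  have ea : a = 8 / 15 - u := by rw [hu]; ring
  have ec : c = v + 8 / 15 := by rw [hv]; ring
  rw [ea, ec]
  nlinarith [k1, k2, h]

theorem kG_ge : 985 / 1000 ≤ kG (3 / 10) := by
  unfold kG
  have h := sin3b.1
  rw [le_div_iff₀ (by norm_num)]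
  linarith

/-- MODULE (ConstY) -/
theorem hConstY : StConstY := by
  intro ν β γ X Y hβ hS0 hν hX hY hS
  obtain ⟨hb1, hb2⟩ := abs_le.1 hβ
  have hk := kG_ge
  have h3 : (173205 : ℝ) / 100000 ≤ Real.sqrt 3 := by
    apply Real.le_sqrt_of_sq_le; norm_num
  have hs : (1706 : ℝ) / 1000 ≤ Real.sqrt 3 * kG (3 / 10) := by
    nlinarith
  set s := Real.sqrt 3 * kG (3 / 10) with hsdef
  set σ := ν - 2 + β with hσ
  have hν1 : ν = 2 - β + σ := by rw [hσ]; ring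
  have hν0 : 0 ≤ ν := by linarith
  have h4 : 1706 / 1000 * (1 - β) * ν ≤ s * (1 - β) * ν := by
    have : 0 ≤ (1 - β) * ν := mul_nonneg (by linarith) hν0
    nlinarith
  have h9 : 0 ≤ γ ^ 2 := sq_nonneg γ
  by_cases hS1 : 1 / 5 ≤ σ
  · have h5 : 0 ≤ 2 * (1 + β) * ν + 1706 / 1000 * (1 - β) * ν + (1 + β) ^ 2 - 9 + 41 / 5 * β ^ 2
        - 1 / 4 * (ν * (ν - (2 - β))) := by
      -- concavity in ν between `a = 11/5 - β` and `13`
      set a := 11 / 5 - β with ha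
      have hfa : 0 ≤ 2 * (1 + β) * a + 1706 / 1000 * (1 - β) * a + (1 + β) ^ 2 - 9 + 41 / 5 * β ^ 2
        - 1 / 4 * (a * (a - (2 - β))) := by
        rw [ha]
        nlinarith [sq_nonneg (β - 57 / 1000)]
      have hf13 : 0 ≤ 2 * (1 + β) * 13 + 1706 / 1000 * (1 - β) * 13 + (1 + β) ^ 2 - 9 + 41 / 5 * β ^ 2
        - 1 / 4 * (13 * (13 - (2 - β))) := by
        nlinarith [sq_nonneg (β + 13 / 100)]
      have h6 := mul_nonneg (by linarith : 0 ≤ 13 - ν) hfa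
      have h7 := mul_nonneg (by linarith : 0 ≤ ν - a) hf13
      have h8 := mul_nonneg (mul_nonneg (by linarith : 0 ≤ ν - a) (by linarith : 0 ≤ 13 - ν))
        (by rw [ha]; linarith : 0 ≤ 13 - a)
      have h9 : 0 < 13 - a := by rw [ha]; linarith
      have h10 : 0 ≤ (13 - a) * (2 * (1 + β) * ν + 1706 / 1000 * (1 - β) * ν + (1 + β) ^ 2 - 9 + 41 / 5 * β ^ 2
        - 1 / 4 * (ν * (ν - (2 - β)))) := by nlinarith
      exact nonneg_of_mul_nonneg_right h10 h9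
    linarith
  push Not at hS1
  have h5 : 33 / 10 * (1 / 5 - σ) - 99 / 40 * β ^ 2 - 33 / 20 * γ ^ 2 ≤ 99 / 40 * X + 33 / 20 * Y := by linarith
  -- endpoints
  have hA : 0 ≤ 2 * (1 + β) * (2 - β) + 1706 / 1000 * (1 - β) * (2 - β) + (1 + β) ^ 2 - 9 + 41 / 5 * β ^ 2
      + 33 / 10 * (1 / 5) - 99 / 40 * β ^ 2 := by
    nlinarith [sq_nonneg (β - 87 / 1000)]
  have hB : 0 ≤ 2 * (1 + β) * (11 / 5 - β) + 1706 / 1000 * (1 - β) * (11 / 5 - β) + (1 + β) ^ 2 - 9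
      + 41 / 5 * β ^ 2 - 1 / 4 * ((11 / 5 - β) * (1 / 5)) - 99 / 40 * β ^ 2 := by
    nlinarith [sq_nonneg (β - 785 / 10000)]
  have h6 := mul_nonneg (by linarith : 0 ≤ 1 / 5 - σ) hA
  have h7 := mul_nonneg hS0 hB
  have h8 := mul_nonneg hS0 (by linarith : 0 ≤ 1 / 5 - σ)
  have key : 0 ≤ 2 * (1 + β) * ν + 1706 / 1000 * (1 - β) * ν + (1 + β) ^ 2 - 9 + 41 / 5 * β ^ 2
      - 1 / 4 * (ν * (ν - (2 - β))) + (33 / 10 * (1 / 5 - σ) - 99 / 40 * β ^ 2) := by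
    rw [hν1]
    nlinarith [h6, h7, h8]
  nlinarith [key, h4, h5, h9]

/-- **Parseval for `b₃`** -/
theorem far_B3 (h : AdmQ 2 b z) :
    Tendsto (fun N : ℕ => (ga b 0).re ^ 2 + ∑ n ∈ Finset.range N, 2 * ‖ga b (fm n)‖ ^ 2) atTop
      (𝓝 (1 / (2 * Real.pi) * ∫ t in (0 : ℝ)..(2 * Real.pi), (b t).im ^ 2)) := by
  have h1 := (far_B h).sub (far_B2 h)
  obtain ⟨δ, hδ, hbb⟩ := h.bdb
  have ir : IntervalIntegrable (fun t => (b t).re ^ 2) volume 0 (2 * Real.pi) := by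
    refine intg_of_bdd (C := 1) ((Complex.measurable_re.comp h.mb).pow_const 2) (fun t => ?_) _ _
    rw [abs_of_nonneg (sq_nonneg _), ← sq_abs]
    exact pow_le_one₀ (abs_nonneg _) ((Complex.abs_re_le_norm (b t)).trans ((hbb t).trans (by linarith)))
  have ii : IntervalIntegrable (fun t => (b t).im ^ 2) volume 0 (2 * Real.pi) := by
    refine intg_of_bdd (C := 1) ((Complex.measurable_im.comp h.mb).pow_const 2) (fun t => ?_) _ _
    rw [abs_of_nonneg (sq_nonneg _), ← sq_abs]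
    exact pow_le_one₀ (abs_nonneg _) ((Complex.abs_im_le_norm (b t)).trans ((hbb t).trans (by linarith)))
  have e : 1 / (2 * Real.pi) * (∫ t in (0 : ℝ)..(2 * Real.pi), ‖b t‖ ^ 2)
      - 1 / (2 * Real.pi) * (∫ t in (0 : ℝ)..(2 * Real.pi), (b t).re ^ 2)
      = 1 / (2 * Real.pi) * ∫ t in (0 : ℝ)..(2 * Real.pi), (b t).im ^ 2 := by
    have e1 : (∫ t in (0 : ℝ)..(2 * Real.pi), ‖b t‖ ^ 2) =
        (∫ t in (0 : ℝ)..(2 * Real.pi), (b t).re ^ 2) + ∫ t in (0 : ℝ)..(2 * Real.pi), (b t).im ^ 2 := by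
      rw [← intervalIntegral.integral_add ir ii]
      refine intervalIntegral.integral_congr fun t _ => ?_
      show ‖b t‖ ^ 2 = _
      rw [Complex.sq_norm, Complex.normSq_apply]
      ring
    rw [e1]
    ring
  rw [e] at h1
  refine h1.congr fun N => ?_
  have hs : ∑ n ∈ Finset.range N, 2 * (‖be b (fm n)‖ ^ 2 + ‖ga b (fm n)‖ ^ 2) =
      ∑ n ∈ Finset.range N, 2 * ‖be b (fm n)‖ ^ 2 + ∑ n ∈ Finset.range N, 2 * ‖ga b (fm n)‖ ^ 2 := by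
    rw [← Finset.sum_add_distrib]
    exact Finset.sum_congr rfl fun n _ => by ring
  rw [hs]
  ring

/-- THE STRONGER FAR LEMMA (statement) -/
def StFarY : Prop := ∀ b z : ℝ → ℂ, AdmQ 2 b z →
  1 / 5 ≤ Helper49.Sharp.Sp b z + 3 / 4 * Helper49.Sharp.mean (fun t => (b t).re ^ 2)
    + 1 / 2 * Helper49.Sharp.mean (fun t => (b t).im ^ 2) →
  9 * 1 * mQ w1 b ^ 2 ≤ FMQ w1 2 b z

/-- **THE STRONGER FAR LEMMA** -/
theorem hFARY_of (hI : StI) (hT4 : StT4Y) (hT2 : StT2Y) (hK : StK) (hC : StConstY) : StFarY := by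
  intro b z h hS
  obtain ⟨LA, hA1, hA⟩ := far_A h
  obtain ⟨LC, hC1, hCC⟩ := far_C h
  obtain ⟨LR, hR1, hRR⟩ := hRG (D := 3 / 10) (by norm_num) h
  obtain ⟨C, hb1, hb2⟩ := w1_bm1 h
  obtain ⟨Chex, hCh⟩ := hexQ (by norm_num : (0 : ℝ) < 2) h w1_wgt
  have p1 : ∀ θ, F1Q w1 2 b z (θ + 2 * Real.pi) = F1Q w1 2 b z θ := by
    intro θ
    have e : θ + 2 * Real.pi - Real.pi / 3 = θ - Real.pi / 3 + Real.pi + Real.pi := by ring
    show G1 (AAQ w1 2 b) (vvS w1 z) _ = G1 (AAQ w1 2 b) (vvS w1 z) _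
    unfold G1
    rw [e, hCh.q.pA, hCh.q.pA, hCh.q.pv, hCh.q.pv, neg_neg]
  have p2 : ∀ θ, F2Q w1 2 b z (θ + 2 * Real.pi) = F2Q w1 2 b z θ := by
    intro θ
    have e : θ + 2 * Real.pi - 2 * Real.pi / 3 = θ - 2 * Real.pi / 3 + Real.pi + Real.pi := by ring
    show G2 (BBQ w1 2 b) (vvS w1 z) _ = G2 (BBQ w1 2 b) (vvS w1 z) _
    unfold G2
    rw [e, hCh.q.pB, hCh.q.pB, hCh.q.pv, hCh.q.pv, neg_neg]
  obtain ⟨LI, hI0, hII⟩ := hI _ _ C C hb1 hb2 p1 p2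
  have hB := far_B h
  have hB2 := far_B2 h
  have hB3 := far_B3 h
  have hSS := far_S hK h
  have hT := Pool.Agent.Helper20.RC.target_wR h zero_le_half
  have hw : Pool.Agent.Helper20.RC.wR 0 0 0 = w1 := rfl
  rw [hw] at hT
  simp only [w1_one, one_mul] at hT
  have hspl := splQ (by norm_num : (0 : ℝ) < 2) h w1_wgt
  have hsp0 := Sp_nonneg h
  rw [nu0_Sp h] at hS hsp0
  unfold Helper49.Sharp.mean at hS
  set F1 := F1Q w1 2 b z with hF1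
  set F2 := F2Q w1 2 b z with hF2
  set B2 := 1 / (2 * Real.pi) * ∫ t in (0 : ℝ)..(2 * Real.pi), ‖b t‖ ^ 2 with hB2d
  set M2 := 1 / (2 * Real.pi) * ∫ t in (0 : ℝ)..(2 * Real.pi), (b t).re ^ 2 with hM2d
  set M3 := 1 / (2 * Real.pi) * ∫ t in (0 : ℝ)..(2 * Real.pi), (b t).im ^ 2 with hM3d
  set ν0 := (nu F1 F2 0).re with hν0
  set β0 := (be b 0).re with hβ0
  set γ0 := (ga b 0).re with hγ0
  have hν13 : ν0 ≤ 13 := nu0_le h
  have hβ1 : |β0| ≤ 1 := be0_abs h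
  have hX0 : 0 ≤ M2 - β0 ^ 2 := by
    have : β0 ^ 2 ≤ M2 := by
      refine ge_of_tendsto hB2 (Filter.Eventually.of_forall fun N => ?_)
      have : 0 ≤ ∑ n ∈ Finset.range N, 2 * ‖be b (fm n)‖ ^ 2 := Finset.sum_nonneg fun n _ => by positivity
      linarith
    linarith
  have hY0 : 0 ≤ M3 - γ0 ^ 2 := by
    have : γ0 ^ 2 ≤ M3 := by
      refine ge_of_tendsto hB3 (Filter.Eventually.of_forall fun N => ?_)
      have : 0 ≤ ∑ n ∈ Finset.range N, 2 * ‖ga b (fm n)‖ ^ 2 := Finset.sum_nonneg fun n _ => by positivity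
      linarith
    linarith
  have hCon := hC ν0 β0 γ0 (M2 - β0 ^ 2) (M3 - γ0 ^ 2) hβ1 hsp0 hν13 hX0 hY0 (by linarith)
  -- the limit
  have hlim := (((((hA.add hCC).add hRR).add (hB.const_mul (41 / 5))).sub (hII.const_mul (1 / 4))).sub
    (hB2.const_mul (99 / 40))).sub (hB3.const_mul (33 / 20))
  have key : ∀ N : ℕ, 1 ≤ N → -(8 / 15 * ‖nu F1 F2 2 + be b 2 - Complex.I * ga b 2‖ ^ 2)
      + (2 * (1 + β0) * ν0 + Real.sqrt 3 * kG (3 / 10) * (1 - β0) * ν0 + (1 + β0) ^ 2 + γ0 ^ 2 / 4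
      + 41 / 5 * (β0 ^ 2 + γ0 ^ 2) - 1 / 4 * (ν0 * (ν0 - (2 - β0))) - 99 / 40 * β0 ^ 2 - 33 / 20 * γ0 ^ 2) ≤
      ((1 + β0) ^ 2 + γ0 ^ 2 / 4 + ∑ n ∈ Finset.range N, cA n (be b (fm n)) (ga b (fm n))
      + (2 * (1 + β0) * ν0 + ∑ n ∈ Finset.range N, 2 * (XC n (be b (fm n)) (ga b (fm n))
        * (starRingEnd ℂ) (nu F1 F2 (fm n))).re)
      + (Real.sqrt 3 * kG (3 / 10) * (1 - β0) * ν0 + ∑ n ∈ Finset.range N, 2 * (XRG (3 / 10) n (be b (fm n)) (ga b (fm n))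
        * (starRingEnd ℂ) (nu F1 F2 (fm n))).re)
      + 41 / 5 * (β0 ^ 2 + γ0 ^ 2 + ∑ n ∈ Finset.range N, 2 * (‖be b (fm n)‖ ^ 2 + ‖ga b (fm n)‖ ^ 2))
      - 1 / 4 * (ν0 * (ν0 - (en F1 F2 0).re) - 2 * ∑ n ∈ Finset.range N,
        ((nu F1 F2 (fm n) - en F1 F2 (fm n)) * (starRingEnd ℂ) (nu F1 F2 (fm n))).re / MM n)
      - 99 / 40 * (β0 ^ 2 + ∑ n ∈ Finset.range N, 2 * ‖be b (fm n)‖ ^ 2)
      - 33 / 20 * (γ0 ^ 2 + ∑ n ∈ Finset.range N, 2 * ‖ga b (fm n)‖ ^ 2)) := by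
    intro N hN
    have e0 : (en F1 F2 0).re = 2 - β0 := en_zero h
    rw [e0]
    have hmode : ∀ n : ℕ, cA n (be b (fm n)) (ga b (fm n))
        + 2 * (XC n (be b (fm n)) (ga b (fm n)) * (starRingEnd ℂ) (nu F1 F2 (fm n))).re
        + 2 * (XRG (3 / 10) n (be b (fm n)) (ga b (fm n)) * (starRingEnd ℂ) (nu F1 F2 (fm n))).re
        + 41 / 5 * (2 * (‖be b (fm n)‖ ^ 2 + ‖ga b (fm n)‖ ^ 2))
        + 1 / 2 * (((nu F1 F2 (fm n) - en F1 F2 (fm n)) * (starRingEnd ℂ) (nu F1 F2 (fm n))).re / MM n)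
        - 99 / 40 * (2 * ‖be b (fm n)‖ ^ 2) - 33 / 20 * (2 * ‖ga b (fm n)‖ ^ 2)
        = 82 / 5 * (‖be b (fm n)‖ ^ 2 + ‖ga b (fm n)‖ ^ 2) + cA n (be b (fm n)) (ga b (fm n))
          + 2 * (XXG (3 / 10) n (be b (fm n)) (ga b (fm n)) * (starRingEnd ℂ) (nu F1 F2 (fm n))).re
          + 1 / 2 * ‖nu F1 F2 (fm n)‖ ^ 2 / MM n - (99 / 20 * ‖be b (fm n)‖ ^ 2 + 33 / 10 * ‖ga b (fm n)‖ ^ 2) := by
      intro n
      rw [show en F1 F2 (fm n) = ebar n (be b (fm n)) (ga b (fm n)) from en_fm h n]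
      set β := be b (fm n)
      set γ := ga b (fm n)
      set ν := nu F1 F2 (fm n)
      set e := ebar n β γ
      have hM := MM_pos n
      have x1 : ((ν - e) * (starRingEnd ℂ) ν).re = ‖ν‖ ^ 2 - (e * (starRingEnd ℂ) ν).re := by
        rw [sub_mul, Complex.sub_re, Complex.mul_conj, Complex.ofReal_re, Complex.normSq_eq_norm_sq]
      have x2 : (XXG (3 / 10) n β γ * (starRingEnd ℂ) ν).re = (XC n β γ * (starRingEnd ℂ) ν).re
          + (XRG (3 / 10) n β γ * (starRingEnd ℂ) ν).re - 1 / 4 * ((e * (starRingEnd ℂ) ν).re / MM n) := by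
        unfold XXG
        have : (XC n β γ + XRG (3 / 10) n β γ - 1 / 4 * (ebar n β γ / (MM n : ℂ))) * (starRingEnd ℂ) ν =
            XC n β γ * (starRingEnd ℂ) ν + XRG (3 / 10) n β γ * (starRingEnd ℂ) ν
              - ((1 / 4 * (MM n)⁻¹ : ℝ) : ℂ) * (e * (starRingEnd ℂ) ν) := by
          push_cast
          ring
        rw [this, Complex.sub_re, Complex.add_re, Complex.re_ofReal_mul]
        ring
      rw [x1, x2]
      field_simp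
      ring
    have hsum : ∑ n ∈ Finset.range N, cA n (be b (fm n)) (ga b (fm n))
        + ∑ n ∈ Finset.range N, 2 * (XC n (be b (fm n)) (ga b (fm n)) * (starRingEnd ℂ) (nu F1 F2 (fm n))).re
        + ∑ n ∈ Finset.range N, 2 * (XRG (3 / 10) n (be b (fm n)) (ga b (fm n)) * (starRingEnd ℂ) (nu F1 F2 (fm n))).re
        + 41 / 5 * ∑ n ∈ Finset.range N, 2 * (‖be b (fm n)‖ ^ 2 + ‖ga b (fm n)‖ ^ 2)
        + 1 / 2 * ∑ n ∈ Finset.range N,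
          ((nu F1 F2 (fm n) - en F1 F2 (fm n)) * (starRingEnd ℂ) (nu F1 F2 (fm n))).re / MM n
        - 99 / 40 * ∑ n ∈ Finset.range N, 2 * ‖be b (fm n)‖ ^ 2
        - 33 / 20 * ∑ n ∈ Finset.range N, 2 * ‖ga b (fm n)‖ ^ 2
        = ∑ n ∈ Finset.range N, (82 / 5 * (‖be b (fm n)‖ ^ 2 + ‖ga b (fm n)‖ ^ 2)
          + cA n (be b (fm n)) (ga b (fm n))
          + 2 * (XXG (3 / 10) n (be b (fm n)) (ga b (fm n)) * (starRingEnd ℂ) (nu F1 F2 (fm n))).re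
          + 1 / 2 * ‖nu F1 F2 (fm n)‖ ^ 2 / MM n - (99 / 20 * ‖be b (fm n)‖ ^ 2 + 33 / 10 * ‖ga b (fm n)‖ ^ 2)) := by
      rw [Finset.mul_sum, Finset.mul_sum, Finset.mul_sum, Finset.mul_sum, ← Finset.sum_add_distrib, ← Finset.sum_add_distrib,
        ← Finset.sum_add_distrib, ← Finset.sum_add_distrib, ← Finset.sum_sub_distrib, ← Finset.sum_sub_distrib]
      exact Finset.sum_congr rfl fun n _ => hmode n
    have hpos : 0 ≤ 8 / 15 * ‖nu F1 F2 2 + be b 2 - Complex.I * ga b 2‖ ^ 2 +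
        ∑ n ∈ Finset.range N, (82 / 5 * (‖be b (fm n)‖ ^ 2 + ‖ga b (fm n)‖ ^ 2)
          + cA n (be b (fm n)) (ga b (fm n))
          + 2 * (XXG (3 / 10) n (be b (fm n)) (ga b (fm n)) * (starRingEnd ℂ) (nu F1 F2 (fm n))).re
          + 1 / 2 * ‖nu F1 F2 (fm n)‖ ^ 2 / MM n - (99 / 20 * ‖be b (fm n)‖ ^ 2 + 33 / 10 * ‖ga b (fm n)‖ ^ 2)) := by
      obtain ⟨M, rfl⟩ : ∃ M, N = M + 1 := ⟨N - 1, by omega⟩
      rw [Finset.sum_range_succ']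
      have hs : 0 ≤ ∑ n ∈ Finset.range M, (82 / 5 * (‖be b (fm (n + 1))‖ ^ 2 + ‖ga b (fm (n + 1))‖ ^ 2)
          + cA (n + 1) (be b (fm (n + 1))) (ga b (fm (n + 1)))
          + 2 * (XXG (3 / 10) (n + 1) (be b (fm (n + 1))) (ga b (fm (n + 1))) * (starRingEnd ℂ) (nu F1 F2 (fm (n + 1)))).re
          + 1 / 2 * ‖nu F1 F2 (fm (n + 1))‖ ^ 2 / MM (n + 1) - (99 / 20 * ‖be b (fm (n + 1))‖ ^ 2 + 33 / 10 * ‖ga b (fm (n + 1))‖ ^ 2)) := by
        refine Finset.sum_nonneg fun n _ => ?_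
        have h1 := sq_mode (XXG (3 / 10) (n + 1) (be b (fm (n + 1))) (ga b (fm (n + 1)))) (nu F1 F2 (fm (n + 1)))
          (MM_pos (n + 1))
        have h2 := hT4 (n + 1) (be b (fm (n + 1))) (ga b (fm (n + 1))) (by omega)
        linarith
      have h0 := hT2 (be b 2) (ga b 2) (nu F1 F2 2)
      have f0 : fm 0 = 2 := rfl
      have m0 : MM 0 = 3 := by unfold MM; norm_num
      rw [f0, m0]
      have : 1 / 2 * ‖nu F1 F2 2‖ ^ 2 / 3 = 1 / 6 * ‖nu F1 F2 2‖ ^ 2 := by ring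
      rw [this]
      linarith
    linarith
  have hfin := ge_of_tendsto hlim (Filter.eventually_atTop.2 ⟨1, key⟩)
  rw [hspl]
  linarith

/-- **THE STRONGER FAR LEMMA** (no hypotheses) -/
theorem hFARY : StFarY :=
  hFARY_of Pool.Agent.Helper20.RC.hI hT4Y hT2Y Pool.Agent.Helper20.RC.hK hConstY

end Pool.Agent.Helper51.FY
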