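import Pool.Agent.Helper51.RC.M_FY3
import Pool.Agent.Helper20.RC.RqOf2

/-!
# Project RC, SHARP: the near region of the stronger far lemma

`farN3` plugs into `rq_of2`, `rq_zones3`, `sharp_of`, `sharp_zones` with `Near := Near3`.
-/

open MeasureTheory Set Filter Topology

namespace Pool.Agent.Helper51.FY

open Helper49.RC Helper44.GQ
open Helper49.Sharp (Sp mean)
open Pool.Agent.Helper20.RC (StFarN)

/-- the near condition -/
def Near3 (b z : ℝ → ℂ) : Prop :=
  Sp b z + 3 / 4 * mean (fun t => (b t).re ^ 2) + 1 / 2 * mean (fun t => (b t).im ^ 2) < 1 / 5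

/-- **the far lemma for the complement of `Near3`** -/
theorem farN3 : StFarN Near3 := fun b z h hn => hFARY b z h (not_lt.1 hn)

end Pool.Agent.Helper51.FY
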