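import Pool.Agent.Helper95.SH.CoordI

/-!
# Project RC, SHARP, cell engine, block (O7): the tail norms of the low rows

Inverse alignments. `e^{i k φ}` is unimodular, so `∑ |k Rn n k|² = 1` over all `n` and the part `n ∉ H` is a computed
number: `TR Θ Θ' H k = (1 - ∑ (n ∈ H) |k Rn n k|²) / k²`.
* `row_tail`: `|∑ a n Rn n k|² ≤ TR H k ∑ |a n|²` if `a = 0` on `H`.
* `wF_tail`, `WF_tail`: the rows `wF`, two families.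
* `TR_neg`: `TR H (-k) = TR H k` for symmetric `H`.
* `TR_le_tab`: `TR H k ≤ (a/b)²` from an integer table of `En n k`.
-/

open MeasureTheory Set Filter Topology

namespace Pool.Agent.Helper51.RC

open Helper49.LT (ee ee_zero norm_ee continuous_ee)
open Helper95.RC (Tc av)
open Helper95.SH (Rn En wF Tc_inv Rn_neg)
open Helper41.SH (IA inv)
open Helper87.RC (BM pars fc_eq)
open Helper56.RC (fc)

variable {Θ Θ' Θ1 Θ1' Θ2 Θ2' : ℝ → ℝ}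

theorem Tc_fc (φ : ℝ → ℝ) (k n : ℤ) : Tc φ k n = fc (fun θ => ee ((k : ℝ) * φ θ)) n := by
  rw [fc_eq]
  rfl

/-- Parseval for a unimodular function -/
theorem sum_Tc {φ : ℝ → ℝ} (hφ : Measurable φ) (k : ℤ) : HasSum (fun n => ‖Tc φ k n‖ ^ 2) 1 := by
  have hb : BM (fun θ => ee ((k : ℝ) * φ θ)) 1 :=
    ⟨continuous_ee.measurable.comp (hφ.const_mul _), fun θ => by rw [norm_ee]⟩
  have h := pars hb
  have e : (1 / (2 * Real.pi)) * ∫ t in (0 : ℝ)..(2 * Real.pi), ‖ee ((k : ℝ) * φ t)‖ ^ 2 = 1 := by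
    simp only [norm_ee, one_pow]
    rw [intervalIntegral.integral_const, sub_zero, smul_eq_mul]
    have := Real.pi_ne_zero
    field_simp
  rw [e] at h
  simpa only [Tc_fc] using h

/-- the tail norm of the row `k` -/
noncomputable def TR (Θ Θ' : ℝ → ℝ) (H : Finset ℤ) (k : ℤ) : ℝ :=
  (1 - ∑ n ∈ H, ‖(k : ℂ) * Rn Θ Θ' n k‖ ^ 2) / (k : ℝ) ^ 2

theorem kRn_norm (h : IA Θ Θ') {k : ℤ} (hk : k ≠ 0) (n : ℤ) : ‖(k : ℂ) * Rn Θ Θ' n k‖ = ‖Tc (inv Θ) k n‖ := by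
  rw [← Tc_inv h hk n, Complex.norm_conj]

theorem kRn_sum_le (h : IA Θ Θ') {k : ℤ} (hk : k ≠ 0) (S : Finset ℤ) :
    ∑ n ∈ S, ‖(k : ℂ) * Rn Θ Θ' n k‖ ^ 2 ≤ 1 := by
  have h1 := sum_le_hasSum S (fun n _ => by positivity) (sum_Tc h.inv_meas k)
  refine le_trans (le_of_eq ?_) h1
  exact Finset.sum_congr rfl fun n _ => by rw [kRn_norm h hk]

theorem TR_nonneg (h : IA Θ Θ') {k : ℤ} (hk : k ≠ 0) (H : Finset ℤ) : 0 ≤ TR Θ Θ' H k := by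
  have := kRn_sum_le h hk H
  exact div_nonneg (by linarith) (by positivity)

/-- THE TAIL NORM -/
theorem row_tail (h : IA Θ Θ') {k : ℤ} (hk : k ≠ 0) (H I : Finset ℤ) (a : ℤ → ℂ) (ha : ∀ n ∈ H, a n = 0) :
    ‖∑ n ∈ I, a n * Rn Θ Θ' n k‖ ^ 2 ≤ TR Θ Θ' H k * ∑ n ∈ I, ‖a n‖ ^ 2 := by
  have hkr : (k : ℝ) ≠ 0 := by exact_mod_cast hk
  have hk2 : 0 < (k : ℝ) ^ 2 := by positivity
  have e1 : ∑ n ∈ I, a n * Rn Θ Θ' n k = ∑ n ∈ I \ H, a n * Rn Θ Θ' n k := by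
    symm
    refine Finset.sum_subset Finset.sdiff_subset fun n hn hn2 => ?_
    rw [Finset.mem_sdiff] at hn2
    push Not at hn2
    rw [ha n (hn2 hn), zero_mul]
  have e2 : ∑ n ∈ I \ H, ‖a n‖ ^ 2 ≤ ∑ n ∈ I, ‖a n‖ ^ 2 :=
    Finset.sum_le_sum_of_subset_of_nonneg Finset.sdiff_subset fun n _ _ => by positivity
  have e3 : ∑ n ∈ I \ H, ‖Rn Θ Θ' n k‖ ^ 2 ≤ TR Θ Θ' H k := by
    unfold TR
    rw [le_div_iff₀ hk2, Finset.sum_mul]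
    have e4 : ∑ n ∈ I \ H, ‖Rn Θ Θ' n k‖ ^ 2 * (k : ℝ) ^ 2 = ∑ n ∈ I \ H, ‖(k : ℂ) * Rn Θ Θ' n k‖ ^ 2 := by
      refine Finset.sum_congr rfl fun n _ => ?_
      rw [norm_mul, mul_pow, Complex.norm_intCast, sq_abs]
      ring
    rw [e4]
    have h1 := kRn_sum_le h hk ((I \ H) ∪ H)
    rw [Finset.sum_union Finset.sdiff_disjoint] at h1
    linarith
  rw [e1]
  have h2 : ‖∑ n ∈ I \ H, a n * Rn Θ Θ' n k‖ ≤ ∑ n ∈ I \ H, ‖a n‖ * ‖Rn Θ Θ' n k‖ := by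
    refine (norm_sum_le _ _).trans (le_of_eq ?_)
    exact Finset.sum_congr rfl fun n _ => norm_mul _ _
  have h3 := Finset.sum_mul_sq_le_sq_mul_sq (I \ H) (fun n => ‖a n‖) (fun n => ‖Rn Θ Θ' n k‖)
  have h4 : ‖∑ n ∈ I \ H, a n * Rn Θ Θ' n k‖ ^ 2 ≤ (∑ n ∈ I \ H, ‖a n‖ * ‖Rn Θ Θ' n k‖) ^ 2 :=
    pow_le_pow_left₀ (norm_nonneg _) h2 2
  have h5 : 0 ≤ ∑ n ∈ I \ H, ‖Rn Θ Θ' n k‖ ^ 2 := Finset.sum_nonneg fun n _ => by positivity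
  have h6 : 0 ≤ ∑ n ∈ I, ‖a n‖ ^ 2 := Finset.sum_nonneg fun n _ => by positivity
  calc ‖∑ n ∈ I \ H, a n * Rn Θ Θ' n k‖ ^ 2
      ≤ (∑ n ∈ I \ H, ‖a n‖ ^ 2) * ∑ n ∈ I \ H, ‖Rn Θ Θ' n k‖ ^ 2 := h4.trans h3
    _ ≤ (∑ n ∈ I, ‖a n‖ ^ 2) * TR Θ Θ' H k := mul_le_mul e2 e3 h5 h6
    _ = _ := mul_comm _ _

/-- a symmetric head -/
theorem TR_neg {H : Finset ℤ} (hH : ∀ n ∈ H, -n ∈ H) (k : ℤ) : TR Θ Θ' H (-k) = TR Θ Θ' H k := by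
  unfold TR
  have e : ∑ n ∈ H, ‖((-k : ℤ) : ℂ) * Rn Θ Θ' n (-k)‖ ^ 2 = ∑ n ∈ H, ‖(k : ℂ) * Rn Θ Θ' n k‖ ^ 2 := by
    refine Finset.sum_bij (fun n _ => -n) (fun n hn => hH n hn) (fun a _ b _ hab => neg_injective hab)
      (fun n hn => ⟨-n, hH n hn, neg_neg n⟩) fun n _ => ?_
    have h1 := Rn_neg Θ Θ' (-n) (-k)
    rw [neg_neg, neg_neg] at h1
    rw [norm_mul, norm_mul, h1, norm_neg, Complex.norm_conj, Int.cast_neg, norm_neg]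
  rw [e]
  push_cast
  rw [neg_sq]

/-- one row, one family -/
theorem wF_tail (h : IA Θ Θ') {l : ℤ} (hl : Even l) (H : Finset ℤ) (M : ℕ) (a : ℤ → ℂ) (ha : ∀ n ∈ H, a n = 0)
    {t u : ℝ} (ht0 : 0 ≤ t) (hu0 : 0 ≤ u) (ht : TR Θ Θ' H (l + 1) ≤ t ^ 2) (hu : TR Θ Θ' H (1 - l) ≤ u ^ 2) :
    ‖wF Θ Θ' M a l‖ ≤ (t + u) / 2 * Real.sqrt (∑ n ∈ Finset.Icc (-(M : ℤ)) M, ‖a n‖ ^ 2) := by
  have h1 : l + 1 ≠ 0 := by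
    intro h0
    obtain ⟨j, hj⟩ := hl
    omega
  have h2 : 1 - l ≠ 0 := by
    intro h0
    obtain ⟨j, hj⟩ := hl
    omega
  set S := ∑ n ∈ Finset.Icc (-(M : ℤ)) M, ‖a n‖ ^ 2 with hS
  have hS0 : 0 ≤ S := Finset.sum_nonneg fun n _ => by positivity
  have key : ∀ (k : ℤ) (hk : k ≠ 0) (τ : ℝ), 0 ≤ τ → TR Θ Θ' H k ≤ τ ^ 2 →
      ‖∑ n ∈ Finset.Icc (-(M : ℤ)) M, a n * Rn Θ Θ' n k‖ ≤ τ * Real.sqrt S := by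
    intro k hk τ hτ hT
    have h3 := row_tail h hk H (Finset.Icc (-(M : ℤ)) M) a ha
    have h4 : ‖∑ n ∈ Finset.Icc (-(M : ℤ)) M, a n * Rn Θ Θ' n k‖ ^ 2 ≤ (τ * Real.sqrt S) ^ 2 := by
      rw [mul_pow, Real.sq_sqrt hS0]
      exact h3.trans (mul_le_mul_of_nonneg_right hT hS0)
    exact (abs_le_of_sq_le_sq' h4 (by positivity)).2
  have k1 := key (l + 1) h1 t ht0 ht
  have k2 := key (1 - l) h2 u hu0 hu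
  have e : wF Θ Θ' M a l = -(1 / 2) * ((∑ n ∈ Finset.Icc (-(M : ℤ)) M, a n * Rn Θ Θ' n (l + 1))
      + (starRingEnd ℂ) (∑ n ∈ Finset.Icc (-(M : ℤ)) M, a n * Rn Θ Θ' n (1 - l))) := by
    unfold wF
    rw [map_sum, ← Finset.sum_add_distrib]
  rw [e, norm_mul]
  have hn : ‖(-(1 / 2) : ℂ)‖ = 1 / 2 := by norm_num
  rw [hn]
  have h5 := norm_add_le (∑ n ∈ Finset.Icc (-(M : ℤ)) M, a n * Rn Θ Θ' n (l + 1))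
    ((starRingEnd ℂ) (∑ n ∈ Finset.Icc (-(M : ℤ)) M, a n * Rn Θ Θ' n (1 - l)))
  rw [Complex.norm_conj] at h5
  linarith

/-- **THE LOW ROWS**, two families -/
theorem WF_tail (h1 : IA Θ1 Θ1') (h2 : IA Θ2 Θ2') {l : ℤ} (hl : Even l) (H : Finset ℤ) (M : ℕ) (a1 a2 : ℤ → ℂ)
    (ha1 : ∀ n ∈ H, a1 n = 0) (ha2 : ∀ n ∈ H, a2 n = 0) {t1 u1 t2 u2 : ℝ} (ht1 : 0 ≤ t1) (hu1 : 0 ≤ u1)
    (ht2 : 0 ≤ t2) (hu2 : 0 ≤ u2) (k1 : TR Θ1 Θ1' H (l + 1) ≤ t1 ^ 2) (m1 : TR Θ1 Θ1' H (1 - l) ≤ u1 ^ 2)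
    (k2 : TR Θ2 Θ2' H (l + 1) ≤ t2 ^ 2) (m2 : TR Θ2 Θ2' H (1 - l) ≤ u2 ^ 2) :
    ‖wF Θ1 Θ1' M a1 l + wF Θ2 Θ2' M a2 l‖ ^ 2 ≤ ((t1 + u1) ^ 2 + (t2 + u2) ^ 2) / 4 *
      ((∑ n ∈ Finset.Icc (-(M : ℤ)) M, ‖a1 n‖ ^ 2) + ∑ n ∈ Finset.Icc (-(M : ℤ)) M, ‖a2 n‖ ^ 2) := by
  have w1 := wF_tail h1 hl H M a1 ha1 ht1 hu1 k1 m1
  have w2 := wF_tail h2 hl H M a2 ha2 ht2 hu2 k2 m2
  set S1 := ∑ n ∈ Finset.Icc (-(M : ℤ)) M, ‖a1 n‖ ^ 2 with hS1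
  set S2 := ∑ n ∈ Finset.Icc (-(M : ℤ)) M, ‖a2 n‖ ^ 2 with hS2
  have hS10 : 0 ≤ S1 := Finset.sum_nonneg fun n _ => by positivity
  have hS20 : 0 ≤ S2 := Finset.sum_nonneg fun n _ => by positivity
  have q1 := Real.sq_sqrt hS10
  have q2 := Real.sq_sqrt hS20
  have w3 := (norm_add_le (wF Θ1 Θ1' M a1 l) (wF Θ2 Θ2' M a2 l)).trans (add_le_add w1 w2)
  have w4 := pow_le_pow_left₀ (norm_nonneg _) w3 2
  refine w4.trans ?_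
  have e : ((t1 + u1) ^ 2 + (t2 + u2) ^ 2) / 4 * (S1 + S2) =
      ((t1 + u1) / 2 * Real.sqrt S1 + (t2 + u2) / 2 * Real.sqrt S2) ^ 2
      + ((t1 + u1) * Real.sqrt S2 - (t2 + u2) * Real.sqrt S1) ^ 2 / 4 := by
    linear_combination (-(((t1 + u1) ^ 2 + (t2 + u2) ^ 2) / 4)) * (q1 + q2)
  rw [e]
  have := sq_nonneg ((t1 + u1) * Real.sqrt S2 - (t2 + u2) * Real.sqrt S1)
  linarith

/-- the row `k = 1` (`e_0`) -/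
theorem E0_tail (h1 : IA Θ1 Θ1') (h2 : IA Θ2 Θ2') (H : Finset ℤ) (M : ℕ) (a1 a2 : ℤ → ℂ)
    (ha1 : ∀ n ∈ H, a1 n = 0) (ha2 : ∀ n ∈ H, a2 n = 0) {t1 t2 : ℝ} (ht1 : 0 ≤ t1) (ht2 : 0 ≤ t2)
    (k1 : TR Θ1 Θ1' H 1 ≤ t1 ^ 2) (k2 : TR Θ2 Θ2' H 1 ≤ t2 ^ 2) :
    ((∑ n ∈ Finset.Icc (-(M : ℤ)) M, (a1 n * Rn Θ1 Θ1' n 1).re)
      + ∑ n ∈ Finset.Icc (-(M : ℤ)) M, (a2 n * Rn Θ2 Θ2' n 1).re) ^ 2 ≤ (t1 ^ 2 + t2 ^ 2) *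
      ((∑ n ∈ Finset.Icc (-(M : ℤ)) M, ‖a1 n‖ ^ 2) + ∑ n ∈ Finset.Icc (-(M : ℤ)) M, ‖a2 n‖ ^ 2) := by
  set S1 := ∑ n ∈ Finset.Icc (-(M : ℤ)) M, ‖a1 n‖ ^ 2 with hS1
  set S2 := ∑ n ∈ Finset.Icc (-(M : ℤ)) M, ‖a2 n‖ ^ 2 with hS2
  have hS10 : 0 ≤ S1 := Finset.sum_nonneg fun n _ => by positivity
  have hS20 : 0 ≤ S2 := Finset.sum_nonneg fun n _ => by positivity
  have q1 := Real.sq_sqrt hS10
  have q2 := Real.sq_sqrt hS20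
  have key : ∀ {Θ Θ' : ℝ → ℝ} (h : IA Θ Θ') (a : ℤ → ℂ) (ha : ∀ n ∈ H, a n = 0) (τ : ℝ), 0 ≤ τ →
      TR Θ Θ' H 1 ≤ τ ^ 2 → |∑ n ∈ Finset.Icc (-(M : ℤ)) M, (a n * Rn Θ Θ' n 1).re| ≤
        τ * Real.sqrt (∑ n ∈ Finset.Icc (-(M : ℤ)) M, ‖a n‖ ^ 2) := by
    intro Θ Θ' h a ha τ hτ hT
    have hS0 : 0 ≤ ∑ n ∈ Finset.Icc (-(M : ℤ)) M, ‖a n‖ ^ 2 := Finset.sum_nonneg fun n _ => by positivity
    have h3 := row_tail h one_ne_zero H (Finset.Icc (-(M : ℤ)) M) a ha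
    have h4 : ‖∑ n ∈ Finset.Icc (-(M : ℤ)) M, a n * Rn Θ Θ' n 1‖ ^ 2 ≤
        (τ * Real.sqrt (∑ n ∈ Finset.Icc (-(M : ℤ)) M, ‖a n‖ ^ 2)) ^ 2 := by
      rw [mul_pow, Real.sq_sqrt hS0]
      exact h3.trans (mul_le_mul_of_nonneg_right hT hS0)
    have h5 := (abs_le_of_sq_le_sq' h4 (by positivity)).2
    rw [← Complex.re_sum]
    exact (Complex.abs_re_le_norm _).trans h5
  have w1 := key h1 a1 ha1 t1 ht1 k1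
  have w2 := key h2 a2 ha2 t2 ht2 k2
  have w3 := (abs_add_le (∑ n ∈ Finset.Icc (-(M : ℤ)) M, (a1 n * Rn Θ1 Θ1' n 1).re)
    (∑ n ∈ Finset.Icc (-(M : ℤ)) M, (a2 n * Rn Θ2 Θ2' n 1).re)).trans (add_le_add w1 w2)
  have w4 := pow_le_pow_left₀ (abs_nonneg _) w3 2
  rw [sq_abs] at w4
  refine w4.trans ?_
  rw [← hS1, ← hS2]
  have e : (t1 ^ 2 + t2 ^ 2) * (S1 + S2) = (t1 * Real.sqrt S1 + t2 * Real.sqrt S2) ^ 2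
      + (t1 * Real.sqrt S2 - t2 * Real.sqrt S1) ^ 2 := by
    linear_combination (-(t1 ^ 2 + t2 ^ 2)) * (q1 + q2)
  rw [e]
  have := sq_nonneg (t1 * Real.sqrt S2 - t2 * Real.sqrt S1)
  linarith

/-! ### the computed bound -/

/-- lower bound of `4^S |En n k|² / n²` from the table entry `R + i I` with the error `e` -/
def lowq (e : ℤ) (n : ℤ) (T : ℤ × ℤ) : ℤ := (T.1 ^ 2 + T.2 ^ 2 - 2 * e * (|T.1| + |T.2|)) / n ^ 2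

/-- the check of `TR H k ≤ (a/b)²` -/
def chkTR (S : ℕ) (e k a b : ℤ) (T : ℤ → ℤ × ℤ) (H : List ℤ) : Bool :=
  decide (0 < b) && decide (k ≠ 0) && H.all (fun n => decide (n ≠ 0)) && decide H.Nodup &&
    decide ((b ^ 2 - k ^ 2 * a ^ 2) * 4 ^ S ≤ b ^ 2 * (k ^ 2 * (H.map fun n => lowq e n (T n)).sum))

theorem lowq_le {S : ℕ} {e : ℤ} (he : 0 ≤ e) {n : ℤ} (hn : n ≠ 0) {T : ℤ × ℤ} {E : ℂ}
    (h : ‖(2 : ℂ) ^ S * E - ((T.1 : ℂ) + (T.2 : ℂ) * Complex.I)‖ ≤ e) :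
    (lowq e n T : ℝ) ≤ 4 ^ S * (‖E‖ ^ 2 / (n : ℝ) ^ 2) := by
  have hn2 : (0 : ℝ) < (n : ℝ) ^ 2 := by positivity
  have hn2' : (0 : ℤ) < n ^ 2 := by positivity
  set t : ℂ := (T.1 : ℂ) + (T.2 : ℂ) * Complex.I with ht
  have h1 : ‖t‖ ≤ ‖(2 : ℂ) ^ S * E‖ + e := by
    have := norm_sub_norm_le t ((2 : ℂ) ^ S * E)
    rw [norm_sub_rev] at this
    linarith
  have h2 : ‖(2 : ℂ) ^ S * E‖ = 2 ^ S * ‖E‖ := by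
    rw [norm_mul, norm_pow]; norm_num
  have h3 : ‖t‖ ^ 2 = (T.1 : ℝ) ^ 2 + (T.2 : ℝ) ^ 2 := by
    rw [← Complex.normSq_eq_norm_sq, Complex.normSq_apply, ht]
    simp
    ring
  have h4 : ‖t‖ ≤ |(T.1 : ℝ)| + |(T.2 : ℝ)| := by
    rw [ht]
    refine (norm_add_le _ _).trans ?_
    rw [norm_mul, Complex.norm_I, mul_one, Complex.norm_intCast, Complex.norm_intCast]
  have he' : (0 : ℝ) ≤ e := by exact_mod_cast he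
  have h5 : ‖t‖ ^ 2 - 2 * e * (|(T.1 : ℝ)| + |(T.2 : ℝ)|) ≤ 4 ^ S * ‖E‖ ^ 2 := by
    have e4 : (4 : ℝ) ^ S * ‖E‖ ^ 2 = (2 ^ S * ‖E‖) ^ 2 := by
      rw [mul_pow, ← pow_mul, mul_comm S 2, pow_mul]; norm_num
    rw [e4]
    rw [h2] at h1
    have hE : 0 ≤ 2 ^ S * ‖E‖ := by positivity
    by_cases hc : ‖t‖ ≤ e
    · have : ‖t‖ ^ 2 ≤ ‖t‖ * e := by nlinarith [norm_nonneg t]
      have h6 : ‖t‖ * e ≤ (|(T.1 : ℝ)| + |(T.2 : ℝ)|) * e := mul_le_mul_of_nonneg_right h4 he'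
      nlinarith [norm_nonneg t, abs_nonneg (T.1 : ℝ), abs_nonneg (T.2 : ℝ), sq_nonneg (2 ^ S * ‖E‖)]
    · rw [not_le] at hc
      have h7 : (‖t‖ - e) ^ 2 ≤ (2 ^ S * ‖E‖) ^ 2 := pow_le_pow_left₀ (by linarith) (by linarith) 2
      have h8 : (e : ℝ) * ‖t‖ ≤ e * (|(T.1 : ℝ)| + |(T.2 : ℝ)|) := mul_le_mul_of_nonneg_left h4 he'
      nlinarith [sq_nonneg (e : ℝ)]
  have h6 : (lowq e n T : ℝ) * (n : ℝ) ^ 2 ≤ (T.1 : ℝ) ^ 2 + (T.2 : ℝ) ^ 2 - 2 * e * (|(T.1 : ℝ)| + |(T.2 : ℝ)|) := by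
    have : lowq e n T * n ^ 2 ≤ T.1 ^ 2 + T.2 ^ 2 - 2 * e * (|T.1| + |T.2|) := Int.ediv_mul_le _ hn2'.ne'
    have := (Int.cast_le (R := ℝ)).2 this
    push_cast at this
    exact this
  rw [← mul_div_assoc, le_div_iff₀ hn2]
  rw [h3] at h5
  linarith

/-- **the computed tail norm** -/
theorem TR_le_tab {S : ℕ} {e k a b : ℤ} (he : 0 ≤ e) {T : ℤ → ℤ × ℤ} {H : List ℤ} (hc : chkTR S e k a b T H = true)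
    (hT : ∀ n ∈ H, ‖(2 : ℂ) ^ S * En Θ n k - (((T n).1 : ℂ) + ((T n).2 : ℂ) * Complex.I)‖ ≤ e) {G : Finset ℤ}
    (hG : H.toFinset ⊆ G) : TR Θ Θ' G k ≤ ((a : ℝ) / b) ^ 2 := by
  unfold chkTR at hc
  simp only [Bool.and_eq_true, decide_eq_true_eq, List.all_eq_true] at hc
  obtain ⟨⟨⟨⟨hb, hk⟩, hH⟩, hN⟩, hs⟩ := hc
  have hbr : (0 : ℝ) < b := by exact_mod_cast hb
  have hkr : (k : ℝ) ≠ 0 := by exact_mod_cast hk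
  have hk2 : (0 : ℝ) < (k : ℝ) ^ 2 := by positivity
  have h1 : ((H.map fun n => lowq e n (T n)).sum : ℝ) ≤ 4 ^ S * ∑ n ∈ H.toFinset, ‖En Θ n k‖ ^ 2 / (n : ℝ) ^ 2 := by
    rw [Finset.mul_sum, List.sum_toFinset _ hN]
    push_cast
    clear hs hG hN
    induction H with
    | nil => simp
    | cons x H ih =>
      simp only [List.map_cons, List.sum_cons]
      exact add_le_add (lowq_le he (hH x List.mem_cons_self) (hT x List.mem_cons_self))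
        (ih (fun n hn => hT n (List.mem_cons_of_mem _ hn)) (fun n hn => hH n (List.mem_cons_of_mem _ hn)))
  have h2 : ∑ n ∈ H.toFinset, ‖En Θ n k‖ ^ 2 / (n : ℝ) ^ 2 * (k : ℝ) ^ 2 ≤ ∑ n ∈ G, ‖(k : ℂ) * Rn Θ Θ' n k‖ ^ 2 := by
    refine le_trans (le_of_eq ?_) (Finset.sum_le_sum_of_subset_of_nonneg hG fun n _ _ => by positivity)
    refine Finset.sum_congr rfl fun n hn => ?_
    have hn0 : n ≠ 0 := hH n (List.mem_toFinset.1 hn)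
    unfold Rn
    rw [if_neg hn0, norm_mul, norm_div, mul_pow, div_pow, Complex.norm_intCast, Complex.norm_intCast, sq_abs, sq_abs]
    ring
  have h3 : ((b : ℝ) ^ 2 - (k : ℝ) ^ 2 * (a : ℝ) ^ 2) * 4 ^ S ≤
      (b : ℝ) ^ 2 * ((k : ℝ) ^ 2 * ((H.map fun n => lowq e n (T n)).sum : ℝ)) := by
    have := (Int.cast_le (R := ℝ)).2 hs
    push_cast at this ⊢
    exact this
  have h4 : (4 : ℝ) ^ S > 0 := by positivity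
  rw [← Finset.sum_mul] at h2
  set σs := ∑ n ∈ H.toFinset, ‖En Θ n k‖ ^ 2 / (n : ℝ) ^ 2 with hσs
  have h5 : ((b : ℝ) ^ 2 - (k : ℝ) ^ 2 * (a : ℝ) ^ 2) * 4 ^ S ≤ ((b : ℝ) ^ 2 * ((k : ℝ) ^ 2 * σs)) * 4 ^ S := by
    refine h3.trans ?_
    have h6 : (b : ℝ) ^ 2 * (k : ℝ) ^ 2 * ((H.map fun n => lowq e n (T n)).sum : ℝ) ≤
        (b : ℝ) ^ 2 * (k : ℝ) ^ 2 * (4 ^ S * σs) := mul_le_mul_of_nonneg_left h1 (by positivity)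
    linarith
  have h6 := le_of_mul_le_mul_right h5 h4
  unfold TR
  rw [div_pow, div_le_div_iff₀ hk2 (by positivity)]
  have hb2 : (0 : ℝ) < (b : ℝ) ^ 2 := by positivity
  have h7 : (b : ℝ) ^ 2 * (σs * (k : ℝ) ^ 2) ≤ (b : ℝ) ^ 2 * ∑ n ∈ G, ‖(k : ℂ) * Rn Θ Θ' n k‖ ^ 2 :=
    mul_le_mul_of_nonneg_left h2 hb2.le
  linarith

end Pool.Agent.Helper51.RC
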