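import Pool.Agent.Helper20.RC.Frame
import Pool.Agent.Helper20.RC.Link2F

/-!
# Project RC, SHARP, far lemma: the coercivity bound with averaged alignments (ramp)

`coeG` (the quadrilateral contains its diagonal `A + B`) holds for all measurable alignments `φ₁, φ₂`; averaged over the
shifts `φ_j + τ`, `|τ| ≤ D`, it gives the Fourier form with the additional factors `sin (n D) / (n D)`.
-/

open MeasureTheory Set Filter Metric

namespace Pool.Agent.Helper51.RC

open Helper49.LT Helper87.RC Helper49.RC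
open Pool.Agent.Helper20.RC
open Helper56.RC (fc)
open Helper44.RCG (AQQG G1 G2 coeG G1_meas G2_meas G1_le G2_le)

/-- the factor of the ramp -/
noncomputable def sk (D : ℝ) (n : ℤ) : ℝ := Real.sin ((n : ℝ) * D) / ((n : ℝ) * D)

/-- moments for a shifted alignment -/
theorem mom_shift (g : ℝ → ℂ) (φ : ℝ → ℝ) (τ : ℝ) (n : ℤ) :
    mom g (fun θ => φ θ + τ) n = ee ((n : ℝ) * τ) * mom g φ n := by
  unfold mom
  have e : ∀ θ : ℝ, ee ((n : ℝ) * (φ θ + τ)) * (starRingEnd ℂ) (g θ) =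
      ee ((n : ℝ) * τ) * (ee ((n : ℝ) * φ θ) * (starRingEnd ℂ) (g θ)) := by
    intro θ
    rw [mul_add, ee_add]; ring
  simp_rw [e]
  rw [intervalIntegral.integral_const_mul]
  ring

theorem mom_bd {g : ℝ → ℂ} {D : ℝ} (hg : BM g D) {φ : ℝ → ℝ} (n : ℤ) : ‖mom g φ n‖ ≤ D := by
  have hp := Real.pi_pos
  unfold mom
  have h := intervalIntegral.norm_integral_le_of_norm_le_const (a := 0) (b := 2 * Real.pi) (C := D)
    (f := fun θ => ee ((n : ℝ) * φ θ) * (starRingEnd ℂ) (g θ)) (fun x _ => by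
      rw [norm_mul, norm_ee, one_mul, Complex.norm_conj]; exact hg.b x)
  rw [norm_mul]
  have e : ‖(1 / (2 * Real.pi) : ℂ)‖ = 1 / (2 * Real.pi) := by
    rw [norm_div, norm_one, norm_mul, Complex.norm_ofNat, Complex.norm_real, Real.norm_eq_abs, abs_of_pos hp]
  rw [e]
  rw [sub_zero, abs_of_pos (by positivity : (0 : ℝ) < 2 * Real.pi)] at h
  calc 1 / (2 * Real.pi) * ‖∫ θ in (0 : ℝ)..(2 * Real.pi), ee ((n : ℝ) * φ θ) * (starRingEnd ℂ) (g θ)‖
      ≤ 1 / (2 * Real.pi) * (D * (2 * Real.pi)) := by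
        exact mul_le_mul_of_nonneg_left h (by positivity)
    _ = D := by field_simp

theorem int_ee {D : ℝ} {n : ℤ} (hn : n ≠ 0) :
    ∫ τ in (-D)..D, ee ((n : ℝ) * τ) = ((2 * Real.sin ((n : ℝ) * D) / n : ℝ) : ℂ) := by
  have hnc : (n : ℂ) ≠ 0 := by exact_mod_cast hn
  have h : ∀ t ∈ uIcc (-D) D, HasDerivAt (fun τ : ℝ => ee ((n : ℝ) * τ) / ((n : ℂ) * Complex.I))
      (ee ((n : ℝ) * t)) t := by
    intro t _
    refine ((hasDerivAt_ee (n : ℝ) t).div_const _).congr_deriv ?_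
    push_cast
    field_simp
  rw [intervalIntegral.integral_eq_sub_of_hasDerivAt h]
  · have e1 : (n : ℝ) * -D = -((n : ℝ) * D) := by ring
    rw [e1, ee_neg, ee_eq]
    simp only [map_add, map_mul, Complex.conj_ofReal, Complex.conj_I]
    push_cast
    field_simp
    ring
  · exact (continuous_ee.comp (continuous_const.mul continuous_id)).intervalIntegrable _ _

/-- the real and the complex form of the bilinear integral -/
theorem half_form {f g1 g2 : ℝ → ℂ} {E D1 D2 : ℝ} (hb : BM f E) (h1 : BM g1 D1) (h2 : BM g2 D2) {φ1 φ2 : ℝ → ℝ}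
    (m1 : Measurable φ1) (m2 : Measurable φ2) :
    ((1 / (2 * Real.pi) : ℂ) * (∫ θ in (0 : ℝ)..(2 * Real.pi), PP f (φ1 θ) * (starRingEnd ℂ) (g1 θ))
      + (1 / (2 * Real.pi) : ℂ) * (∫ θ in (0 : ℝ)..(2 * Real.pi), PP f (φ2 θ) * (starRingEnd ℂ) (g2 θ))).re =
    1 / (4 * Real.pi) * ∫ θ in (0 : ℝ)..(2 * Real.pi),
      ((g1 θ * (starRingEnd ℂ) (∫ t in (φ1 θ - Real.pi)..(φ1 θ), f t)).im
        + (g2 θ * (starRingEnd ℂ) (∫ t in (φ2 θ - Real.pi)..(φ2 θ), f t)).im) := by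
  have hp := Real.pi_pos
  have key : ∀ {g : ℝ → ℂ} {D : ℝ} {φ : ℝ → ℝ}, BM g D → Measurable φ →
      ((1 / (2 * Real.pi) : ℂ) * ∫ θ in (0 : ℝ)..(2 * Real.pi), PP f (φ θ) * (starRingEnd ℂ) (g θ)).re =
      1 / (4 * Real.pi) * ∫ θ in (0 : ℝ)..(2 * Real.pi),
        (g θ * (starRingEnd ℂ) (∫ t in (φ θ - Real.pi)..(φ θ), f t)).im := by
    intro g D φ hg hφ
    have hX := (PP_bm hb hφ).mul hg.conj
    have e0 : (1 / (2 * Real.pi) : ℂ) = ((1 / (2 * Real.pi) : ℝ) : ℂ) := by push_cast; rfl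
    rw [e0, Complex.re_ofReal_mul]
    have e1 : (∫ θ in (0 : ℝ)..(2 * Real.pi), PP f (φ θ) * (starRingEnd ℂ) (g θ)).re =
        ∫ θ in (0 : ℝ)..(2 * Real.pi), (PP f (φ θ) * (starRingEnd ℂ) (g θ)).re := by
      have := Complex.reCLM.intervalIntegral_comp_comm (hX.i 0 (2 * Real.pi))
      exact this.symm
    rw [e1]
    have e2 : ∀ θ, (PP f (φ θ) * (starRingEnd ℂ) (g θ)).re =
        1 / 2 * (g θ * (starRingEnd ℂ) (∫ t in (φ θ - Real.pi)..(φ θ), f t)).im := by
      intro θ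
      unfold PP
      set J := ∫ t in (φ θ - Real.pi)..(φ θ), f t
      have e3 : Complex.I / 2 * J * (starRingEnd ℂ) (g θ) = ((1 / 2 : ℝ) : ℂ) *
          (Complex.I * (J * (starRingEnd ℂ) (g θ))) := by push_cast; ring
      rw [e3, Complex.re_ofReal_mul]
      congr 1
      simp only [Complex.mul_re, Complex.mul_im, Complex.I_re, Complex.I_im, Complex.conj_re, Complex.conj_im]
      ring
    simp_rw [e2]
    rw [intervalIntegral.integral_const_mul]
    field_simp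
    ring
  rw [Complex.add_re, key h1 m1, key h2 m2, ← mul_add]
  congr 1
  have bb : ∀ {g : ℝ → ℂ} {D : ℝ} {φ : ℝ → ℝ}, BM g D → Measurable φ →
      BM (fun θ => g θ * (starRingEnd ℂ) (∫ t in (φ θ - Real.pi)..(φ θ), f t)) (D * (E * Real.pi)) := by
    intro g D φ hg hφ
    refine hg.mul (BM.conj (f := fun θ => ∫ t in (φ θ - Real.pi)..(φ θ), f t)
      ⟨int_meas hb (hφ.sub_const _) hφ, fun θ => ?_⟩)
    refine (int_bd hb _ _).trans (le_of_eq ?_)
    rw [sub_sub_cancel, abs_of_pos Real.pi_pos]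
  exact (intervalIntegral.integral_add
    (intg_real (Complex.measurable_im.comp (bb h1 m1).m) (fun t => (Complex.abs_im_le_norm _).trans ((bb h1 m1).b t)) _ _)
    (intg_real (Complex.measurable_im.comp (bb h2 m2).m) (fun t => (Complex.abs_im_le_norm _).trans ((bb h2 m2).b t)) _ _)).symm

variable {A B v : ℝ → ℂ} {C : ℝ}

/-- THE RAMP: the averaged coercivity bound in Fourier form. -/
theorem ramp (h : Fam A B v C) (hq : QQ A B v) {φ1 φ2 : ℝ → ℝ} (m1 : Measurable φ1) (m2 : Measurable φ2)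
    {D : ℝ} (hD : 0 < D) : ∃ R : ℝ, R ≤ AQQG A B v ∧
    HasSum (fun n : ℤ => ((if Even n then (0 : ℂ) else (sk D n : ℂ) * (fc (fun t => A t + B t) n / n))
      * (mom (G1 A v) φ1 n + mom (G2 B v) φ2 n)).re) R := by
  have hp := Real.pi_pos
  have hf : BM (fun t => A t + B t) (C + C) := ⟨h.mA.add h.mB, fun t => (norm_add_le _ _).trans
    (add_le_add (h.bA t) (h.bB t))⟩
  have ha : ∀ t, (A (t + Real.pi) + B (t + Real.pi)) = -(A t + B t) := by
    intro t; rw [h.pA, h.pB]; ring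
  have g1 : BM (G1 A v) (2 * C) := ⟨G1_meas h, G1_le h⟩
  have g2 : BM (G2 B v) (2 * C) := ⟨G2_meas h, G2_le h⟩
  set c : ℤ → ℂ := fun n => (if Even n then (0 : ℂ) else fc (fun t => A t + B t) n / n)
    * (mom (G1 A v) φ1 n + mom (G2 B v) φ2 n) with hc
  have hcs : Summable fun n => ‖c n‖ := by
    refine Summable.of_nonneg_of_le (fun n => norm_nonneg _) (fun n => ?_) ((summ_coef hf).mul_right (2 * C + 2 * C))
    rw [hc]
    simp only
    rw [norm_mul]
    exact mul_le_mul_of_nonneg_left ((norm_add_le _ _).trans (add_le_add (mom_bd g1 n) (mom_bd g2 n))) (norm_nonneg _)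
  -- the series for the shift `τ`
  have hT : ∀ τ : ℝ, HasSum (fun n : ℤ => ee ((n : ℝ) * τ) * c n)
      ((1 / (2 * Real.pi) : ℂ) * (∫ θ in (0 : ℝ)..(2 * Real.pi),
        PP (fun t => A t + B t) (φ1 θ + τ) * (starRingEnd ℂ) (G1 A v θ))
      + (1 / (2 * Real.pi) : ℂ) * (∫ θ in (0 : ℝ)..(2 * Real.pi),
        PP (fun t => A t + B t) (φ2 θ + τ) * (starRingEnd ℂ) (G2 B v θ))) := by
    intro τ
    have s1 := PP_mom hf ha g1 (φ := fun θ => φ1 θ + τ) (m1.add_const τ)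
    have s2 := PP_mom hf ha g2 (φ := fun θ => φ2 θ + τ) (m2.add_const τ)
    refine (s1.add s2).congr_fun ?_
    intro n
    rw [mom_shift, mom_shift, hc]
    ring
  set T : ℝ → ℂ := fun τ => (1 / (2 * Real.pi) : ℂ) * (∫ θ in (0 : ℝ)..(2 * Real.pi),
        PP (fun t => A t + B t) (φ1 θ + τ) * (starRingEnd ℂ) (G1 A v θ))
      + (1 / (2 * Real.pi) : ℂ) * (∫ θ in (0 : ℝ)..(2 * Real.pi),
        PP (fun t => A t + B t) (φ2 θ + τ) * (starRingEnd ℂ) (G2 B v θ)) with hTd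
  have hTc : Continuous T := by
    have h1 : T = fun τ => ∑' n : ℤ, ee ((n : ℝ) * τ) * c n := by
      funext τ
      exact (hT τ).tsum_eq.symm
    rw [h1]
    refine continuous_tsum (u := fun n => ‖c n‖) (fun n => ?_) hcs (fun n τ => ?_)
    · exact (continuous_ee.comp (continuous_const.mul continuous_id)).mul continuous_const
    · rw [norm_mul, norm_ee, one_mul]
  have hle : ∀ τ : ℝ, (T τ).re ≤ AQQG A B v := by
    intro τ
    have h1 := coeG h hq (φ1 := fun θ => φ1 θ + τ) (φ2 := fun θ => φ2 θ + τ) (m1.add_const τ) (m2.add_const τ)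
    refine le_trans (le_of_eq ?_) h1
    exact half_form hf g1 g2 (m1.add_const τ) (m2.add_const τ)
  have hsum := intervalIntegral.hasSum_integral_of_dominated_convergence (μ := volume) (a := -D) (b := D)
    (F := fun (n : ℤ) (τ : ℝ) => ee ((n : ℝ) * τ) * c n) (f := T) (fun n _ => ‖c n‖)
    (fun n => ((continuous_ee.comp (continuous_const.mul continuous_id)).mul
      continuous_const).aestronglyMeasurable)
    (fun n => Filter.Eventually.of_forall fun t _ => by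
      show ‖ee ((n : ℝ) * t) * c n‖ ≤ ‖c n‖
      rw [norm_mul, norm_ee, one_mul])
    (Filter.Eventually.of_forall fun t _ => hcs)
    (intervalIntegrable_const)
    (Filter.Eventually.of_forall fun t _ => hT t)
  refine ⟨1 / (2 * D) * ∫ τ in (-D)..D, (T τ).re, ?_, ?_⟩
  · have h1 : ∫ τ in (-D)..D, (T τ).re ≤ ∫ τ in (-D)..D, AQQG A B v :=
      intervalIntegral.integral_mono_on (by linarith) ((Complex.continuous_re.comp hTc).intervalIntegrable _ _)
        intervalIntegrable_const (fun τ _ => hle τ)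
    rw [intervalIntegral.integral_const, smul_eq_mul] at h1
    rw [div_mul_eq_mul_div, one_mul, div_le_iff₀ (by positivity)]
    linarith
  · have h2 := Complex.hasSum_re (hsum.mul_left ((1 / (2 * D) : ℝ) : ℂ))
    have e1 : (((1 / (2 * D) : ℝ) : ℂ) * ∫ τ in (-D)..D, T τ).re = 1 / (2 * D) * ∫ τ in (-D)..D, (T τ).re := by
      rw [Complex.re_ofReal_mul]
      congr 1
      have := Complex.reCLM.intervalIntegral_comp_comm (hTc.intervalIntegrable (μ := volume) (-D) D)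
      exact this.symm
    rw [e1] at h2
    refine h2.congr_fun ?_
    intro n
    congr 1
    rw [intervalIntegral.integral_mul_const, hc]
    simp only
    by_cases hn : Even n
    · rw [if_pos hn, if_pos hn]; ring
    · have h0 : n ≠ 0 := by rintro rfl; exact hn (by decide)
      have hnc : (n : ℂ) ≠ 0 := by exact_mod_cast h0
      have hDc : (D : ℂ) ≠ 0 := by exact_mod_cast hD.ne'
      rw [if_neg hn, if_neg hn, int_ee h0]
      unfold sk
      push_cast
      field_simp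

/-- the ramp with the odd frequencies only: `A t + B t = ee t * γ t` -/
theorem ramp_odd (h : Fam A B v C) (hq : QQ A B v) {γ : ℝ → ℂ} (hγ : ∀ t, A t + B t = ee t * γ t)
    {φ1 φ2 : ℝ → ℝ} (m1 : Measurable φ1) (m2 : Measurable φ2)
    {D : ℝ} (hD : 0 < D) : ∃ R : ℝ, R ≤ AQQG A B v ∧
    HasSum (fun j : ℤ => ((sk D (2 * j + 1) : ℂ) * (fc γ (2 * j) / (2 * (j : ℂ) + 1))
      * (mom (G1 A v) φ1 (2 * j + 1) + mom (G2 B v) φ2 (2 * j + 1))).re) R := by
  obtain ⟨R, hR, hs⟩ := ramp h hq m1 m2 hD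
  refine ⟨R, hR, ?_⟩
  have hinj : Function.Injective (fun j : ℤ => 2 * j + 1) := by
    intro a b hab; simp only at hab; omega
  have hsup : ∀ n, n ∉ Set.range (fun j : ℤ => 2 * j + 1) →
      ((if Even n then (0 : ℂ) else (sk D n : ℂ) * (fc (fun t => A t + B t) n / n))
        * (mom (G1 A v) φ1 n + mom (G2 B v) φ2 n)).re = 0 := by
    intro n hn
    have : Even n := by
      rw [← Int.not_odd_iff_even]
      rintro ⟨k, hk⟩
      exact hn ⟨k, hk.symm⟩
    simp [if_pos this]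
  have hs2 := (hinj.hasSum_iff hsup).2 hs
  refine hs2.congr_fun ?_
  intro j
  have hodd : ¬ Even (2 * j + 1) := by
    rw [Int.not_even_iff_odd]; exact ⟨j, rfl⟩
  have hcj : fc (fun t => A t + B t) (2 * j + 1) = fc γ (2 * j) := by
    rw [fc_eq, fc_eq]
    congr 1
    refine intervalIntegral.integral_congr fun t _ => ?_
    show (A t + B t) * ee (-((2 * j + 1 : ℤ) : ℝ) * t) = γ t * ee (-((2 * j : ℤ) : ℝ) * t)
    have e1 : ee (-((2 * j : ℤ) : ℝ) * t) = ee t * ee (-((2 * j + 1 : ℤ) : ℝ) * t) := by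
      rw [← ee_add]; congr 1; push_cast; ring
    rw [e1, hγ]; ring
  simp only [Function.comp, if_neg hodd]
  rw [hcj]
  push_cast
  rfl

/-- the moments of the measure of the true angles -/
noncomputable def mu (g : ℝ → ℂ) (m : ℤ) : ℂ :=
  (1 / (2 * Real.pi) : ℂ) * ∫ θ in (0 : ℝ)..(2 * Real.pi), (‖g θ‖ : ℂ) * ee ((m : ℝ) * al g θ)

/-- moments for the true angles -/
theorem mom_al (g : ℝ → ℂ) (m : ℤ) : mom g (al g) (m + 1) = mu g m := by
  unfold mom mu
  congr 1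
  refine intervalIntegral.integral_congr fun θ _ => ?_
  show ee (((m + 1 : ℤ) : ℝ) * al g θ) * (starRingEnd ℂ) (g θ) = (‖g θ‖ : ℂ) * ee ((m : ℝ) * al g θ)
  have e1 : (starRingEnd ℂ) (g θ) = (‖g θ‖ : ℂ) * (starRingEnd ℂ) (ee (al g θ)) := by
    conv_lhs => rw [al_ee g θ]
    rw [map_mul, Complex.conj_ofReal]
  have e2 : ee (((m + 1 : ℤ) : ℝ) * al g θ) = ee ((m : ℝ) * al g θ) * ee (al g θ) := by
    rw [← ee_add]; congr 1; push_cast; ring
  rw [e1, e2]
  have e3 := ee_mul_conj (al g θ)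
  linear_combination (‖g θ‖ : ℂ) * ee ((m : ℝ) * al g θ) * e3

theorem mu_conj (g : ℝ → ℂ) (m : ℤ) : mu g (-m) = (starRingEnd ℂ) (mu g m) := by
  have hp := Real.pi_pos
  unfold mu
  have h5 : (starRingEnd ℂ) (∫ θ in (0 : ℝ)..(2 * Real.pi), (‖g θ‖ : ℂ) * ee ((m : ℝ) * al g θ)) =
      ∫ θ in (0 : ℝ)..(2 * Real.pi), (starRingEnd ℂ) ((‖g θ‖ : ℂ) * ee ((m : ℝ) * al g θ)) := by
    rw [intervalIntegral.integral_of_le (by positivity), intervalIntegral.integral_of_le (by positivity)]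
    exact integral_conj.symm
  rw [map_mul, h5]
  have e0 : (starRingEnd ℂ) (1 / (2 * Real.pi) : ℂ) = (1 / (2 * Real.pi) : ℂ) := by
    simp only [map_mul, map_div₀, map_one, map_ofNat, Complex.conj_ofReal]
  rw [e0]
  congr 1
  refine intervalIntegral.integral_congr fun θ _ => ?_
  show (‖g θ‖ : ℂ) * ee (((-m : ℤ) : ℝ) * al g θ) = (starRingEnd ℂ) ((‖g θ‖ : ℂ) * ee ((m : ℝ) * al g θ))
  rw [map_mul, Complex.conj_ofReal, ← ee_neg]
  congr 2
  push_cast
  ring

theorem mu_zero (g : ℝ → ℂ) : mu g 0 =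
    ((1 / (2 * Real.pi) * ∫ θ in (0 : ℝ)..(2 * Real.pi), ‖g θ‖ : ℝ) : ℂ) := by
  unfold mu
  have e : ∀ θ : ℝ, (‖g θ‖ : ℂ) * ee (((0 : ℤ) : ℝ) * al g θ) = ((‖g θ‖ : ℝ) : ℂ) := by
    intro θ
    rw [Int.cast_zero, zero_mul, ee_zero, mul_one]
  simp_rw [e]
  rw [intervalIntegral.integral_ofReal]
  push_cast
  ring

theorem mu_bd {g : ℝ → ℂ} {D : ℝ} (hg : BM g D) (m : ℤ) : ‖mu g m‖ ≤ D := by
  rw [← mom_al]
  exact mom_bd hg _

/-- THE RAMP with the true angles -/
theorem ramp_true (h : Fam A B v C) (hq : QQ A B v) {γ : ℝ → ℂ} (hγ : ∀ t, A t + B t = ee t * γ t)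
    {D : ℝ} (hD : 0 < D) : ∃ R : ℝ, R ≤ AQQG A B v ∧
    HasSum (fun j : ℤ => ((sk D (2 * j + 1) : ℂ) * (fc γ (2 * j) / (2 * (j : ℂ) + 1))
      * (mu (G1 A v) (2 * j) + mu (G2 B v) (2 * j))).re) R := by
  have m1 : Measurable (G1 A v) := G1_meas h
  have m2 : Measurable (G2 B v) := G2_meas h
  obtain ⟨R, hR, hs⟩ := ramp_odd h hq hγ (al_meas m1) (al_meas m2) hD
  refine ⟨R, hR, ?_⟩
  refine hs.congr_fun ?_
  intro j
  rw [mom_al, mom_al]

end Pool.Agent.Helper51.RC
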