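import Pool.Agent.Helper49.RC.StSharp
import Pool.Agent.Helper51.RC.M_FLD

/-!
# Project RC, SHARP: the region fact, pointwise part

For every `q = x + i √3 y` with `x² + 3 y² ≤ 121/50`, every `b` and `z`: the four norms satisfy
`S4 - 4 + 2 b₂ + (3/2) b₂² ≥ Re (conj q z) - KK x y`, `KK = 4 (1 - Cee) + Cc2²/6`.
-/

open MeasureTheory Set Filter Metric

namespace Pool.Agent.Helper51.RC

open Helper44.GQ Helper49.Sharp

/-- the four norms -/
noncomputable def S4 (b z : ℂ) : ℝ := ‖g1 b z‖ + ‖g2 b z‖ + ‖g1 b (-z)‖ + ‖g2 b (-z)‖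

/-- the price of the field -/
noncomputable def KK (x y : ℝ) : ℝ := 4 * (1 - Cee x y) + Cc2 x y ^ 2 / 6

theorem g1_re (b z : ℂ) : (g1 b z).re = 1 / 2 * (1 + b.re) + Real.sqrt 3 * b.im + z.re := by
  unfold g1 cQ aQ
  simp only [Complex.add_re, Complex.mul_re, Complex.mul_im, Complex.add_im, Complex.sub_re, Complex.sub_im,
    Complex.ofReal_re, Complex.ofReal_im, Complex.I_re, Complex.I_im, Complex.one_re, Complex.one_im,
    Complex.div_ofNat_re, Complex.div_ofNat_im]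
  ring

theorem g1_im (b z : ℂ) : (g1 b z).im = Real.sqrt 3 / 2 * (1 - b.re) + b.im / 4 + z.im := by
  unfold g1 cQ aQ
  simp only [Complex.add_re, Complex.mul_re, Complex.mul_im, Complex.add_im, Complex.sub_re, Complex.sub_im,
    Complex.ofReal_re, Complex.ofReal_im, Complex.I_re, Complex.I_im, Complex.one_re, Complex.one_im,
    Complex.div_ofNat_re, Complex.div_ofNat_im]
  ring

theorem g2_re (b z : ℂ) : (g2 b z).re = -(1 / 2 * (1 + b.re)) + Real.sqrt 3 * b.im - z.re := by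
  unfold g2 cQ aQ
  simp only [Complex.add_re, Complex.mul_re, Complex.mul_im, Complex.add_im, Complex.sub_re, Complex.sub_im,
    Complex.ofReal_re, Complex.ofReal_im, Complex.I_re, Complex.I_im, Complex.one_re, Complex.one_im,
    Complex.div_ofNat_re, Complex.div_ofNat_im]
  ring

theorem g2_im (b z : ℂ) : (g2 b z).im = Real.sqrt 3 / 2 * (1 - b.re) - b.im / 4 - z.im := by
  unfold g2 cQ aQ
  simp only [Complex.add_re, Complex.mul_re, Complex.mul_im, Complex.add_im, Complex.sub_re, Complex.sub_im,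
    Complex.ofReal_re, Complex.ofReal_im, Complex.I_re, Complex.I_im, Complex.one_re, Complex.one_im,
    Complex.div_ofNat_re, Complex.div_ofNat_im]
  ring

/-- a vector of the unit disc -/
theorem dual_le {p r : ℝ} (h : p ^ 2 + r ^ 2 ≤ 1) (e : ℂ) : p * e.re + r * e.im ≤ ‖e‖ := by
  have h1 : (p * e.re + r * e.im) ^ 2 ≤ ‖e‖ ^ 2 := by
    rw [← Complex.normSq_eq_norm_sq, Complex.normSq_apply]
    nlinarith [sq_nonneg (p * e.im - r * e.re), mul_nonneg (sub_nonneg.2 h) (add_nonneg (mul_self_nonneg e.re)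
      (mul_self_nonneg e.im))]
  exact (abs_le_of_sq_le_sq' h1 (norm_nonneg _)).2

/-- the components of the field -/
noncomputable def pr (x y : ℝ) : ℝ := (CC x y - TT x y) / 2
noncomputable def pI (x y : ℝ) : ℝ := Real.sqrt 3 * (3 * CC x y + TT x y) / 6

theorem pp_le {x y : ℝ} (h : x ^ 2 + 3 * y ^ 2 ≤ 121 / 50) : pr x y ^ 2 + pI x y ^ 2 ≤ 1 := by
  have h1 := field_le h
  have hs : Real.sqrt 3 ^ 2 = 3 := Real.sq_sqrt (by norm_num)
  have e : pr x y ^ 2 + pI x y ^ 2 = CC x y ^ 2 + TT x y ^ 2 / 3 := by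
    unfold pr pI
    linear_combination ((3 * CC x y + TT x y) ^ 2 / 36) * hs
  rw [e]; exact h1

theorem Cee_nx (x y : ℝ) : Cee (-x) y = Cee x y := by unfold Cee; ring
theorem Cee_ny (x y : ℝ) : Cee x (-y) = Cee x y := by unfold Cee; ring
theorem Cc2_nx (x y : ℝ) : Cc2 (-x) y = Cc2 x y := by unfold Cc2; ring
theorem Cc2_ny (x y : ℝ) : Cc2 x (-y) = Cc2 x y := by unfold Cc2; ring
theorem Ceo_nx (x y : ℝ) : Ceo (-x) y = -Ceo x y := by unfold Ceo; ring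
theorem Ceo_ny (x y : ℝ) : Ceo x (-y) = -Ceo x y := by unfold Ceo; ring
theorem Coe_nx (x y : ℝ) : Coe (-x) y = -Coe x y := by unfold Coe; ring
theorem Coe_ny (x y : ℝ) : Coe x (-y) = Coe x y := by unfold Coe; ring
theorem Coo_nx (x y : ℝ) : Coo (-x) y = Coo x y := by unfold Coo; ring
theorem Coo_ny (x y : ℝ) : Coo x (-y) = -Coo x y := by unfold Coo; ring

/-- the algebraic identity -/
theorem alg_id (s x y E e o w c X Y u v : ℝ) (hs : s ^ 2 = 3) :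
    x * X + s * y * Y + 4 * E + (c - 2) * u =
    (((E + e + o + w) - (o - x / 2 + 3 / 2 * y - 3 * w + 15 / 11 * e + (1 - E) - c / 2)) / 2
        * (1 / 2 * (1 + u) + s * v + X)
      + s * (3 * (E + e + o + w) + (o - x / 2 + 3 / 2 * y - 3 * w + 15 / 11 * e + (1 - E) - c / 2)) / 6
        * (s / 2 * (1 - u) + v / 4 + Y))
    + (-(((E + -e + o + -w) - (o - x / 2 + 3 / 2 * -y - 3 * -w + 15 / 11 * -e + (1 - E) - c / 2)) / 2)
        * (-(1 / 2 * (1 + u)) + s * v - X)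
      + s * (3 * (E + -e + o + -w) + (o - x / 2 + 3 / 2 * -y - 3 * -w + 15 / 11 * -e + (1 - E) - c / 2)) / 6
        * (s / 2 * (1 - u) - v / 4 - Y))
    + (((E + e + -o + -w) - (-o - -x / 2 + 3 / 2 * -y - 3 * -w + 15 / 11 * e + (1 - E) - c / 2)) / 2
        * (1 / 2 * (1 + u) + s * v + -X)
      + s * (3 * (E + e + -o + -w) + (-o - -x / 2 + 3 / 2 * -y - 3 * -w + 15 / 11 * e + (1 - E) - c / 2)) / 6
        * (s / 2 * (1 - u) + v / 4 + -Y))
    + (-(((E + -e + -o + w) - (-o - -x / 2 + 3 / 2 * y - 3 * w + 15 / 11 * -e + (1 - E) - c / 2)) / 2)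
        * (-(1 / 2 * (1 + u)) + s * v - -X)
      + s * (3 * (E + -e + -o + w) + (-o - -x / 2 + 3 / 2 * y - 3 * w + 15 / 11 * -e + (1 - E) - c / 2)) / 6
        * (s / 2 * (1 - u) - v / 4 - -Y)) := by
  linear_combination (-((1 - u) / 12 * (
    (3 * (E + e + o + w) + (o - x / 2 + 3 / 2 * y - 3 * w + 15 / 11 * e + (1 - E) - c / 2))
    + (3 * (E + -e + o + -w) + (o - x / 2 + 3 / 2 * -y - 3 * -w + 15 / 11 * -e + (1 - E) - c / 2))
    + (3 * (E + e + -o + -w) + (-o - -x / 2 + 3 / 2 * -y - 3 * -w + 15 / 11 * e + (1 - E) - c / 2))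
    + (3 * (E + -e + -o + w) + (-o - -x / 2 + 3 / 2 * y - 3 * w + 15 / 11 * -e + (1 - E) - c / 2))))) * hs

theorem C1_eq (x y : ℝ) : CC x (-y) = Cee x y + -Ceo x y + Coe x y + -Coo x y := by
  unfold CC; rw [Cee_ny, Ceo_ny, Coe_ny, Coo_ny]
theorem C2_eq (x y : ℝ) : CC (-x) (-y) = Cee x y + Ceo x y + -Coe x y + -Coo x y := by
  unfold CC; rw [Cee_ny, Ceo_ny, Coe_ny, Coo_ny, Cee_nx, Ceo_nx, Coe_nx, Coo_nx, neg_neg]
theorem C3_eq (x y : ℝ) : CC (-x) y = Cee x y + -Ceo x y + -Coe x y + Coo x y := by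
  unfold CC; rw [Cee_nx, Ceo_nx, Coe_nx, Coo_nx]
theorem T1_eq (x y : ℝ) : TT x (-y) =
    Coe x y - x / 2 + 3 / 2 * -y - 3 * -Coo x y + 15 / 11 * -Ceo x y + (1 - Cee x y) - Cc2 x y / 2 := by
  unfold TT; rw [Cee_ny, Ceo_ny, Coe_ny, Coo_ny, Cc2_ny]
theorem T2_eq (x y : ℝ) : TT (-x) (-y) =
    -Coe x y - -x / 2 + 3 / 2 * -y - 3 * -Coo x y + 15 / 11 * Ceo x y + (1 - Cee x y) - Cc2 x y / 2 := by
  unfold TT; rw [Cee_ny, Ceo_ny, Coe_ny, Coo_ny, Cc2_ny, Cee_nx, Ceo_nx, Coe_nx, Coo_nx, Cc2_nx, neg_neg]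
theorem T3_eq (x y : ℝ) : TT (-x) y =
    -Coe x y - -x / 2 + 3 / 2 * y - 3 * Coo x y + 15 / 11 * -Ceo x y + (1 - Cee x y) - Cc2 x y / 2 := by
  unfold TT; rw [Cee_nx, Ceo_nx, Coe_nx, Coo_nx, Cc2_nx]

/-- THE POINTWISE INEQUALITY -/
theorem S4_field {x y : ℝ} (h : x ^ 2 + 3 * y ^ 2 ≤ 121 / 50) (b z : ℂ) :
    x * z.re + Real.sqrt 3 * y * z.im + 4 * Cee x y + (Cc2 x y - 2) * b.re ≤ S4 b z := by
  have hs : Real.sqrt 3 ^ 2 = 3 := Real.sq_sqrt (by norm_num)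
  have h1 := dual_le (pp_le h) (g1 b z)
  have h2 := dual_le (pp_le (x := -x) (y := -y) (by rw [neg_sq, neg_sq]; exact h)) (g1 b (-z))
  have h3 := dual_le (p := -pr x (-y)) (r := pI x (-y)) (by
    rw [neg_sq]; exact pp_le (by rw [neg_sq]; exact h)) (g2 b z)
  have h4 := dual_le (p := -pr (-x) y) (r := pI (-x) y) (by
    rw [neg_sq]; exact pp_le (by rw [neg_sq]; exact h)) (g2 b (-z))
  unfold S4
  refine le_trans (le_of_eq ?_) (add_le_add (add_le_add (add_le_add h1 h3) h2) h4)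
  rw [g1_re, g1_im, g1_re, g1_im, g2_re, g2_im, g2_re, g2_im]
  unfold pr pI
  rw [C1_eq, C2_eq, C3_eq, T1_eq, T2_eq, T3_eq]
  simp only [Complex.neg_re, Complex.neg_im]
  unfold CC TT
  exact alg_id (Real.sqrt 3) x y (Cee x y) (Ceo x y) (Coe x y) (Coo x y) (Cc2 x y) z.re z.im b.re b.im hs

/-- the form with the price `KK` and the reserve `(3/2) b₂²` -/
theorem S4_KK {x y : ℝ} (h : x ^ 2 + 3 * y ^ 2 ≤ 121 / 50) (b z : ℂ) :
    x * z.re + Real.sqrt 3 * y * z.im - KK x y ≤ S4 b z - 4 + 2 * b.re + 3 / 2 * b.re ^ 2 := by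
  have h1 := S4_field h b z
  have h2 : 0 ≤ 3 / 2 * (b.re + Cc2 x y / 3) ^ 2 := by positivity
  unfold KK
  nlinarith

end Pool.Agent.Helper51.RC
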